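import Pool.Agent.T2h52.SO.Stm

/-!
# BAR: the barycentre is an interior point
-/

set_option autoImplicit false

namespace Pool.Agent.T2h52.SO

open MeasureTheory Set Filter Topology
open scoped ENNReal InnerProductSpace Pointwise
open Pool.Agent.N555.RZ (mP)
open Pool.Agent.T2h52.SP

namespace BAR

theorem prob {d : ℕ} {P : Set (E d)} {a : ℝ} (h : Bo P a) : IsProbabilityMeasure (mP P) := by
  have h0 : volume P ≠ 0 :=
    (Measure.measure_pos_of_mem_nhds volume (mem_interior_iff_mem_nhds.mp h.int)).ne'
  exact Pool.Agent.N555.RZ.mP_prob h0 h.comp.measure_lt_top.ne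

theorem aemem {d : ℕ} {P : Set (E d)} {a : ℝ} (h : Bo P a) : ∀ᵐ z ∂(mP P), z ∈ P :=
  Pool.Agent.N555.RZ.mP_ae h.comp.isClosed.measurableSet

theorem int_id {d : ℕ} {P : Set (E d)} {a : ℝ} (h : Bo P a) :
    Integrable (fun x : E d => x) (mP P) := by
  have := prob h
  obtain ⟨B, hB⟩ := h.comp.isBounded.subset_closedBall (0 : E d)
  refine Integrable.of_bound measurable_id.aestronglyMeasurable B ?_
  filter_upwards [aemem h] with x hx
  simpa using hB hx

theorem mean {d : ℕ} {P : Set (E d)} {a : ℝ} {b : E d} (h : Bo P a) (hb : Bc P b) :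
    ∫ x, x ∂(mP P) = b := by
  refine ext_inner_left ℝ fun w => ?_
  have h1 := (innerSL ℝ w).integral_comp_comm (int_id h)
  simp only [innerSL_apply_apply] at h1
  rw [← h1, real_inner_comm, ← hb w]
  congr 1
  ext x
  exact real_inner_comm _ _

end BAR

theorem bar : V_BAR := by
  intro d P a b h hb
  have hprob := BAR.prob h
  by_contra hn
  obtain ⟨f, hf⟩ := geometric_hahn_banach_open_point h.conv.interior isOpen_interior hn
  have hne : (interior P).Nonempty := ⟨0, h.int⟩
  have hle : ∀ x ∈ P, f x ≤ f b := by
    intro x hx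
    have hx' : x ∈ closure (interior P) := by
      rw [h.conv.closure_interior_eq_closure_of_nonempty_interior hne]
      exact subset_closure hx
    have hcl : IsClosed {x | f x ≤ f b} := isClosed_le f.continuous continuous_const
    exact hcl.closure_subset_iff.mpr (fun y hy => (hf y hy).le) hx'
  have hint : Integrable (fun x => f x) (mP P) := f.integrable_comp (BAR.int_id h)
  have hval : ∫ x, f x ∂(mP P) = f b := by
    have h1 := f.integral_comp_comm (BAR.int_id h)
    rw [h1, BAR.mean h hb]
  have hzero : ∫ x, (f b - f x) ∂(mP P) = 0 := by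
    rw [integral_sub (integrable_const _) hint, hval]
    simp
  have hnn : 0 ≤ᵐ[mP P] fun x => f b - f x := by
    filter_upwards [BAR.aemem h] with x hx
    exact sub_nonneg.mpr (hle x hx)
  rw [integral_eq_zero_iff_of_nonneg_ae hnn ((integrable_const _).sub hint)] at hzero
  have hcontra : mP P (interior P) = 0 := by
    refine measure_mono_null (fun x hx => ?_) (ae_iff.mp hzero)
    simp only [mem_ofPred_eq, Pi.zero_apply]
    exact (sub_pos.mpr (hf x hx)).ne'
  have hpos : 0 < mP P (interior P) := by
    rw [mP, Measure.smul_apply, smul_eq_mul, Measure.restrict_apply isOpen_interior.measurableSet,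
      inter_eq_left.mpr interior_subset]
    refine ENNReal.mul_pos ?_ ?_
    · exact ENNReal.inv_ne_zero.mpr h.comp.measure_lt_top.ne
    · exact (isOpen_interior.measure_pos volume hne).ne'
  exact hpos.ne' hcontra

end Pool.Agent.T2h52.SO
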