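import Pool.Agent.T2h52.SO.Stm
import Pool.Agent.TH591.Ns.Cover

/-!
Task BM: small translations, bodies which need not be symmetric.
-/

set_option autoImplicit false

namespace Pool.Agent.T2h52.SO

open MeasureTheory Set Filter Topology
open scoped ENNReal InnerProductSpace Pointwise
open Pool.Agent.T2h52.SP Pool.Agent.T2h52.SQ
open Pool.Agent.TH591.Ns (isG_gauge ball_eq)
open Pool.Agent.H815R2.Flat (bm_E)

theorem bm : V_BM := by
  intro d P a0 hP γ r ε' hr hε hγ k
  have hK0 : P ∈ 𝓝 0 := mem_interior_iff_mem_nhds.1 hP.int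
  have hg := isG_gauge hP.conv hK0
  have hb := ball_eq hP.conv hP.comp hK0
  have hPm : MeasurableSet P := hP.comp.isClosed.measurableSet
  have hfin : volume P ≠ ⊤ := hP.comp.measure_lt_top.ne
  set S : ℕ → Set (E d) := fun k =>
    {x | x ∈ P ∧ gauge P (x - (1 / 2 : ℝ) ^ k • γ) ≤ 1 + ε' * (1 / 2) ^ k} with hS
  have hSm : ∀ k, MeasurableSet (S k) := fun k =>
    hPm.inter ((isClosed_le (hg.cont.comp (continuous_id.sub continuous_const))
      continuous_const).measurableSet)
  have hSP : ∀ k, S k ⊆ P := fun k x hx => hx.1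
  have hSfin : ∀ k, volume (S k) ≠ ⊤ := fun k => measure_ne_top_of_subset (hSP k) hfin
  have hstep : ∀ k, volume P * volume (S k) ≤ volume (S (k + 1)) ^ 2 := by
    intro k
    refine bm_E hPm (hSm k) (hSm (k + 1)) fun a ha b hb' => ?_
    obtain ⟨hbP, hbg⟩ := hb'
    refine ⟨?_, ?_⟩
    · rw [smul_add]
      exact hP.conv ha hbP (by norm_num) (by norm_num) (by norm_num)
    · have ha1 : gauge P a ≤ 1 := by
        have : a ∈ {y : E d | gauge P y ≤ 1} := by
          rw [hb]
          exact ha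
        exact this
      have e : (1 / 2 : ℝ) • (a + b) - (1 / 2 : ℝ) ^ (k + 1) • γ =
          (1 / 2 : ℝ) • (a + (b - (1 / 2 : ℝ) ^ k • γ)) := by
        rw [pow_succ', mul_smul, ← smul_sub, add_sub_assoc]
      rw [e, hg.smul _ (by norm_num)]
      have h1 := hg.add a (b - (1 / 2 : ℝ) ^ k • γ)
      have h2 : ε' * (1 / 2 : ℝ) ^ (k + 1) = 1 / 2 * (ε' * (1 / 2) ^ k) := by
        rw [pow_succ]; ring
      rw [h2]
      linarith
  -- real numbers
  set V := (volume P).toReal with hV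
  have hV0 : 0 ≤ V := ENNReal.toReal_nonneg
  have hind : ∀ k, Real.exp (-(r * (1 / 2) ^ k)) * V ≤ (volume (S k)).toReal := by
    intro k
    induction k with
    | zero =>
      have h1 := ENNReal.toReal_mono (hSfin 0) (hγ.trans (measure_mono (fun x hx => by
        refine ⟨hx.1, ?_⟩
        have := hx.2
        simpa using this)))
      rw [ENNReal.toReal_mul, ENNReal.toReal_ofReal (Real.exp_pos _).le] at h1
      simpa using h1
    | succ k ih =>
      have h1 := ENNReal.toReal_mono (ENNReal.pow_ne_top (hSfin (k + 1))) (hstep k)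
      rw [ENNReal.toReal_mul, ENNReal.toReal_pow] at h1
      have h2 : (Real.exp (-(r * (1 / 2) ^ (k + 1))) * V) ^ 2 ≤ (volume (S (k + 1))).toReal ^ 2 := by
        refine le_trans (le_of_eq ?_) ((mul_le_mul_of_nonneg_left ih hV0).trans h1)
        rw [mul_pow, ← Real.exp_nat_mul]
        have e : ((2 : ℕ) : ℝ) * -(r * (1 / 2) ^ (k + 1)) = -(r * (1 / 2) ^ k) := by
          rw [pow_succ]; push_cast; ring
        rw [e]
        ring
      exact le_of_sq_le_sq h2 ENNReal.toReal_nonneg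
  have hdiff : {x | x ∈ P ∧ 1 + ε' * (1 / 2) ^ k < gauge P (x - (1 / 2 : ℝ) ^ k • γ)} = P \ S k := by
    ext x
    constructor
    · rintro ⟨h1, h2⟩
      exact ⟨h1, fun h3 => not_le.2 h2 h3.2⟩
    · rintro ⟨h1, h2⟩
      exact ⟨h1, not_le.1 fun h3 => h2 ⟨h1, h3⟩⟩
  rw [hdiff, measure_diff (hSP k) (hSm k).nullMeasurableSet (hSfin k)]
  rw [← ENNReal.ofReal_toReal hfin, ← ENNReal.ofReal_toReal (hSfin k), ← hV,
    ← ENNReal.ofReal_sub _ ENNReal.toReal_nonneg, ← ENNReal.ofReal_mul (by positivity)]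
  refine ENNReal.ofReal_le_ofReal ?_
  have h3 := hind k
  have h4 : 1 - r * (1 / 2) ^ k ≤ Real.exp (-(r * (1 / 2) ^ k)) := by
    have := Real.add_one_le_exp (-(r * (1 / 2 : ℝ) ^ k))
    linarith
  have h5 := mul_le_mul_of_nonneg_right h4 hV0
  linarith

end Pool.Agent.T2h52.SO
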