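import Pool.Agent.T2h52.SO.Stm
import Pool.Agent.TH591.Ns.Cover

/-!
Task CON (the file name CON is reserved on some systems): the volume of a star-shaped set.
-/

set_option autoImplicit false

namespace Pool.Agent.T2h52.SO

open MeasureTheory Set Filter Topology
open scoped ENNReal InnerProductSpace Pointwise
open Pool.Agent.T2h52.SP
open Pool.Agent.TH591.Ns (isG_gauge ball_eq vol_ball)

namespace CON

/-- the part of the body in a cone -/
theorem cone {d : ℕ} (hd : 1 ≤ d) {P : Set (E d)} {a : ℝ} (hP : Bo P a) (C : Set (E d))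
    (hC : ∀ s : ℝ, 0 < s → ∀ x, s • x ∈ C ↔ x ∈ C) (r : ℝ) (hr : 0 ≤ r) :
    volume (C ∩ {x | gauge P x ≤ r}) = ENNReal.ofReal (r ^ d) * volume (C ∩ P) := by
  have hK0 : P ∈ 𝓝 0 := mem_interior_iff_mem_nhds.1 hP.int
  have hg := isG_gauge hP.conv hK0
  have hb := ball_eq hP.conv hP.comp hK0
  have hmem : ∀ x, x ∈ P ↔ gauge P x ≤ 1 := fun x => by
    conv_lhs => rw [← hb]
    rfl
  rcases hr.eq_or_lt with rfl | hr
  · have h0 : volume (C ∩ {x | gauge P x ≤ 0}) = 0 := by
      refine measure_mono_null (t := (0 : ℝ) • P) ?_ ?_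
      · rintro x ⟨-, hx⟩
        have hx0 : x = 0 := by
          by_contra hne
          have := (gauge_pos (absorbent_nhds_zero hK0)
            ((NormedSpace.isVonNBounded_iff ℝ).2 hP.comp.isBounded)).2 hne
          exact absurd hx (not_le.2 this)
        rw [hx0]
        exact ⟨0, interior_subset hP.int, by simp⟩
      · rw [Measure.addHaar_smul, finrank_euclideanSpace_fin, zero_pow (by omega)]
        simp
    rw [h0, zero_pow (by omega), ENNReal.ofReal_zero, zero_mul]
  · have e : C ∩ {x | gauge P x ≤ r} = r • (C ∩ P) := by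
      ext x
      have hr' : 0 < r⁻¹ := by positivity
      rw [Set.mem_smul_set_iff_inv_smul_mem₀ hr.ne', mem_inter_iff, mem_inter_iff, hC _ hr', hmem,
        hg.smul _ hr'.le, mem_ofPred_eq, inv_mul_le_iff₀ hr, mul_one]
    rw [e, Measure.addHaar_smul, finrank_euclideanSpace_fin, abs_of_pos (by positivity)]

/-- functions with countably many values -/
theorem step {d : ℕ} (hd : 1 ≤ d) {P : Set (E d)} {a : ℝ} (hP : Bo P a) (ν : E d → ℕ) (hν : Measurable ν)
    (hs : ∀ s : ℝ, 0 < s → ∀ x, ν (s • x) = ν x) (r : ℕ → ℝ) (hr : ∀ j, 0 ≤ r j) :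
    volume {x : E d | gauge P x ≤ r (ν x)} = ∫⁻ x in P, ENNReal.ofReal (r (ν x) ^ d) := by
  have hK0 : P ∈ 𝓝 0 := mem_interior_iff_mem_nhds.1 hP.int
  have hg := isG_gauge hP.conv hK0
  have hPm : MeasurableSet P := hP.comp.isClosed.measurableSet
  have hm : ∀ j : ℕ, MeasurableSet (ν ⁻¹' {j}) := fun j => hν (measurableSet_singleton j)
  have e1 : {x : E d | gauge P x ≤ r (ν x)} = ⋃ j, (ν ⁻¹' {j} ∩ {x | gauge P x ≤ r j}) := by
    ext x
    simp
  have e2 : P = ⋃ j, (ν ⁻¹' {j} ∩ P) := by
    ext x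
    simp
  have hd1 : Pairwise (Function.onFun Disjoint fun j : ℕ => ν ⁻¹' {j}) := by
    intro i j hij
    refine Set.disjoint_left.2 fun x hx hx' => hij ?_
    exact (mem_singleton_iff.1 hx).symm.trans (mem_singleton_iff.1 hx')
  rw [e1, measure_iUnion (fun i j hij => (hd1 hij).mono inter_subset_left inter_subset_left)
    fun j => (hm j).inter (hg.ms (r j))]
  have e3 : ∫⁻ x in P, ENNReal.ofReal (r (ν x) ^ d) =
      ∑' j, ∫⁻ x in ν ⁻¹' {j} ∩ P, ENNReal.ofReal (r (ν x) ^ d) := by
    conv_lhs => rw [e2]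
    exact lintegral_iUnion (fun j => (hm j).inter hPm)
      (fun i j hij => (hd1 hij).mono inter_subset_left inter_subset_left) _
  rw [e3]
  refine tsum_congr fun j => ?_
  rw [cone hd hP (ν ⁻¹' {j}) (fun s hs0 x => by rw [mem_preimage, mem_preimage, hs s hs0 x]) (r j) (hr j)]
  have e4 : ∫⁻ x in ν ⁻¹' {j} ∩ P, ENNReal.ofReal (r (ν x) ^ d) =
      ∫⁻ _x in ν ⁻¹' {j} ∩ P, ENNReal.ofReal (r j ^ d) :=
    setLIntegral_congr_fun ((hm j).inter hPm) fun x hx => by
      have : ν x = j := mem_singleton_iff.1 hx.1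
      simp only [this]
  rw [e4, setLIntegral_const]

theorem pw (d : ℕ) (B x y : ℝ) (hB : 1 ≤ B) (hx : 0 ≤ x) (hxy : x ≤ y) (hy : y ≤ B) :
    y ^ d ≤ x ^ d + d * B ^ d * (y - x) := by
  induction d with
  | zero => simp
  | succ d ih =>
    have hB0 : 0 ≤ B := by linarith
    have h1 : x ^ d ≤ B ^ d := pow_le_pow_left₀ hx (hxy.trans hy) d
    have h2 : B ^ d ≤ B ^ (d + 1) := pow_le_pow_right₀ hB (Nat.le_succ d)
    have h3 : 0 ≤ y - x := by linarith
    have h4 : 0 ≤ B ^ d := by positivity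
    have hd0 : (0 : ℝ) ≤ d := Nat.cast_nonneg d
    calc y ^ (d + 1) = y * y ^ d := by ring
      _ ≤ y * (x ^ d + d * B ^ d * (y - x)) := mul_le_mul_of_nonneg_left ih (by linarith)
      _ = x ^ (d + 1) + x ^ d * (y - x) + y * (d * B ^ d * (y - x)) := by ring
      _ ≤ x ^ (d + 1) + B ^ (d + 1) * (y - x) + B * (d * B ^ d * (y - x)) :=
          add_le_add (add_le_add le_rfl (mul_le_mul_of_nonneg_right (h1.trans h2) h3))
            (mul_le_mul_of_nonneg_right hy (by positivity))
      _ = _ := by push_cast; ring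

end CON

theorem con : V_CON := by
  intro d P a hd hP ψ M hψ h0 hM hs
  have hK0 : P ∈ 𝓝 0 := mem_interior_iff_mem_nhds.1 hP.int
  have hPm : MeasurableSet P := hP.comp.isClosed.measurableSet
  have hfin : volume P ≠ ⊤ := hP.comp.measure_lt_top.ne
  have hd0 : (0 : ℝ) ≤ d := Nat.cast_nonneg d
  obtain ⟨B, hB⟩ : ∃ B : ℝ, B = |M| + 2 := ⟨_, rfl⟩
  have hB1 : 1 ≤ B := by rw [hB]; linarith [abs_nonneg M]
  have hMB : M + 1 ≤ B := by rw [hB]; linarith [le_abs_self M]
  obtain ⟨c, hc⟩ : ∃ c : ℝ, c = d * B ^ d := ⟨_, rfl⟩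
  have hc0 : 0 ≤ c := by rw [hc]; positivity
  set A : Set (E d) := {x : E d | gauge P x ≤ ψ x} with hA
  set I : ℝ≥0∞ := ∫⁻ x in P, ENNReal.ofReal (ψ x ^ d) with hI
  have key : ∀ k : ℕ, volume A ≤ I + ENNReal.ofReal (c / ((k : ℝ) + 1)) * volume P ∧
      I ≤ volume A + ENNReal.ofReal (c / ((k : ℝ) + 1)) * volume P := by
    intro k
    obtain ⟨K, hK⟩ : ∃ K : ℝ, K = (k : ℝ) + 1 := ⟨_, rfl⟩
    have hK0 : 0 < K := by rw [hK]; positivity
    have hK1 : 1 ≤ K := by rw [hK]; linarith [Nat.cast_nonneg (α := ℝ) k]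
    have hKi : 1 / K ≤ 1 := by rw [div_le_one hK0]; exact hK1
    obtain ⟨ν, hν⟩ : ∃ ν : E d → ℕ, ν = fun x => ⌊K * ψ x⌋₊ := ⟨_, rfl⟩
    have hνm : Measurable ν := by
      rw [hν]
      exact Nat.measurable_floor.comp (hψ.const_mul K)
    have hνs : ∀ s : ℝ, 0 < s → ∀ x, ν (s • x) = ν x := by
      intro s hs0 x
      rw [hν]
      simp only
      rw [hs s hs0 x]
    have h1 : ∀ x, (ν x : ℝ) / K ≤ ψ x := by
      intro x
      rw [div_le_iff₀ hK0, hν, mul_comm]
      exact Nat.floor_le (mul_nonneg hK0.le (h0 x))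
    have h2 : ∀ x, ψ x ≤ ((ν x : ℝ) + 1) / K := by
      intro x
      rw [le_div_iff₀ hK0, hν, mul_comm]
      exact (Nat.lt_floor_add_one _).le
    have h3 : ∀ x, ((ν x : ℝ) + 1) / K = (ν x : ℝ) / K + 1 / K := fun x => by ring
    have s1 := CON.step hd hP ν hνm hνs (fun j => (j : ℝ) / K) (fun j => by positivity)
    have s2 := CON.step hd hP ν hνm hνs (fun j => ((j : ℝ) + 1) / K) (fun j => by positivity)
    have hconst : ∫⁻ _x in P, ENNReal.ofReal (c / K) = ENNReal.ofReal (c / K) * volume P := setLIntegral_const _ _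
    rw [← hK]
    constructor
    · calc volume A ≤ volume {x : E d | gauge P x ≤ ((ν x : ℝ) + 1) / K} :=
            measure_mono fun x hx => le_trans hx (h2 x)
        _ = ∫⁻ x in P, ENNReal.ofReal ((((ν x : ℝ) + 1) / K) ^ d) := s2
        _ ≤ ∫⁻ x in P, (ENNReal.ofReal (ψ x ^ d) + ENNReal.ofReal (c / K)) := by
            refine lintegral_mono fun x => ?_
            have hpd : 0 ≤ ψ x ^ d := pow_nonneg (h0 x) d
            rw [← ENNReal.ofReal_add hpd (by positivity)]
            refine ENNReal.ofReal_le_ofReal ?_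
            have h4 := h1 x
            have h5 := h3 x
            have h6 := hM x
            refine (CON.pw d B (ψ x) (((ν x : ℝ) + 1) / K) hB1 (h0 x) (h2 x) (by linarith)).trans ?_
            rw [← hc]
            have h7 : ((ν x : ℝ) + 1) / K - ψ x ≤ 1 / K := by linarith
            have h8 := mul_le_mul_of_nonneg_left h7 hc0
            rw [mul_one_div] at h8
            linarith
        _ = I + ENNReal.ofReal (c / K) * volume P := by
            rw [lintegral_add_right _ measurable_const, hconst]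
    · calc I ≤ ∫⁻ x in P, (ENNReal.ofReal (((ν x : ℝ) / K) ^ d) + ENNReal.ofReal (c / K)) := by
            refine lintegral_mono fun x => ?_
            rw [← ENNReal.ofReal_add (by positivity) (by positivity)]
            refine ENNReal.ofReal_le_ofReal ?_
            have h4 := h2 x
            have h5 := h3 x
            have h6 := hM x
            refine (CON.pw d B ((ν x : ℝ) / K) (ψ x) hB1 (by positivity) (h1 x) (by linarith)).trans ?_
            rw [← hc]
            have h7 : ψ x - (ν x : ℝ) / K ≤ 1 / K := by linarith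
            have h8 := mul_le_mul_of_nonneg_left h7 hc0
            rw [mul_one_div] at h8
            linarith
        _ = (∫⁻ x in P, ENNReal.ofReal (((ν x : ℝ) / K) ^ d)) + ENNReal.ofReal (c / K) * volume P := by
            rw [lintegral_add_right _ measurable_const, hconst]
        _ = volume {x : E d | gauge P x ≤ (ν x : ℝ) / K} + ENNReal.ofReal (c / K) * volume P := by rw [s1]
        _ ≤ volume A + ENNReal.ofReal (c / K) * volume P := by
            refine add_le_add (measure_mono fun x hx => le_trans hx (h1 x)) le_rfl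
  have hlim : Tendsto (fun k : ℕ => c / ((k : ℝ) + 1)) atTop (𝓝 0) := by
    have := tendsto_one_div_add_atTop_nhds_zero_nat (𝕜 := ℝ)
    have h2 := this.const_mul c
    simpa [div_eq_mul_inv] using h2
  have hlim2 : ∀ z : ℝ≥0∞, Tendsto (fun k : ℕ => z + ENNReal.ofReal (c / ((k : ℝ) + 1)) * volume P) atTop (𝓝 z) := by
    intro z
    have h1 := ENNReal.Tendsto.mul_const (ENNReal.tendsto_ofReal hlim) (Or.inr hfin)
    have h2 := (tendsto_const_nhds (x := z)).add h1
    simpa using h2
  have hle : volume A ≤ I := ge_of_tendsto' (hlim2 I) fun k => (key k).1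
  have hge : I ≤ volume A := ge_of_tendsto' (hlim2 (volume A)) fun k => (key k).2
  have heq : volume A = I := le_antisymm hle hge
  rw [heq, hI, integral_eq_lintegral_of_nonneg_ae (Filter.Eventually.of_forall fun x => pow_nonneg (h0 x) d)
    (hψ.pow_const d).aestronglyMeasurable]

end Pool.Agent.T2h52.SO
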