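import Pool.Agent.T2h52.SO.Stm
import Pool.Agent.T2h52.SQ.CRT
import Pool.Agent.N555.RZ.Trans

/-!
Task CRT: the criterion, arbitrary base point.
-/

set_option autoImplicit false

namespace Pool.Agent.T2h52.SO

open MeasureTheory Set Filter Topology
open scoped ENNReal InnerProductSpace Pointwise
open Pool.Agent.N555.RZ (mP)
open Pool.Agent.T2h52.SP

theorem crt (h1 : V_IMG) (h2 : V_SPR) (h3 : V_MAI) : V_CRT := by
  intro d P Q A C l q B b hd hP hb hQ hs hI hgm hl hn hq hB hco hnum
  obtain ⟨b1, b2, b3, b4⟩ := h1 d P Q A C b hP hb hQ hs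
  have hC := hP.one
  have hg : gm (gauge (A '' P)) ≤ C * l := by
    refine (Pool.Agent.T2h52.SQ.gm_mul b3 fun u => (b4 u).2).trans ?_
    exact mul_le_mul_of_nonneg_left hgm (by linarith)
  have hCl : 1 ≤ C * l := by nlinarith
  have hspr := h2 d (A '' P) C (C * l) (A b) b1 b2 hI hCl hg hn
  have hga : ∀ u : E d, gauge (A '' Q) u = gauge Q (A.symm u) := by
    intro u
    have h := Pool.Agent.N555.RZ.gauge_img (K := Q) A (A.symm u)
    rwa [A.apply_symm_apply] at h
  have hcot : ∀ (m : ℕ) (x : Fin m → E d), (∑ i, gauge (A '' Q) (x i) ^ q) ^ (1 / q) ≤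
      B * Real.sqrt (sm (gauge (A '' Q)) x) := by
    intro m x
    have e1 := hco m fun i => A.symm (x i)
    have e2 : sm (gauge (A '' Q)) x = sm (gauge Q) fun i => A.symm (x i) := by
      unfold sm
      congr 1
      refine Finset.sum_congr rfl fun δ _ => ?_
      rw [hga, map_sum]
      simp only [map_smul]
    rw [e2]
    simp only [hga]
    exact e1
  have h4 : Cv (A '' P) := by
    refine h3 d (A '' P) (A '' Q) C q B _ (A b) hd b1 b2 hI b3 b4 hspr hq hB hcot ?_
    have hpos : 0 < 10 ^ 47 * C * (C * l) ^ ((1 : ℝ) / 2) := by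
      have : 0 < (C * l) ^ ((1 : ℝ) / 2) := Real.rpow_pos_of_pos (by linarith) _
      positivity
    rw [le_div_iff₀ hpos]
    exact hnum
  exact Pool.Agent.N555.RZ.cover_trans A h4

end Pool.Agent.T2h52.SO
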