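import Pool.Agent.T2h52.SO.Stm

/-!
# CTR: coverings of a translate
-/

set_option autoImplicit false

namespace Pool.Agent.T2h52.SO

open MeasureTheory Set Filter Topology
open scoped ENNReal InnerProductSpace Pointwise
open Pool.Agent.T2h52.SP

theorem ctr : V_CTR := by
  rintro d P b ⟨T, hT, hc⟩
  have hi : interior (tr P b) = tr (interior P) b := by
    have h := (Homeomorph.subRight b).image_interior P
    simpa [tr] using h.symm
  refine ⟨T, fun x hx => ?_, hc⟩
  have h1 : x - b ∈ tr P b := ⟨x, hx, rfl⟩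
  have h2 := hT h1
  rw [hi] at h2
  simp only [mem_iUnion, mem_image, exists_prop, tr] at h2 ⊢
  obtain ⟨t, ht, z, ⟨y, hy, rfl⟩, hz⟩ := h2
  refine ⟨t, ht, y, hy, ?_⟩
  have h3 : t + (y - b) + b = x := by rw [hz]; simp
  rw [← h3]
  abel

end Pool.Agent.T2h52.SO
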