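import Pool.Agent.T2h52.SO.Stm
import Pool.Agent.T2h52.SP.EIG
import Pool.Agent.TH591.Ns.Cover

/-! The spread inequality, bodies which need not be symmetric: the top eigenvector. -/

set_option autoImplicit false

open MeasureTheory Set Filter Topology
open scoped ENNReal InnerProductSpace Pointwise
open Pool.Agent.N555.RZ (mP mP_prob)

namespace Pool.Agent.T2h52.SO

open Pool.Agent.T2h52.SP Pool.Agent.T2h52.SQ

theorem eig : V_EIG := by
  intro d P a0 hd hP
  have hK0 : P ∈ 𝓝 (0 : E d) := mem_interior_iff_mem_nhds.1 hP.int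
  have hG := Pool.Agent.TH591.Ns.isG_gauge hP.conv hK0
  have h0 : volume P ≠ 0 := (MeasureTheory.Measure.measure_pos_of_mem_nhds _ hK0).ne'
  have hfin : volume P ≠ ⊤ := hP.comp.measure_lt_top.ne
  have := mP_prob h0 hfin
  -- the gauge is bounded by a multiple of the norm
  obtain ⟨r, hr, hball⟩ := Metric.mem_nhds_iff.1 hK0
  have hbd : ∀ w : E d, gauge P w ≤ (2 / r) * ‖w‖ := by
    intro w
    rcases eq_or_ne w 0 with rfl | hw
    · simp
    · have hn : 0 < ‖w‖ := norm_pos_iff.2 hw
      have h1 : gauge P ((r / 2 / ‖w‖) • w) ≤ 1 := by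
        apply gauge_le_one_of_mem
        apply hball
        rw [mem_ball_zero_iff, norm_smul, Real.norm_eq_abs, abs_of_pos (by positivity)]
        have : r / 2 / ‖w‖ * ‖w‖ = r / 2 := by field_simp
        rw [this]
        linarith
      rw [hG.smul _ (by positivity)] at h1
      have h2 : gauge P w = (2 / r * ‖w‖) * (r / 2 / ‖w‖ * gauge P w) := by
        field_simp
      rw [h2]
      calc _ ≤ (2 / r * ‖w‖) * 1 := mul_le_mul_of_nonneg_left h1 (by positivity)
        _ = _ := by ring
  refine eig_aux hd (mP P) (fun z => fderiv ℝ (gauge P) z) (fun w => ?_) (2 / r) fun z w => ?_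
  · exact measurable_fderiv_apply_const ℝ (gauge P) w
  · rw [abs_le]
    constructor
    · have h1 := Pool.Agent.TH591.Ns.fderiv_le_g hG z (-w)
      have h2 := hbd (-w)
      rw [norm_neg] at h2
      rw [map_neg] at h1
      linarith
    · exact (Pool.Agent.TH591.Ns.fderiv_le_g hG z w).trans (hbd w)

end Pool.Agent.T2h52.SO
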