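import Pool.Agent.T2h52.SO.H2
import Pool.Agent.N555.RZ.MainA

/-!
Task EXM: exponential moments.
-/

set_option autoImplicit false

namespace Pool.Agent.T2h52.SO

open MeasureTheory Set Filter Topology
open scoped ENNReal InnerProductSpace Pointwise
open Pool.Agent.N555.RZ (mP Spr mP_prob)
open Pool.Agent.T2h52.SP
open Pool.Agent.T2h52.SQ

theorem exm (hU : U_EXM) (hT : V_TRB) (hM : V_MTR) : V_EXM := by
  intro d P A a b hP hb hI hAP hA hvol β hβ w hw
  obtain ⟨⟨a', hBn⟩, hIso⟩ := hT d P a b hP hb
  have hsub : tr A b ⊆ tr P b := image_mono hAP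
  have hmap := hM d A b hA
  have hm : Measurable fun x : E d => x - b := measurable_id.sub_const b
  have hP0 : volume P ≠ 0 :=
    (Measure.measure_pos_of_mem_nhds volume (mem_interior_iff_mem_nhds.1 hP.int)).ne'
  have hPfin : volume P ≠ ⊤ := hP.comp.measure_lt_top.ne
  have hAfin : volume A ≠ ⊤ := measure_ne_top_of_subset hAP hPfin
  have hA0 : volume A ≠ 0 := by
    intro h0
    rw [h0] at hvol
    have h1 := le_zero_iff.1 hvol
    rcases mul_eq_zero.1 h1 with h2 | h2
    · rw [ENNReal.ofReal_eq_zero] at h2
      norm_num at h2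
    · exact hP0 h2
  have hprob := mP_prob hA0 hAfin
  have hint : ∀ w : E d, Integrable (fun x : E d => ⟪x, w⟫_ℝ) (mP A) := by
    intro w
    have h1 : IntegrableOn (fun x : E d => ⟪x, w⟫_ℝ) A :=
      (((continuous_id.inner continuous_const).continuousOn).integrableOn_compact hP.comp).mono_set
        hAP
    exact h1.smul_measure (ENNReal.inv_ne_top.2 hA0)
  have hβ' : ∀ w : E d, ⟪β - b, w⟫_ℝ = ∫ x, ⟪x, w⟫_ℝ ∂(mP (tr A b)) := by
    intro w
    rw [hmap, integral_map hm.aemeasurable
      (continuous_id.inner continuous_const).aestronglyMeasurable, inner_sub_left, hβ w]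
    simp only [inner_sub_left]
    rw [integral_sub (hint w) (integrable_const _), integral_const]
    simp
  have h := hU d (tr P b) (tr A b) a' hBn (hIso hI) hsub (tr_measurable hA b)
    (by rw [vol_tr, vol_tr]; exact hvol) (β - b) hβ' w hw
  have e1 : la (tr A b) (β - b) = la A β := by
    unfold la
    have hm2 : Measurable fun x : E d => x - (β - b) := measurable_id.sub_const _
    rw [hmap, Measure.map_map hm2 hm]
    congr 1
    funext x
    show x - b - (β - b) = x - β
    abel
  rwa [e1] at h

end Pool.Agent.T2h52.SO
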