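import Pool.Agent.T2h52.SO.Stm
import Pool.Agent.N555.RZ.Trans

/-!
Task FCO: flat bodies are covered.
-/

set_option autoImplicit false
set_option maxHeartbeats 4000000

namespace Pool.Agent.T2h52.SO

open MeasureTheory Set Filter Topology
open scoped ENNReal InnerProductSpace Pointwise
open Pool.Agent.N555.RZ (mP)
open Pool.Agent.T2h52.SP

namespace FCOaux

theorem tr_conv {d : ℕ} {P : Set (E d)} (h : Convex ℝ P) (b : E d) : Convex ℝ (tr P b) := by
  have h1 : tr P b = (fun x => -b + x) '' P := by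
    unfold tr
    congr 1
    ext x
    simp [sub_eq_neg_add]
  rw [h1]
  exact h.translate (-b)

theorem tr_comp {d : ℕ} {P : Set (E d)} (h : IsCompact P) (b : E d) : IsCompact (tr P b) :=
  h.image (continuous_id.sub continuous_const)

theorem tr_int {d : ℕ} {P : Set (E d)} {b : E d} (h : b ∈ interior P) :
    (0 : E d) ∈ interior (tr P b) := by
  have h1 : interior (tr P b) = (fun x => x - b) '' interior P := by
    have := (Homeomorph.subRight b).image_interior P
    exact this.symm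
  rw [h1]
  exact ⟨b, h, sub_self b⟩

end FCOaux

theorem fco (hFLA : V_FLA) (hBAR : V_BAR) (hCTR : V_CTR) : V_FCO := by
  intro d P a b hd hP hb hflat
  have hbi := hBAR d P a b hP hb
  apply hCTR d P b
  have hℓ := Pool.Agent.N555.RZ.log_ge_one d hd
  have hd' : (2 : ℝ) ≤ d := by exact_mod_cast hd
  set ℓ := Real.log ((d : ℝ) + 1) with hℓ'
  have hℓ0 : 0 < ℓ := by linarith
  set ρ : ℝ := 1 / (46080 * ℓ) with hρ
  have hρ0 : 0 < ρ := by positivity
  have hf : Pool.Agent.Results.MP_eba1ef_gt.AsymmetricThinSlabs.flatness (tr P b) ≤ ρ := by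
    rw [hFLA d P a (by omega) hP b hbi]
    exact hflat
  obtain ⟨T, hT1, -, hT2⟩ :=
    (Pool.Agent.Results.MP_eba1ef_gt.AsymmetricThinSlabs.result d hd (tr P b)
      (FCOaux.tr_conv hP.conv b) (FCOaux.tr_comp hP.comp b) (FCOaux.tr_int hbi)).2.1 ρ hρ0 hf
  refine ⟨T, hT1, hT2 ?_⟩
  have e1 : 1 / (7680 * ρ) = 6 * ℓ := by
    rw [hρ]
    field_simp
    norm_num
  have e2 : Real.exp (-(6 * ℓ)) = (((d : ℝ) + 1) ^ 6)⁻¹ := by
    rw [Real.exp_neg, hℓ', mul_comm, ← Real.rpow_def_of_pos (by positivity)]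
    norm_cast
  rw [e1, e2, ← div_eq_mul_inv, div_le_one (by positivity)]
  exact Pool.Agent.N555.RZ.log_num d hd

end Pool.Agent.T2h52.SO
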