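import Pool.Agent.T2h52.SO.H2
import Pool.Agent.TH591.Ns.Cover

/-!
Task FLA: the flatness of `P - b` in terms of the gauge about `0`.
-/

set_option autoImplicit false

namespace Pool.Agent.T2h52.SO

open MeasureTheory Set Filter Topology
open scoped ENNReal InnerProductSpace Pointwise
open Pool.Agent.N555.RZ (mP Spr)
open Pool.Agent.T2h52.SP
open Pool.Agent.T2h52.SQ

/-- the derivative of the gauge is bounded -/
theorem fla_bd {d : ℕ} {P : Set (E d)} {a : ℝ} (hP : Bo P a) :
    ∃ C : ℝ, 0 ≤ C ∧ ∀ z y : E d, |fderiv ℝ (gauge P) z y| ≤ C * ‖y‖ := by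
  have hK0 : P ∈ 𝓝 (0 : E d) := mem_interior_iff_mem_nhds.1 hP.int
  have hG := Pool.Agent.TH591.Ns.isG_gauge hP.conv hK0
  obtain ⟨r, hr, hball⟩ := Metric.mem_nhds_iff.1 hK0
  have hbd : ∀ w : E d, gauge P w ≤ r⁻¹ * ‖w‖ := by
    intro w
    have h1 := mul_gauge_le_norm (x := w) hball
    rw [← div_eq_inv_mul, le_div_iff₀ hr, mul_comm]
    exact h1
  refine ⟨r⁻¹, by positivity, fun z y => ?_⟩
  rw [abs_le]
  constructor
  · have h1 := Pool.Agent.TH591.Ns.fderiv_le_g hG z (-y)
    have h2 := hbd (-y)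
    rw [norm_neg] at h2
    rw [map_neg] at h1
    linarith
  · exact (Pool.Agent.TH591.Ns.fderiv_le_g hG z y).trans (hbd y)

/-- joint measurability -/
theorem fla_meas {d : ℕ} (P : Set (E d)) (b : E d) :
    Measurable fun p : E d × E d => |fderiv ℝ (gauge P) p.1 (p.2 - b)| := by
  have h1 : Measurable fun p : E d × E d => (fderiv ℝ (gauge P) p.1, p.2 - b) :=
    ((measurable_fderiv ℝ (gauge P)).comp measurable_fst).prodMk (measurable_snd.sub_const b)
  have h2 : Continuous fun q : (E d →L[ℝ] ℝ) × E d => q.1 q.2 := isBoundedBilinearMap_apply.continuous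
  exact (h2.measurable.comp h1).abs

theorem fla_split {d : ℕ} {P : Set (E d)} {a : ℝ} (hP : Bo P a) (y : E d) :
    ∫ x in P, |fderiv ℝ (gauge P) x y| =
      (∫ x in P, max (-(fderiv ℝ (gauge P) x y)) 0) + ∫ x in P, max (-(fderiv ℝ (gauge P) x (-y))) 0 := by
  obtain ⟨C, hC, hb⟩ := fla_bd hP
  have hfin : volume P ≠ ⊤ := hP.comp.measure_lt_top.ne
  have : IsFiniteMeasure (volume.restrict P) := ⟨by
    rw [Measure.restrict_apply_univ]
    exact hP.comp.measure_lt_top⟩
  have hi : ∀ u : E d, Integrable (fun x => max (-(fderiv ℝ (gauge P) x u)) 0)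
      (volume.restrict P) := by
    intro u
    refine Integrable.of_bound (((measurable_fderiv_apply_const ℝ (gauge P) u).neg).max
      measurable_const).aestronglyMeasurable (C * ‖u‖) (Eventually.of_forall fun x => ?_)
    rw [Real.norm_eq_abs, abs_of_nonneg (le_max_right _ _)]
    refine max_le ?_ (by positivity)
    have h1 := hb x u
    have h2 := neg_abs_le (fderiv ℝ (gauge P) x u)
    linarith
  rw [← integral_add (hi y) (hi (-y))]
  refine integral_congr_ae (Eventually.of_forall fun x => ?_)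
  show |fderiv ℝ (gauge P) x y| = max (-(fderiv ℝ (gauge P) x y)) 0 +
    max (-(fderiv ℝ (gauge P) x (-y))) 0
  rw [map_neg, neg_neg]
  rcases le_total 0 (fderiv ℝ (gauge P) x y) with h | h
  · rw [abs_of_nonneg h, max_eq_left h, max_eq_right (by linarith), zero_add]
  · rw [abs_of_nonpos h, max_eq_right h, max_eq_left (by linarith), add_zero]

theorem fla (hF : V_FLT) : V_FLA := by
  intro d P a hd hP b hb
  obtain ⟨a', hP'⟩ := tr_bo hP hb
  set K : Set (E d) := tr P b with hK
  have hPm : MeasurableSet P := hP.comp.isClosed.measurableSet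
  have hKm : MeasurableSet K := tr_measurable hPm b
  have hfinP : IsFiniteMeasure (volume.restrict P) := ⟨by
    rw [Measure.restrict_apply_univ]
    exact hP.comp.measure_lt_top⟩
  have hfinK : IsFiniteMeasure (volume.restrict K) := ⟨by
    rw [Measure.restrict_apply_univ]
    exact hP'.comp.measure_lt_top⟩
  obtain ⟨C, hC, hCb⟩ := fla_bd hP
  obtain ⟨C', hC', hCb'⟩ := fla_bd hP'
  obtain ⟨R, hR⟩ := hP.comp.isBounded.exists_norm_le
  obtain ⟨R', hR'⟩ := hP'.comp.isBounded.exists_norm_le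
  -- Fubini for `K`
  have s1 : ∫ z in K, ∫ z' in K, |fderiv ℝ (gauge K) z z'| =
      ∫ z' in K, ∫ z in K, |fderiv ℝ (gauge K) z z'| := by
    refine integral_integral_swap ?_
    have hm : Measurable fun p : E d × E d => |fderiv ℝ (gauge K) p.1 p.2| := by
      have := fla_meas K (0 : E d)
      simpa using this
    refine Integrable.of_bound hm.aestronglyMeasurable (C' * R') ?_
    rw [Measure.prod_restrict]
    filter_upwards [ae_restrict_mem (hKm.prod hKm)] with p hp
    show ‖|fderiv ℝ (gauge K) p.1 p.2|‖ ≤ C' * R'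
    rw [Real.norm_eq_abs, abs_abs]
    exact (hCb' _ _).trans (mul_le_mul_of_nonneg_left (hR' _ hp.2) hC')
  -- the base point
  have s2 : ∀ y : E d, ∫ z in K, |fderiv ℝ (gauge K) z y| = ∫ z in P, |fderiv ℝ (gauge P) z y| := by
    intro y
    rw [fla_split hP' y, fla_split hP y, hF d P a hd hP b y hb, hF d P a hd hP b (-y) hb]
  -- Fubini for `P`
  have s3 : ∫ z' in P, ∫ z in P, |fderiv ℝ (gauge P) z (z' - b)| =
      ∫ z in P, ∫ z' in P, |fderiv ℝ (gauge P) z (z' - b)| := by
    refine (integral_integral_swap ?_).symm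
    refine Integrable.of_bound (fla_meas P b).aestronglyMeasurable (C * (R + ‖b‖)) ?_
    rw [Measure.prod_restrict]
    filter_upwards [ae_restrict_mem (hPm.prod hPm)] with p hp
    show ‖|fderiv ℝ (gauge P) p.1 (p.2 - b)|‖ ≤ C * (R + ‖b‖)
    rw [Real.norm_eq_abs, abs_abs]
    refine (hCb _ _).trans (mul_le_mul_of_nonneg_left ?_ hC)
    exact (norm_sub_le _ _).trans (add_le_add_left (hR _ hp.2) _)
  have s4 : ∫ z in K, ∫ z' in K, |fderiv ℝ (gauge K) z z'| =
      ∫ z in P, ∫ z' in P, |fderiv ℝ (gauge P) z (z' - b)| := by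
    rw [s1, ← s3]
    simp only [s2]
    exact int_tr b fun y => ∫ z in P, |fderiv ℝ (gauge P) z y|
  unfold Pool.Agent.Results.MP_eba1ef_gt.AsymmetricThinSlabs.flatness
  rw [s4, hK, vol_tr]
  unfold mP
  rw [integral_smul_measure]
  simp only [integral_smul_measure, smul_eq_mul]
  rw [integral_const_mul, ENNReal.toReal_inv]
  rw [div_eq_inv_mul, sq, mul_inv, mul_assoc]

end Pool.Agent.T2h52.SO
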