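import Pool.Agent.T2h52.SO.H2

/-!
Task FLT: the integral of the negative part of the derivative of the gauge does not depend on the
base point.
-/

set_option autoImplicit false

namespace Pool.Agent.T2h52.SO

open MeasureTheory Set Filter Topology
open scoped ENNReal InnerProductSpace Pointwise
open Pool.Agent.N555.RZ (mP Spr)
open Pool.Agent.T2h52.SP
open Pool.Agent.T2h52.SQ

theorem flt_num {D I I' g g' V : ℝ} (hD : 0 < D) (hg : 0 ≤ g) (hg' : 0 ≤ g') (hV : 0 ≤ V)
    (h : ∀ t : ℝ, 0 < t → D * t * g ≤ 1 → D * t * g' ≤ 1 →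
      D * t * I - (D * t * g) ^ 2 * V ≤ D * t * I' + (D * t * g') ^ 2 * V) : I ≤ I' := by
  by_contra hcon
  push Not at hcon
  set η := I - I' with hη
  have hη0 : 0 < η := by linarith
  set K := (g ^ 2 + g' ^ 2) * V with hK
  have hK0 : 0 ≤ K := by positivity
  -- a small `s = D t`
  set s := min (1 / (g + g' + 1)) (η / (2 * (K + 1))) with hs
  have hs0 : 0 < s := by
    rw [hs]
    exact lt_min (by positivity) (by positivity)
  have hs1 : s ≤ 1 / (g + g' + 1) := min_le_left _ _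
  have hs2 : s ≤ η / (2 * (K + 1)) := min_le_right _ _
  rw [le_div_iff₀ (by positivity)] at hs1 hs2
  have h1 := h (s / D) (by positivity) (by rw [mul_div_cancel₀ _ hD.ne']; nlinarith)
    (by rw [mul_div_cancel₀ _ hD.ne']; nlinarith)
  rw [mul_div_cancel₀ _ hD.ne'] at h1
  have h2 : s * η ≤ s * (s * K) := by
    rw [hη, hK]
    nlinarith
  have h3 : η ≤ s * K := le_of_mul_le_mul_left h2 hs0
  nlinarith

theorem flt (hL : V_LOW) (hU : V_UPP) : V_FLT := by
  intro d P a hd hP b y hb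
  obtain ⟨a', hP'⟩ := tr_bo hP hb
  have hd0 : (0 : ℝ) < d := by exact_mod_cast hd
  have hvol : ∀ t : ℝ, volume {x | x ∈ tr P b ∧ x - t • y ∉ tr P b} =
      volume {x | x ∈ P ∧ x - t • y ∉ P} := by
    intro t
    have e : {x | x ∈ tr P b ∧ x - t • y ∉ tr P b} = tr {x | x ∈ P ∧ x - t • y ∉ P} b := by
      ext x
      rw [mem_tr]
      show (x ∈ tr P b ∧ x - t • y ∉ tr P b) ↔ (x + b ∈ P ∧ x + b - t • y ∉ P)
      rw [mem_tr, mem_tr, sub_add_eq_add_sub]
    rw [e, vol_tr]
  have hg0 : 0 ≤ gauge P (-y) := gauge_nonneg _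
  have hg0' : 0 ≤ gauge (tr P b) (-y) := gauge_nonneg _
  have hV : 0 ≤ (volume P).toReal := ENNReal.toReal_nonneg
  apply le_antisymm
  · refine flt_num hd0 hg0' hg0 hV fun t ht h1 h2 => ?_
    have h3 := hL d (tr P b) a' hd hP' y t ht h1
    have h4 := hU d P a hd hP y t ht h2
    rw [hvol t, vol_tr] at h3
    exact h3.trans h4
  · refine flt_num hd0 hg0 hg0' hV fun t ht h1 h2 => ?_
    have h3 := hL d P a hd hP y t ht h1
    have h4 := hU d (tr P b) a' hd hP' y t ht h2
    rw [hvol t, vol_tr] at h4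
    exact h3.trans h4

end Pool.Agent.T2h52.SO
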