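import Pool.Agent.T2h52.SO.Stm
import Pool.Agent.T2h52.SQ.Fin
import Pool.Agent.T2h52.SP.LAM

/-!
# The spread inequality without symmetry: the final assembly
-/

set_option autoImplicit false

namespace Pool.Agent.T2h52.SO

open MeasureTheory Set Filter Topology
open scoped ENNReal InnerProductSpace Pointwise
open Pool.Agent.N555.RZ (mP Spr)
open Pool.Agent.TH591.Lie (polarAt)
open Pool.Agent.T2h52.SP Pool.Agent.T2h52.SQ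

/-- existence of the barycentre -/
theorem exists_bc {d : ℕ} {P : Set (E d)} {a : ℝ} (hP : Bo P a) : ∃ b : E d, Bc P b := by
  have h0 : volume P ≠ 0 :=
    (Measure.measure_pos_of_mem_nhds volume (mem_interior_iff_mem_nhds.mp hP.int)).ne'
  exact ⟨∫ x, x ∂(mP P), fun w => (SP.LAMaux.bary P hP.comp h0 w).symm⟩

/-- the general covering statement -/
theorem cov_gen (h0 : V_IMG) (h1 : V_ISO) (h2 : V_CRT) {d : ℕ} {P Q : Set (E d)} {C : ℝ}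
    {b : E d} (hP : Bo P C) (hb : Bc P b) (hQ : Bd Q) (hs : ∀ u, gauge Q u ≤ gauge P u ∧ gauge P u ≤ C * gauge Q u) (l q B : ℝ)
    (hd : 2 ≤ d) (hq : 2 ≤ q) (hB : 1 ≤ B) (hl : 1 ≤ l)
    (hgm : ∀ A : E d ≃ₗ[ℝ] E d, Ic (A '' P) (A b) → Bo (A '' P) C → Bc (A '' P) (A b) →
      (∀ u, gauge (A '' Q) u ≤ gauge (A '' P) u) → gm (gauge (A '' Q)) ≤ l)
    (hn : 10 ^ 280 * (C * l) ^ 4 ≤ (d : ℝ))
    (hco : ∀ (m : ℕ) (x : Fin m → E d), (∑ i, gauge Q (x i) ^ q) ^ (1 / q) ≤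
      B * Real.sqrt (sm (gauge Q) x))
    (hnum : (10 ^ 12 * B * (2 * C) ^ 2 * Real.log (d + 1) ^ 3) ^ (11 * q) *
      (10 ^ 47 * C * (C * l) ^ ((1 : ℝ) / 2)) ≤ (d : ℝ) ^ ((1 : ℝ) / 8)) :
    ∃ T : Finset (E d), P ⊆ ⋃ t ∈ T, (fun x => t + x) '' interior P ∧ T.card < 2 ^ d := by
  obtain ⟨A, hA⟩ := h1 d P C b hP hb
  obtain ⟨b1, b1', b2, b3⟩ := h0 d P Q A C b hP hb hQ hs
  exact h2 d P Q A C l q B b hd hP hb hQ hs hA (hgm A hA b1 b1' fun u => (b3 u).1) hl hn hq hB hco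
    hnum

/-- the numbers, for norms with Gaussian mean at most `2 * 10^5 q M` and cotype constant `2 M` -/
theorem cov_num (h0 : V_IMG) (h1 : V_ISO) (h2 : V_CRT) (h3 : V_NUM) {d : ℕ} {P Q : Set (E d)}
    {C : ℝ} {b : E d} (hP : Bo P C) (hb : Bc P b) (hQ : Bd Q) (hs : ∀ u, gauge Q u ≤ gauge P u ∧ gauge P u ≤ C * gauge Q u)
    (q M : ℝ) (hd : 2 ≤ d) (hq : 2 ≤ q) (hM : 1 ≤ M)
    (hgm : ∀ A : E d ≃ₗ[ℝ] E d, Ic (A '' P) (A b) → Bo (A '' P) C → Bc (A '' P) (A b) →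
      (∀ u, gauge (A '' Q) u ≤ gauge (A '' P) u) → gm (gauge (A '' Q)) ≤ 4 * 10 ^ 5 * q * M)
    (hco : ∀ (m : ℕ) (x : Fin m → E d), (∑ i, gauge Q (x i) ^ q) ^ (1 / q) ≤
      2 * M * Real.sqrt (sm (gauge Q) x))
    (hnum : (4 * 10 ^ 13 * M * C ^ 2 * Real.log (d + 1) ^ 3) ^ (120 * q) ≤ (d : ℝ)) :
    ∃ T : Finset (E d), P ⊆ ⋃ t ∈ T, (fun x => t + x) '' interior P ∧ T.card < 2 ^ d := by
  obtain ⟨n1, n2⟩ := h3 d q M C hd hq hM hP.one hnum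
  exact cov_gen h0 h1 h2 hP hb hQ hs (4 * 10 ^ 5 * q * M) q (2 * M) hd hq (by linarith) (by nlinarith)
    hgm n1 hco n2

section

variable {d : ℕ} {K : Set (E d)} {o : E d} {C : ℝ} {n : E d → ℝ}

/-- near zonoids -/
theorem zon (h0 : V_IMG) (h1 : V_ISO) (h2 : V_CRT) (h3 : V_NUM) (h7 : V_ZGM) (h8 : T_ZCO) (h9 : T_ZIM)
    (h10 : V_POL) (hd : 2 ≤ d) (hC : 1 ≤ C)
    (hKc : IsCompact K) (hK : Convex ℝ K) (ho : o ∈ interior K)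
    (hn : ZN n) (hn1 : ∀ u : E d, ∃ y ∈ K, n u ≤ ⟪u, y - o⟫_ℝ)
    (hn2 : ∀ u : E d, ∀ y ∈ K, ⟪u, y - o⟫_ℝ ≤ C * n u)
    (hnum : (4 * 10 ^ 13 * 1 * C ^ 2 * Real.log (d + 1) ^ 3) ^ (120 * (2 : ℝ)) ≤ d) :
    ∃ T : Finset (E d), polarAt K o ⊆ ⋃ t ∈ T, (fun x => t + x) '' interior (polarAt K o) ∧
      T.card < 2 ^ d := by
  obtain ⟨hP, hQ, hgQ, hg⟩ := h10 d C K o n hKc hK ho hC (zn_add hn) (zn_smul hn) hn1 hn2
  set Q : Set (E d) := {u : E d | n u ≤ 1} with hQd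
  have hz : ZC 1 (gauge Q) := ⟨n, hn, fun u => by rw [hgQ u, one_mul]; exact ⟨le_rfl, le_rfl⟩⟩
  have hs : ∀ u, gauge Q u ≤ gauge (polarAt K o) u ∧ gauge (polarAt K o) u ≤ C * gauge Q u :=
    fun u => by rw [hgQ u]; exact hg u
  obtain ⟨b, hb⟩ := exists_bc hP
  refine cov_num h0 h1 h2 h3 hP hb hQ hs 2 1 hd le_rfl le_rfl (fun A hA hB hB2 hi => ?_) ?_ hnum
  · obtain ⟨a1, a2⟩ := h9 d 1 Q A hQ hz
    have := h7 d (A '' polarAt K o) (A '' Q) C (A b) hB hB2 hA a1 hi a2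
    linarith
  · intro m x
    have h := h8 d 1 _ le_rfl hz m x
    have e1 : (∑ i, gauge Q (x i) ^ (2 : ℝ)) ^ (1 / (2 : ℝ)) =
        Real.sqrt (∑ i, gauge Q (x i) ^ 2) := by
      rw [Real.sqrt_eq_rpow]
      congr 1
      refine Finset.sum_congr rfl fun i _ => ?_
      exact_mod_cast Real.rpow_natCast _ 2
    rw [e1]
    have e2 : 2 * 1 * Real.sqrt (sm (gauge Q) x) = Real.sqrt ((2 * 1) ^ 2 * sm (gauge Q) x) := by
      rw [Real.sqrt_mul (by positivity), Real.sqrt_sq (by positivity)]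
    rw [e2]
    exact Real.sqrt_le_sqrt h

/-- near lattices -/
theorem lat (h0 : V_IMG) (h1 : V_ISO) (h2 : V_CRT) (h3 : V_NUM) (h4 : V_LGM) (h5 : T_LCO) (h6 : T_LIA)
    (h10 : V_POL) {q M : ℝ} {N : ℕ} {G : (Fin N → ℝ) → ℝ} {x : Fin N → E d} (hd : 2 ≤ d)
    (hq : 2 ≤ q) (hM : 1 ≤ M) (hC : 1 ≤ C)
    (hKc : IsCompact K) (hK : Convex ℝ K) (ho : o ∈ interior K)
    (hG : LN N q M G) (hn1 : ∀ u : E d, ∃ y ∈ K, G (fun j => ⟪u, x j⟫_ℝ) ≤ ⟪u, y - o⟫_ℝ)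
    (hn2 : ∀ u : E d, ∀ y ∈ K, ⟪u, y - o⟫_ℝ ≤ C * G (fun j => ⟪u, x j⟫_ℝ))
    (hnum : (4 * 10 ^ 13 * M * C ^ 2 * Real.log (d + 1) ^ 3) ^ (120 * q) ≤ d) :
    ∃ T : Finset (E d), polarAt K o ⊆ ⋃ t ∈ T, (fun x => t + x) '' interior (polarAt K o) ∧
      T.card < 2 ^ d := by
  obtain ⟨hP, hQ, hgQ, hg⟩ := h10 d C K o (fun u => G (fun j => ⟪u, x j⟫_ℝ)) hKc hK ho hC
    (fun u v => by
      have e : (fun j => ⟪u + v, x j⟫_ℝ) = (fun j => ⟪u, x j⟫_ℝ) + fun j => ⟪v, x j⟫_ℝ := by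
        funext j
        rw [inner_add_left]
        rfl
      show G (fun j => ⟪u + v, x j⟫_ℝ) ≤ _
      rw [e]
      exact hG.add _ _)
    (fun c u => by
      have e : (fun j => ⟪c • u, x j⟫_ℝ) = c • fun j => ⟪u, x j⟫_ℝ := by
        funext j
        rw [real_inner_smul_left]
        rfl
      show G (fun j => ⟪c • u, x j⟫_ℝ) = _
      rw [e]
      exact hG.smul _ _) hn1 hn2
  set Q : Set (E d) := {u : E d | G (fun j => ⟪u, x j⟫_ℝ) ≤ 1} with hQd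
  have hz : LC q M 1 (gauge Q) := ⟨N, G, x, hG, fun u => by
    rw [hgQ u, one_mul]; exact ⟨le_rfl, le_rfl⟩⟩
  have hs : ∀ u, gauge Q u ≤ gauge (polarAt K o) u ∧ gauge (polarAt K o) u ≤ C * gauge Q u :=
    fun u => by rw [hgQ u]; exact hg u
  obtain ⟨b, hb⟩ := exists_bc hP
  refine cov_num h0 h1 h2 h3 hP hb hQ hs q M hd hq hM (fun A hA hB hB2 hi => ?_) ?_ hnum
  · obtain ⟨a1, a2⟩ := h6 d q M 1 Q A hQ hz
    exact h4 d (A '' polarAt K o) (A '' Q) C q M (A b) hq hM hB hB2 hA a1 hi a2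
  · intro m y
    have h := h5 d q M 1 _ hq hM le_rfl hz m y
    rwa [mul_one] at h

/-- type and cotype -/
theorem typ (h0 : V_IMG) (h1 : V_ISO) (h2 : V_CRT) (h3 : V_TNU) (h4 : V_TGM) (h6 : T_TYI)
    (h10 : V_POL) {p q T B : ℝ} (hd : 2 ≤ d) (hp : 4 / 3 < p) (hp2 : p ≤ 2)
    (hq : 2 ≤ q) (hT : 1 ≤ T) (hB : 1 ≤ B) (hC : 1 ≤ C)
    (hKc : IsCompact K) (hK : Convex ℝ K) (ho : o ∈ interior K)
    (hna : ∀ u v, n (u + v) ≤ n u + n v) (hns : ∀ (c : ℝ) u, n (c • u) = |c| * n u)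
    (hn1 : ∀ u : E d, ∃ y ∈ K, n u ≤ ⟪u, y - o⟫_ℝ)
    (hn2 : ∀ u : E d, ∀ y ∈ K, ⟪u, y - o⟫_ℝ ≤ C * n u)
    (hty : TY p T n)
    (hco : ∀ (m : ℕ) (x : Fin m → E d), (∑ i, n (x i) ^ q) ^ (1 / q) ≤
      B * Real.sqrt (sm n x))
    (hnum : (4 * 10 ^ 13 * T * B * C ^ 2 * Real.log (d + 1) ^ 3) ^ (120 * q) ≤
      (d : ℝ) ^ (3 - 4 / p)) :
    ∃ T : Finset (E d), polarAt K o ⊆ ⋃ t ∈ T, (fun x => t + x) '' interior (polarAt K o) ∧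
      T.card < 2 ^ d := by
  obtain ⟨hP, hQ, hgQ, hg⟩ := h10 d C K o n hKc hK ho hC hna hns hn1 hn2
  set Q : Set (E d) := {u : E d | n u ≤ 1} with hQd
  have hgn : gauge Q = n := funext hgQ
  have hs : ∀ u, gauge Q u ≤ gauge (polarAt K o) u ∧ gauge (polarAt K o) u ≤ C * gauge Q u :=
    fun u => by rw [hgQ u]; exact hg u
  obtain ⟨n0, n1, n2⟩ := h3 d p q T B C hd hp hp2 hq hT hB hC hnum
  obtain ⟨b, hb⟩ := exists_bc hP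
  refine cov_gen h0 h1 h2 hP hb hQ hs _ q B hd hq hB n0 (fun A hA hB hB2 hi => ?_) n1 ?_ n2
  · obtain ⟨a1, a2⟩ := h6 d Q A p T hQ (by rw [hgn]; exact hty)
    exact h4 d (A '' polarAt K o) (A '' Q) C p T (A b) hd hB hB2 hA a1 hi hp.le hp2 hT a2
  · rw [hgn]
    exact hco

end

/-- the spread inequality -/
theorem spr_ineq (h1 : V_SPR) {d : ℕ} {P : Set (E d)} {a l : ℝ} {b : E d} (hP : Bo P a)
    (hb : Bc P b) (hI : Ic P b)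
    (hl : 1 ≤ l) (hg : gm (gauge P) ≤ l) (hd : 10 ^ 280 * l ^ 4 ≤ (d : ℝ)) (w : E d) :
    ∫ z, (fderiv ℝ (gauge P) z w) ^ 2 ∂(mP P) ≤
      10 ^ 47 * a * l ^ ((1 : ℝ) / 2) / (d : ℝ) ^ ((1 : ℝ) / 8) * ‖w‖ ^ 2 := by
  have h := h1 d P a l b hP hb hI hl hg hd w
  have hl0 : 0 < l := by linarith
  have ha0 : 0 < a := by have := hP.one; linarith
  have hd0 : (0 : ℝ) < d := lt_of_lt_of_le (by positivity) hd
  have e1 : 0 < (d : ℝ) ^ ((1 : ℝ) / 8) := Real.rpow_pos_of_pos hd0 _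
  have e2 : 0 < 10 ^ 47 * a * l ^ ((1 : ℝ) / 2) := by
    have := Real.rpow_pos_of_pos hl0 ((1 : ℝ) / 2)
    positivity
  rw [div_mul_eq_mul_div, div_le_iff₀ e2] at h
  rw [div_mul_eq_mul_div, le_div_iff₀ e1]
  linarith

end Pool.Agent.T2h52.SO
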