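import Pool.Agent.T2h52.SO.Stm
import Pool.Agent.N555.RZ.MainA

/-!
Task GEN: sign patterns for a family of functionals (the proof of `N555.RZ.mainA_iso`).
-/

set_option autoImplicit false
set_option maxHeartbeats 4000000

namespace Pool.Agent.T2h52.SO

namespace GenAux

open MeasureTheory Set
open scoped ENNReal RealInnerProductSpace
open Pool.Agent.N555.RZ
open Pool.Agent.TH591.Ns

theorem gen_core {d : ℕ} {K : Set (EuclideanSpace ℝ (Fin d))} (n : ℕ) (D : ℝ) (hn : 1 ≤ n)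
    (hK : Convex ℝ K) (hKc : IsCompact K) (hK0 : K ∈ nhds 0)
    (hiso : ∀ w : EuclideanSpace ℝ (Fin d), ∫ z, ⟪z, w⟫ ^ 2 ∂(mP K) = ‖w‖ ^ 2)
    (A' : EuclideanSpace ℝ (Fin d) → EuclideanSpace ℝ (Fin d)) (a0 : ℝ) (hAm : Measurable A')
    (hN : ∀ y, ‖A' y‖ ≤ 1) (hle : ∀ y, ∀ z ∈ K, |⟪A' y, z⟫| ≤ 1)
    (hcovP : ∀ x, D * cov (mP K) A' x x ≤ ‖x‖ ^ 2) (ha0pos : 0 < a0)
    (hmean : 2 * a0 ≤ ∫ y, ‖A' y‖ ^ 2 ∂(mP K))
    (hDa : 3 * 10 ^ 15 * (n : ℝ) ^ 4 ≤ D * a0 ^ 5) :
    ∃ ζ : Fin n → EuclideanSpace ℝ (Fin d), ∀ δ : Fin n → Bool, ∃ z ∈ K, ∀ i,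
      a0 / 2 ≤ sg (δ i) * ⟪A' (ζ i), z⟫ := by
  classical
  have h0 : volume K ≠ 0 := (Measure.measure_pos_of_mem_nhds volume hK0).ne'
  have hfin : volume K ≠ ⊤ := hKc.measure_lt_top.ne
  have hPr := mP_prob h0 hfin
  set P := mP K with hP
  have hNm : Measurable fun y => ‖A' y‖ ^ 2 := hAm.norm.pow_const 2
  have hi2 : ∀ μ : Measure (EuclideanSpace ℝ (Fin d)), IsFiniteMeasure μ →
      Integrable (fun y => ‖A' y‖ ^ 2) μ := fun μ _ =>
    Integrable.of_bound hNm.aestronglyMeasurable 1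
      (Filter.Eventually.of_forall fun y => by
        rw [norm_pow, norm_norm]; exact pow_le_one₀ (norm_nonneg _) (hN y))
  have hmean1 : ∫ y, ‖A' y‖ ^ 2 ∂P ≤ 1 := by
    have : ∫ y, ‖A' y‖ ^ 2 ∂P ≤ ∫ _y, (1 : ℝ) ∂P :=
      integral_mono (hi2 P inferInstance) (integrable_const _) fun y =>
        pow_le_one₀ (norm_nonneg _) (hN y)
    simpa using this
  have ha01 : a0 ≤ 1 := by linarith
  -- the good set
  set S : Set (EuclideanSpace ℝ (Fin d)) := {y | a0 ≤ ‖A' y‖ ^ 2} with hS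
  have hSm : MeasurableSet S := measurableSet_le measurable_const hNm
  have hPS : a0 ≤ P.real S := by
    have h1 : ∫ y, ‖A' y‖ ^ 2 ∂P ≤ ∫ y, (S.indicator (fun _ => (1 : ℝ)) y + a0) ∂P := by
      refine integral_mono (hi2 P inferInstance) ?_ fun y => ?_
      · exact ((integrable_const (1 : ℝ)).indicator hSm).add (integrable_const _)
      · by_cases hy : y ∈ S
        · show _ ≤ S.indicator (fun _ => (1 : ℝ)) y + a0
          rw [indicator_of_mem hy]
          have : ‖A' y‖ ^ 2 ≤ 1 := pow_le_one₀ (norm_nonneg _) (hN y)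
          linarith
        · show _ ≤ S.indicator (fun _ => (1 : ℝ)) y + a0
          rw [indicator_of_notMem hy, zero_add]
          rw [hS, Set.mem_ofPred_eq, not_le] at hy
          exact hy.le
    rw [integral_add ((integrable_const (1 : ℝ)).indicator hSm) (integrable_const _),
      integral_indicator hSm, setIntegral_const, integral_const] at h1
    simp only [smul_eq_mul, mul_one, probReal_univ, one_mul] at h1
    linarith
  have hPSpos : 0 < P.real S := lt_of_lt_of_le ha0pos hPS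
  have hPS0 : P S ≠ 0 := by
    intro h
    rw [Measure.real, h] at hPSpos
    simp at hPSpos
  have hPSt : P S ≠ ⊤ := measure_ne_top _ _
  set ν : Measure (EuclideanSpace ℝ (Fin d)) := (P S)⁻¹ • P.restrict S with hν
  have hνp : IsProbabilityMeasure ν := by
    constructor
    rw [hν, Measure.smul_apply, Measure.restrict_apply_univ, smul_eq_mul]
    exact ENNReal.inv_mul_cancel hPS0 hPSt
  have hνae : ∀ᵐ y ∂ν, y ∈ S := Measure.ae_smul_measure (ae_restrict_mem hSm) _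
  -- covariance
  have hDpos : 0 < D := by
    have h1 : (0 : ℝ) < 3 * 10 ^ 15 * (n : ℝ) ^ 4 := by positivity
    have h2 := lt_of_lt_of_le h1 hDa
    exact pos_of_mul_pos_left h2 (by positivity)
  set lam : ℝ := 1 / (a0 * D) with hlam
  have hlam0 : 0 < lam := by positivity
  have hcovν : ∀ x, cov ν A' x x ≤ lam * ‖x‖ ^ 2 := by
    intro x
    have h1 : cov ν A' x x = (P S).toReal⁻¹ * ∫ t in S, ⟪A' t, x⟫ * ⟪A' t, x⟫ ∂P := by
      unfold cov
      rw [hν, integral_smul_measure, ENNReal.toReal_inv, smul_eq_mul]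
    have h2 : ∫ t in S, ⟪A' t, x⟫ * ⟪A' t, x⟫ ∂P ≤ cov P A' x x := by
      unfold cov
      exact setIntegral_le_integral (cov_int hAm hN x x)
        (Filter.Eventually.of_forall fun t => mul_self_nonneg _)
    have h3 : cov P A' x x ≤ ‖x‖ ^ 2 / D := by
      rw [le_div_iff₀ hDpos]
      linarith [hcovP x]
    have h4 : (P S).toReal⁻¹ ≤ a0⁻¹ := by
      apply inv_anti₀ ha0pos
      exact hPS
    have h5 : 0 ≤ ∫ t in S, ⟪A' t, x⟫ * ⟪A' t, x⟫ ∂P := integral_nonneg fun t => mul_self_nonneg _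
    rw [h1]
    calc (P S).toReal⁻¹ * ∫ t in S, ⟪A' t, x⟫ * ⟪A' t, x⟫ ∂P
        ≤ a0⁻¹ * (‖x‖ ^ 2 / D) := by
          refine mul_le_mul h4 (h2.trans h3) h5 (by positivity)
      _ = lam * ‖x‖ ^ 2 := by
          rw [hlam]
          field_simp
  have hHS : ∑ i, ‖cvec ν A' i‖ ^ 2 ≤ (Real.sqrt lam) ^ 2 := by
    rw [Real.sq_sqrt hlam0.le]
    refine (hs_bound hAm hN lam hlam0.le hcovν).trans ?_
    have : ∫ t, ‖A' t‖ ^ 2 ∂ν ≤ 1 := by
      have h1 : ∫ y, ‖A' y‖ ^ 2 ∂ν ≤ ∫ _y, (1 : ℝ) ∂ν :=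
        integral_mono (hi2 ν inferInstance) (integrable_const _) fun y =>
          pow_le_one₀ (norm_nonneg _) (hN y)
      simpa using h1
    nlinarith
  -- the functions
  set f : EuclideanSpace ℝ (Fin d) → EuclideanSpace ℝ (Fin d) → ℝ :=
    fun y => K.indicator fun z => ⟪A' y, z⟫ with hf
  have hfm : Measurable (Function.uncurry f) := by
    have h1 : Function.uncurry f = (Set.univ ×ˢ K : Set (EuclideanSpace ℝ (Fin d) ×
        EuclideanSpace ℝ (Fin d))).indicator fun q => ⟪A' q.1, q.2⟫ := by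
      ext q
      simp only [Function.uncurry, hf, Set.indicator, Set.mem_prod, Set.mem_univ, true_and]
    rw [h1]
    exact ((hAm.comp measurable_fst).inner measurable_snd).indicator
      (MeasurableSet.univ.prod hKc.isClosed.measurableSet)
  have hf1 : ∀ y z, |f y z| ≤ 1 := by
    intro y z
    by_cases hz : z ∈ K
    · rw [hf]
      simp only [indicator_of_mem hz]
      exact hle y z hz
    · rw [hf]
      simp only [indicator_of_notMem hz, abs_zero]
      exact zero_le_one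
  have hfK : ∀ y z, z ∈ K → f y z = ⟪A' y, z⟫ := fun y z hz => by
    rw [hf]; simp only [indicator_of_mem hz]
  have hKae : ∀ᵐ z ∂P, z ∈ K := mP_ae hKc.isClosed.measurableSet
  have hsq : ∀ y ∈ S, a0 ≤ ∫ z, f y z ^ 2 ∂P := by
    intro y hy
    have h1 : ∫ z, f y z ^ 2 ∂P = ‖A' y‖ ^ 2 := by
      rw [← hiso (A' y)]
      refine integral_congr_ae ?_
      filter_upwards [hKae] with z hz
      rw [hfK y z hz, real_inner_comm]
    rw [h1]
    exact hy
  -- moments of the kernel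
  set m : ℕ := 2 * n with hm
  set B : ℝ := 6400 * Real.sqrt lam with hB
  have hB0 : 0 ≤ B := by positivity
  have hker : ∀ p : EuclideanSpace ℝ (Fin d) × EuclideanSpace ℝ (Fin d),
      |ker ν f p| ≤ |∑ i, ⟪cvec ν A' i, p.1⟫ * p.2 i| := by
    intro p
    by_cases hp : p.1 ∈ K ∧ p.2 ∈ K
    · have : ker ν f p = ∑ i, ⟪cvec ν A' i, p.1⟫ * p.2 i := by
        rw [← cov_eq hAm hN]
        unfold ker cov
        simp only [hfK _ _ hp.1, hfK _ _ hp.2]
      rw [this]
    · have : ker ν f p = 0 := by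
        unfold ker
        have h1 : ∀ y, f y p.1 * f y p.2 = 0 := by
          intro y
          rw [not_and_or] at hp
          rcases hp with h | h
          · have : f y p.1 = 0 := by rw [hf]; simp only [indicator_of_notMem h]
            rw [this, zero_mul]
          · have : f y p.2 = 0 := by rw [hf]; simp only [indicator_of_notMem h]
            rw [this, mul_zero]
        simp [h1]
      rw [this, abs_zero]
      exact abs_nonneg _
  have hmom : ∀ s : ℕ, 1 ≤ s → ∫⁻ w, ENNReal.ofReal (|ker ν f w| ^ (2 * s)) ∂(P.prod P)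
      ≤ ENNReal.ofReal ((B * s ^ 2) ^ (2 * s)) := by
    intro s hs
    have h1 := bil_moment P (fun w p hp => mom_inner hK hKc hK0 hiso w p hp) (cvec ν A')
      (Real.sqrt lam) (Real.sqrt_nonneg _) hHS s hs
    refine (lintegral_mono fun w => ?_).trans (h1.trans (le_of_eq ?_))
    · exact ENNReal.ofReal_le_ofReal (pow_le_pow_left₀ (abs_nonneg _) (hker w) _)
    · congr 2
      rw [hB]
      ring
  set x : ℝ := Real.exp 1 * B * m with hx
  have hx0 : 0 ≤ x := by positivity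
  -- numerics
  have hn' : (1 : ℝ) ≤ n := by exact_mod_cast hn
  have hnum : 2 * ((m + 1) * (4 * x)) < (a0 / 8) ^ 2 := by
    have hexp : Real.exp 1 < 2.7182818286 := Real.exp_one_lt_d9
    have h2 : Real.sqrt lam * (5.4 * 10 ^ 7 * (n : ℝ) ^ 2) < a0 ^ 2 := by
      have h3 : (Real.sqrt lam * (5.4 * 10 ^ 7 * (n : ℝ) ^ 2)) ^ 2 < (a0 ^ 2) ^ 2 := by
        rw [mul_pow, Real.sq_sqrt hlam0.le, hlam]
        rw [one_div, inv_mul_lt_iff₀ (by positivity)]
        have h4 : a0 * D * (a0 ^ 2) ^ 2 = D * a0 ^ 5 := by ring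
        rw [h4]
        refine lt_of_lt_of_le ?_ hDa
        have h5 : 0 < (n : ℝ) ^ 4 := by positivity
        nlinarith
      exact lt_of_pow_lt_pow_left₀ 2 (by positivity) h3
    have hm' : (m : ℝ) = 2 * n := by rw [hm]; push_cast; ring
    have h6 : 2 * (((m : ℝ) + 1) * (4 * x)) * 64
        ≤ Real.sqrt lam * (5.4 * 10 ^ 7 * (n : ℝ) ^ 2) := by
      rw [hx, hB, hm']
      have h7 : (2 * (n : ℝ) + 1) * (2 * n) ≤ 6 * (n : ℝ) ^ 2 := by nlinarith
      have h8 : 0 ≤ Real.sqrt lam := Real.sqrt_nonneg _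
      calc 2 * ((2 * (n : ℝ) + 1) * (4 * (Real.exp 1 * (6400 * Real.sqrt lam) * (2 * n)))) * 64
          = (512 * 6400 * Real.exp 1) * Real.sqrt lam * ((2 * (n : ℝ) + 1) * (2 * n)) := by ring
        _ ≤ (512 * 6400 * 2.7182818286) * Real.sqrt lam * (6 * (n : ℝ) ^ 2) := by gcongr
        _ ≤ Real.sqrt lam * (5.4 * 10 ^ 7 * (n : ℝ) ^ 2) := by
            have : 0 ≤ Real.sqrt lam * (n : ℝ) ^ 2 := by positivity
            nlinarith
    have h9 : (a0 / 8) ^ 2 = a0 ^ 2 / 64 := by ring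
    rw [h9, lt_div_iff₀ (by norm_num)]
    exact lt_of_le_of_lt h6 h2
  have hxm : x * m ≤ 1 / 2 := by
    have h1 : (a0 / 8) ^ 2 ≤ 1 := by
      have : a0 / 8 ≤ 1 := by linarith
      have h2 : 0 ≤ a0 / 8 := by positivity
      nlinarith
    have hmn : (0 : ℝ) ≤ m := Nat.cast_nonneg m
    nlinarith
  have hη := eta_bound (P.prod P) (ker ν f) (meas_ker hfm) (ker_abs_le hf1) B hB0 hmom m x hx hxm
  obtain ⟨ζ, hζS, hζ⟩ := riesz (m := m) hfm hf1 S hνae a0 ha0pos ha01 hsq (4 * x) hη hnum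
  obtain ⟨e, he⟩ := shatter n _ hζ
  refine ⟨fun i => ζ (e i), fun δ => ?_⟩
  obtain ⟨γ, hγ, hγδ⟩ := he δ
  rw [Finset.mem_filter] at hγ
  obtain ⟨r, hr0, hri, hr1, hr⟩ := hγ.2
  obtain ⟨z, hz, hzr⟩ := bary hK hKc r hr0 hri hr1
  refine ⟨z, hz, fun i => ?_⟩
  have h1 := hr (e i)
  have h2 : ∫ z, r z * f (ζ (e i)) z ∂P = ⟪A' (ζ (e i)), z⟫ := by
    rw [hzr]
    refine integral_congr_ae ?_
    filter_upwards [hKae] with z hz
    rw [hfK _ _ hz]
  rw [h2, hγδ i] at h1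
  exact h1

end GenAux

open MeasureTheory Set Filter Topology
open scoped ENNReal InnerProductSpace Pointwise
open Pool.Agent.N555.RZ (mP)
open Pool.Agent.T2h52.SP

theorem gen : V_GEN := by
  intro d n K A' a0 D hn hK hKc hK0 hI hA hN hle hcov ha0 hmean hD
  refine GenAux.gen_core n D hn hK hKc hK0 hI A' a0 hA hN hle (fun x => ?_) ha0 hmean hD
  have h1 := hcov x
  have h2 : Pool.Agent.N555.RZ.cov (mP K) A' x x = ∫ y, ⟪A' y, x⟫_ℝ ^ 2 ∂(mP K) := by
    unfold Pool.Agent.N555.RZ.cov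
    congr 1
    ext y
    rw [sq]
  rw [h2]
  exact h1

end Pool.Agent.T2h52.SO
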