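import Pool.Agent.T2h52.SO.H2

/-!
Task HAF: parts of a body.
-/

set_option autoImplicit false

namespace Pool.Agent.T2h52.SO

open MeasureTheory Set Filter Topology
open scoped ENNReal InnerProductSpace Pointwise
open Pool.Agent.N555.RZ (mP Spr)
open Pool.Agent.T2h52.SP
open Pool.Agent.T2h52.SQ

theorem haf (hU : U_HAF) (hT : V_TRB) : V_HAF := by
  intro d P a b hP hb hI e he
  obtain ⟨⟨a', hBn⟩, hIso⟩ := hT d P a b hP hb
  have h := hU d (tr P b) a' hBn (hIso hI) e he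
  rw [vol_tr] at h
  refine h.trans (le_of_eq ?_)
  have e1 : hc (tr P b) (2 / 10 ^ 6) e = tr (hs P b (2 / 10 ^ 6) e) b := by
    ext x
    rw [mem_tr]
    constructor
    · rintro ⟨h1, h2⟩
      refine ⟨mem_tr.1 h1, ?_⟩
      rwa [add_sub_cancel_right]
    · rintro ⟨h1, h2⟩
      refine ⟨mem_tr.2 h1, ?_⟩
      rwa [add_sub_cancel_right] at h2
  rw [e1, vol_tr]

end Pool.Agent.T2h52.SO
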