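import Pool.Agent.T2h52.SO.Stm

/-!
# ISO: the isotropic position about the barycentre
-/

set_option autoImplicit false

namespace Pool.Agent.T2h52.SO

open MeasureTheory Set Filter Topology
open scoped ENNReal InnerProductSpace Pointwise
open Pool.Agent.N555.RZ (mP Spr)
open Pool.Agent.T2h52.SP Pool.Agent.T2h52.SQ

/-- ISO -/
theorem iso (h1 : V_TRB) (h2 : V_MTR) : V_ISO := by
  intro d P a b hP hbc
  obtain ⟨⟨a', hB⟩, -⟩ := h1 d P a b hP hbc
  obtain ⟨A, hA⟩ := Pool.Agent.N555.RZ.exists_iso hB.comp (mem_interior_iff_mem_nhds.mp hB.int)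
  refine ⟨A, fun w => ?_⟩
  have hAc : Continuous A := A.toContinuousLinearEquiv.continuous
  have e1 : A '' (tr P b) = tr (A '' P) (A b) := by
    unfold tr
    rw [image_image, image_image]
    refine image_congr' fun x => ?_
    rw [map_sub]
  have hm : MeasurableSet (A '' P) := (hP.comp.image hAc).measurableSet
  have h3 := hA w
  rw [e1, h2 d (A '' P) (A b) hm, integral_map (by fun_prop) (by
    have : Continuous fun x : E d => ⟪x, w⟫_ℝ ^ 2 := by fun_prop
    exact this.aestronglyMeasurable)] at h3
  exact h3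

end Pool.Agent.T2h52.SO
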