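import Pool.Agent.T2h52.SO.Stm
import Pool.Agent.T2h52.SQ.LAM

/-!
# The spread inequality without symmetry: the bound for the top eigenvalue
-/

set_option autoImplicit false

namespace Pool.Agent.T2h52.SO

open MeasureTheory Set Filter Topology
open scoped ENNReal InnerProductSpace Pointwise
open Pool.Agent.H888R2.KT (gs gc)
open Pool.Agent.R755.KF (zn aff sd PB PL3 PLH)
open Pool.Agent.N555.RZ (mP Spr)
open Pool.Agent.T2h52.SP Pool.Agent.T2h52.SQ
open Pool.Agent.TH591.Ns (isG_gauge ball_eq)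

theorem hs_comp {d : ℕ} {P : Set (E d)} {b e : E d} {c : ℝ} (hP : IsCompact P) :
    IsCompact (hs P b c e) := by
  have h1 : IsClosed {x : E d | c ≤ ⟪x - b, e⟫_ℝ} :=
    isClosed_le continuous_const (by fun_prop)
  exact hP.inter_right h1


open SQ.LAMaux in
theorem lam (a1 : V_HAF) (a2 : U_LAW) (a3 : V_EXM) (a4 : U_PLB) (a5 : T_MON) (a6 : U_BIG)
    (a7 : U_OVL) (a8 : T_SUD) (a9 : V_BM) (a10 : V_WEA) (a11 : V_SM) (a12 : V_EIG)
    (a13 : T_ENT) (a14 : V_GSY) (a15 : V_REV) : V_LAM := by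
  intro d P a l h ε b hd hP hbc hI hl hgm hh hH hε hε4 hL w
  obtain ⟨e, lm, he, hlm0, hup, hlo⟩ := a12 d P a (by omega) hP
  have ha1 := hP.one
  have hd0 : (0 : ℝ) < d := by
    have : (7 : ℝ) ≤ d := by exact_mod_cast hd
    linarith
  have hK0 : P ∈ 𝓝 (0 : E d) := mem_interior_iff_mem_nhds.mp hP.int
  have hG := isG_gauge hP.conv hK0
  have hball := ball_eq hP.conv hP.comp hK0
  have hgP : ∀ x ∈ P, gauge P x ≤ 1 := fun x hx => by
    rw [← hball] at hx
    exact hx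
  obtain ⟨hQ, hgmQ, hQ1, hQ2, hQa⟩ := a14 d P a hP
  set A : Set (E d) := hs P b (2 / 10 ^ 6) e with hA
  set A' : Set (E d) := hs P b (2 / 10 ^ 6) (-e) with hA'
  have hAs : A ⊆ P := fun _ hx => hx.1
  have hAs' : A' ⊆ P := fun _ hx => hx.1
  have hAk : IsCompact A := hs_comp hP.comp
  have hAk' : IsCompact A' := hs_comp hP.comp
  have hvP0 : volume P ≠ 0 := (Measure.measure_pos_of_mem_nhds volume hK0).ne'
  have hvPt : volume P ≠ ⊤ := hP.comp.measure_lt_top.ne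
  have hvAt : volume A ≠ ⊤ := hAk.measure_lt_top.ne
  have hvAt' : volume A' ≠ ⊤ := hAk'.measure_lt_top.ne
  have hhalf := a1 d P a b hP hbc hI e he
  have hhalf' := a1 d P a b hP hbc hI (-e) (by rw [norm_neg]; exact he)
  rw [← hA] at hhalf
  rw [← hA'] at hhalf'
  have hvA : 0 < volume A := lt_of_lt_of_le
    (ENNReal.mul_pos (by simp) hvP0) hhalf
  have hvA' : 0 < volume A' := lt_of_lt_of_le
    (ENNReal.mul_pos (by simp) hvP0) hhalf'
  -- real volumes
  set vP : ℝ := (volume P).toReal with hvP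
  set vA : ℝ := (volume A).toReal with hvAd
  set vA' : ℝ := (volume A').toReal with hvAd'
  have vP0 : 0 < vP := ENNReal.toReal_pos hvP0 hvPt
  have vA0 : 0 < vA := ENNReal.toReal_pos hvA.ne' hvAt
  have vA0' : 0 < vA' := ENNReal.toReal_pos hvA'.ne' hvAt'
  have vAP : vA ≤ vP := ENNReal.toReal_mono hvPt (measure_mono hAs)
  have vAP' : vA' ≤ vP := ENNReal.toReal_mono hvPt (measure_mono hAs')
  have vhalf : 1 / 10 ^ 12 * vP ≤ vA := by
    have := ENNReal.toReal_mono hvAt hhalf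
    rwa [ENNReal.toReal_mul, ENNReal.toReal_ofReal (by norm_num)] at this
  have vhalf' : 1 / 10 ^ 12 * vP ≤ vA' := by
    have := ENNReal.toReal_mono hvAt' hhalf'
    rwa [ENNReal.toReal_mul, ENNReal.toReal_ofReal (by norm_num)] at this
  -- the laws
  set β : E d := ∫ x, x ∂(mP A) with hβ
  set β' : E d := ∫ x, x ∂(mP A') with hβ'
  have hbar : ∀ w : E d, ⟪β, w⟫_ℝ = ∫ x, ⟪x, w⟫_ℝ ∂(mP A) := SP.LAMaux.bary A hAk hvA.ne'
  have hbar' : ∀ w : E d, ⟪β', w⟫_ℝ = ∫ x, ⟪x, w⟫_ℝ ∂(mP A') :=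
    SP.LAMaux.bary A' hAk' hvA'.ne'
  obtain ⟨⟨B1, hB10, hBa1⟩, hmean⟩ := a2 d A hAk hvA β
  obtain ⟨⟨B2, hB20, hBb2⟩, hmean'⟩ := a2 d A' hAk' hvA' β'
  set B : ℝ := max B1 B2 with hBdef
  have hB0 : 0 ≤ B := le_max_of_le_left hB10
  have hBa : PB B (la A β) := ⟨hBa1.prob, by
    filter_upwards [hBa1.bdd] with x hx using hx.trans (le_max_left _ _)⟩
  have hBb : PB B (la A' β') := ⟨hBb2.prob, by
    filter_upwards [hBb2.bdd] with x hx using hx.trans (le_max_right _ _)⟩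
  have hmean1 := hmean hbar
  have hmean2 := hmean' hbar'
  set H : ℝ := 10 ^ 31 * Real.sqrt d with hH'
  have hHpos : 0 < H := by positivity
  have hbig : 1 / 4 ≤ aff H (la A β) (la A' β') := by
    refine a6 d H (10 ^ 26) B (la A β) (la A' β') (by omega) (by norm_num) ?_ hB0 hBa hBb
      hmean1 hmean2 ?_ ?_
    · rw [hH']
      have : (10 : ℝ) ^ 5 * 10 ^ 26 = 10 ^ 31 := by norm_num
      rw [this]
    · exact a3 d P A a b hP hbc hI hAs hAk.measurableSet hhalf β hbar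
    · exact a3 d P A' a b hP hbc hI hAs' hAk'.measurableSet hhalf' β' hbar'
  set η : ℝ := vP / Real.sqrt (vA * vA') - 1 with hη
  have hsq0 : 0 < Real.sqrt (vA * vA') := Real.sqrt_pos.mpr (mul_pos vA0 vA0')
  have hsq1 : Real.sqrt (vA * vA') ≤ vP := by
    rw [Real.sqrt_le_iff]
    refine ⟨vP0.le, ?_⟩
    rw [sq]
    exact mul_le_mul vAP vAP' vA0'.le vP0.le
  have hsq2 : 1 / 10 ^ 12 * vP ≤ Real.sqrt (vA * vA') := by
    refine Real.le_sqrt_of_sq_le ?_
    rw [sq]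
    exact mul_le_mul vhalf vhalf' (by positivity) vA0.le
  have hη0 : 0 ≤ η := by
    rw [hη, sub_nonneg, one_le_div hsq0]
    exact hsq1
  have hPLH : ∀ h : ℝ, 0 < h → PLH h η (la A β) (la A' β') := fun h hh =>
    a4 d P A A' hP.conv hP.comp hAs hAs' hAk hAk' hvA hvA' β β' h hh
  have hmon := a5 d B η (la A β) (la A' β') hB0 hη0 hBa hBb hPLH h H hh hH
  obtain ⟨haff0, haff1, -⟩ := a13 d h B η (la A β) (la A' β') hh hB0 hη0 hBa hBb (hPLH h hh)
  have hlogη : Real.log (1 + η) ≤ Real.log (10 ^ 12) := by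
    refine Real.log_le_log (by linarith) ?_
    have : 1 + η = vP / Real.sqrt (vA * vA') := by rw [hη]; ring
    rw [this, div_le_iff₀ hsq0]
    have h1 : (10 : ℝ) ^ 12 * (1 / 10 ^ 12 * vP) = vP := by ring
    calc vP = 10 ^ 12 * (1 / 10 ^ 12 * vP) := h1.symm
      _ ≤ _ := by gcongr
  have hlogη0 : 0 ≤ Real.log (1 + η) := Real.log_nonneg (by linarith)
  have hlogH : -Real.log (aff H (la A β) (la A' β')) ≤ Real.log 4 := by
    have h1 : Real.log (1 / 4) ≤ Real.log (aff H (la A β) (la A' β')) :=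
      Real.log_le_log (by norm_num) hbig
    rw [Real.log_div one_ne_zero (by norm_num), Real.log_one] at h1
    linarith
  obtain ⟨L, hLd⟩ : ∃ L : ℝ, L = 30 * 10 ^ 31 * Real.sqrt d / h := ⟨_, rfl⟩
  rw [← hLd] at hL
  rw [← hLd]
  have hL0 : 0 ≤ L := by rw [hLd]; positivity
  have hhL : h * L = 30 * H := by
    rw [hLd, hH']
    field_simp
  have hlogh : -Real.log (aff h (la A β) (la A' β')) ≤ L := by
    have h1 : h * (Real.log (1 + η) - Real.log (aff h (la A β) (la A' β'))) ≤ H * 30 := by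
      refine hmon.trans ?_
      have := log1012
      have h2 : Real.log (1 + η) - Real.log (aff H (la A β) (la A' β')) ≤ 30 := by linarith
      exact mul_le_mul_of_nonneg_left h2 hHpos.le
    have h2 : h * (Real.log (1 + η) - Real.log (aff h (la A β) (la A' β'))) ≤ h * L := by
      rw [hhL]; linarith
    have h3 := le_of_mul_le_mul_left h2 hh
    linarith
  have hexpL : Real.exp (-L) ≤ aff h (la A β) (la A' β') := by
    rw [← Real.exp_log haff0]
    exact Real.exp_le_exp.mpr (by linarith)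
  -- the covering
  have hρ : 0 < 2 * Real.sqrt (h * d) := by positivity
  obtain ⟨S, hScard, hScov⟩ := a8 d (sc P) (by omega) hQ (2 * l) (by positivity)
    (hgmQ.trans (by linarith)) (2 * Real.sqrt (h * d)) ε hρ hε
  obtain ⟨x1, hx1, x2, hx2, hvol⟩ := a7 d (sc P) A A' hd hQ hAk hAk' hvA hvA' β β' h L ε hh hL0
    hL hε hexpL S hScov
  obtain ⟨κ, hκ⟩ : ∃ κ : ℝ, κ = 128 * l ^ 2 * h * d / ε ^ 2 := ⟨_, rfl⟩
  rw [← hκ]
  have hκ0 : 0 ≤ κ := by rw [hκ]; positivity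
  have hρ2 : 8 * (2 * l) ^ 2 * (2 * Real.sqrt (h * d)) ^ 2 / ε ^ 2 = κ := by
    rw [mul_pow 2 (Real.sqrt (h * d)), Real.sq_sqrt (by positivity), hκ]
    ring
  rw [hρ2] at hScard
  have hS1 : (1 : ℝ) ≤ S.card := by
    obtain ⟨t, ht, -⟩ := hScov 0 (by rw [norm_zero]; exact hρ.le)
    have : 0 < S.card := Finset.card_pos.mpr ⟨t, ht⟩
    exact_mod_cast this
  set γ : E d := x1 - x2 with hγ
  have hγe : 4 / 10 ^ 6 ≤ ⟪γ, e⟫_ℝ := by
    have h1 := hx1.2
    have h2 := hx2.2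
    rw [inner_neg_right, inner_sub_left] at h2
    rw [inner_sub_left] at h1
    rw [hγ, inner_sub_left]
    linarith
  have hgx : ∀ x ∈ P, gauge P (-x) ≤ a := fun x hx => by
    have h1 := hQa x
    have h2 := hgP x hx
    calc gauge P (-x) ≤ a * gauge P x := h1
      _ ≤ a * 1 := by gcongr
      _ = a := mul_one a
  have hgγ : gauge P γ ≤ 2 * a := by
    have := hG.add x1 (-x2)
    have h1 := hgP x1 hx1.1
    have h2 := hgx x2 hx2.1
    rw [hγ, sub_eq_add_neg]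
    linarith
  have hgγ' : gauge P (-γ) ≤ 2 * a := by
    have := hG.add x2 (-x1)
    have h1 := hgP x2 hx2.1
    have h2 := hgx x1 hx1.1
    rw [hγ, neg_sub, sub_eq_add_neg]
    linarith
  have hsub : {x | x ∈ A ∧ ∃ y ∈ A', gauge (sc P) (x - y - (x1 - x2)) ≤ 4 * ε} ⊆
      {x | x ∈ P ∧ gauge P (x - γ) ≤ 1 + 4 * ε} := by
    rintro x ⟨hx, y, hy, hxy⟩
    refine ⟨hAs hx, ?_⟩
    have e1 : x - γ = (x - y - (x1 - x2)) + y := by rw [hγ]; abel
    rw [e1]
    have h1 := hG.add (x - y - (x1 - x2)) y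
    have h2 := hgP y (hAs' hy)
    have h3 := hQ1 (x - y - (x1 - x2))
    linarith
  obtain ⟨r, hr⟩ : ∃ r : ℝ, r = 31 + 2 * L + 2 * κ := ⟨_, rfl⟩
  have hr0 : 0 ≤ r := by rw [hr]; positivity
  have hnum : Real.exp (-r) * vP ≤ Real.exp (-(2 * L)) / (4 * (S.card : ℝ) ^ 2) * vA := by
    have h1 : Real.exp (-r) = Real.exp (-31) * (Real.exp (-(2 * L)) * Real.exp (-(2 * κ))) := by
      rw [← Real.exp_add, ← Real.exp_add, hr]
      congr 1
      ring
    have h2 : Real.exp (-31) ≤ 1 / (16 * 10 ^ 12) := by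
      rw [Real.exp_neg, ← one_div]
      exact one_div_le_one_div_of_le (by norm_num) exp31
    have h3 : (S.card : ℝ) ^ 2 ≤ 4 * Real.exp (2 * κ) := by
      have : (S.card : ℝ) ^ 2 ≤ (2 * Real.exp κ) ^ 2 := by gcongr
      refine this.trans (le_of_eq ?_)
      rw [mul_pow, ← Real.exp_nat_mul]
      norm_num
    have h4 : Real.exp (-(2 * κ)) / 16 ≤ 1 / (4 * (S.card : ℝ) ^ 2) := by
      rw [Real.exp_neg, div_le_div_iff₀ (by norm_num) (by positivity)]
      have e0 := Real.exp_pos (2 * κ)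
      rw [inv_mul_le_iff₀ e0]
      linarith
    calc Real.exp (-r) * vP
        ≤ 1 / (16 * 10 ^ 12) * (Real.exp (-(2 * L)) * Real.exp (-(2 * κ))) * vP := by
          rw [h1]
          gcongr
      _ = Real.exp (-(2 * L)) * (Real.exp (-(2 * κ)) / 16) * (1 / 10 ^ 12 * vP) := by ring
      _ ≤ Real.exp (-(2 * L)) * (1 / (4 * (S.card : ℝ) ^ 2)) * vA := by gcongr
      _ = _ := by ring
  have hhyp : ENNReal.ofReal (Real.exp (-r)) * volume P ≤
      volume {x | x ∈ P ∧ gauge P (x - γ) ≤ 1 + 4 * ε} := by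
    refine le_trans ?_ (hvol.trans (measure_mono hsub))
    have e1 : volume P = ENNReal.ofReal vP := (ENNReal.ofReal_toReal hvPt).symm
    have e2 : volume A = ENNReal.ofReal vA := (ENNReal.ofReal_toReal hvAt).symm
    have hq : 0 ≤ Real.exp (-(2 * L)) / (4 * (S.card : ℝ) ^ 2) :=
      div_nonneg (Real.exp_pos _).le (mul_nonneg (by norm_num) (sq_nonneg _))
    rw [e1, e2, ← ENNReal.ofReal_mul (Real.exp_pos _).le, ← ENNReal.ofReal_mul hq]
    exact ENNReal.ofReal_le_ofReal hnum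
  have hε0 : 0 ≤ 4 * ε := by positivity
  have hbm := a9 d P a hP γ r (4 * ε) hr0 hε0 hhyp
  have hwk := a10 d P a (by omega) hP γ r (4 * ε) hr0 hε0 hbm
  have hrev := a15 d P a hP γ r (4 * ε) hr0 hε0 hhyp
  have hr0' : 0 ≤ r + 4 * ε * d := by positivity
  have hbm' := a9 d P a hP (-((1 + 4 * ε)⁻¹ • γ)) (r + 4 * ε * d) 0 hr0' le_rfl hrev
  have hwk' := a10 d P a (by omega) hP (-((1 + 4 * ε)⁻¹ • γ)) (r + 4 * ε * d) 0 hr0' le_rfl hbm'
  have hsm := a11 d P a (by omega) hP γ r (4 * ε) hr0 hε0 hε4 hgγ hgγ' hwk hwk'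
  have hlam : lm * (4 / 10 ^ 6) ^ 2 ≤ 2 * (4 * ε) ^ 2 +
      128 / 5 * a * ((32 + 2 * (L + κ)) / d + 4 * ε) := by
    have h1 : lm * (4 / 10 ^ 6) ^ 2 ≤ lm * ⟪γ, e⟫_ℝ ^ 2 := by gcongr
    refine h1.trans ((hlo γ).trans (hsm.trans (le_of_eq ?_)))
    rw [hr]
    ring
  have hfin := fin_num a ε (L + κ) d lm ha1 hε hε4 hd0 (by positivity) hlam
  refine (hup w).trans ?_
  refine mul_le_mul_of_nonneg_right (hfin.trans (le_of_eq ?_)) (sq_nonneg _)
  ring

end Pool.Agent.T2h52.SO
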