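import Pool.Agent.T2h52.SO.Stm

/-! LGM, project SO (helper33). -/

set_option autoImplicit false

namespace Pool.Agent.T2h52.SO

open MeasureTheory
open scoped ENNReal InnerProductSpace Pointwise
open Pool.Agent.T2h52.SP
open Pool.Agent.T2h52.SQ

lemma half_sum {m : ℕ} (y : Fin m → ℝ) (hy : ∀ i, 0 ≤ y i) {q : ℝ} (hq : 0 < q) :
    (∑ i, (y i / 2) ^ q) ^ (1 / q) = (∑ i, y i ^ q) ^ (1 / q) / 2 := by
  have h1 : ∑ i, (y i / 2) ^ q = (1 / 2 : ℝ) ^ q * ∑ i, y i ^ q := by
    rw [Finset.mul_sum]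
    refine Finset.sum_congr rfl fun i _ => ?_
    rw [← Real.mul_rpow (by norm_num) (hy i)]
    congr 1
    ring
  rw [h1, Real.mul_rpow (Real.rpow_nonneg (by norm_num) _)
    (Finset.sum_nonneg fun i _ => Real.rpow_nonneg (hy i) _), ← Real.rpow_mul (by norm_num),
    mul_one_div_cancel hq.ne', Real.rpow_one]
  ring

lemma LN.nonneg {N : ℕ} {q M : ℝ} {G : (Fin N → ℝ) → ℝ} (h : LN N q M G) (a : Fin N → ℝ) :
    0 ≤ G a := by
  have h0 : G 0 = 0 := by
    have := h.smul 0 0
    simpa using this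
  have h1 := h.add a (-a)
  have h2 := h.smul (-1) a
  rw [add_neg_cancel, h0] at h1
  have h3 : ((-1 : ℝ) • a) = -a := by simp
  rw [h3] at h2
  simp at h2
  linarith

theorem lgm (h1 : V_TRB) (h2 : V_TWO) (h3 : U_LGM) : V_LGM := by
  intro d P Q a q M b hq hM hP hb hI hQ hle hZ
  obtain ⟨⟨a', hB⟩, hIso⟩ := h1 d P a b hP hb
  obtain ⟨hQ2, hle2, hsc, hgm⟩ := h2 d P Q a b hP hb hQ hle
  have hZ2 : LC q M 1 (gauge ((2 : ℝ) • Q)) := by
    obtain ⟨N, G, x, hG, hGx⟩ := hZ
    refine ⟨N, fun v => G v / 2, x, ?_, ?_⟩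
    · refine ⟨fun u v => ?_, fun c u => ?_, fun u v huv => ?_, fun m v => ?_⟩
      · have := hG.add u v
        show G (u + v) / 2 ≤ G u / 2 + G v / 2
        linarith
      · show G (c • u) / 2 = |c| * (G u / 2)
        rw [hG.smul c u]
        ring
      · have := hG.mono u v huv
        show G u / 2 ≤ G v / 2
        linarith
      · have h4 := hG.conc m v
        rw [half_sum (fun i => G (v i)) (fun i => LN.nonneg hG _) (by linarith)]
        linarith
    · intro u
      rw [hsc]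
      have := hGx u
      constructor
      · linarith [this.1]
      · linarith [this.2]
  have h4 := h3 d (tr P b) ((2 : ℝ) • Q) a' q M hq hM hB (hIso hI) hQ2 hle2 hZ2
  rw [hgm] at h4
  linarith

end Pool.Agent.T2h52.SO
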