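import Pool.Agent.T2h52.SO.Stm
import Pool.Agent.T2h52.SP.WEAK
import Pool.Agent.TH591.Ns.Cover
import Pool.Agent.TH591.Ns.Flat

/-!
Task LOW: lower bound for the volume of `P \ (P + ty)`.
-/

set_option autoImplicit false

namespace Pool.Agent.T2h52.SO

open MeasureTheory Set Filter Topology
open scoped ENNReal InnerProductSpace Pointwise
open Pool.Agent.T2h52.SP
open Pool.Agent.TH591.Ns (isG_gauge ball_eq vol_ball fderiv_le fderiv_le_g IsG)

namespace LOW

/-- the negative part of the derivative of the gauge -/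
noncomputable def Ng {d : ℕ} (P : Set (E d)) (y x : E d) : ℝ := max (-(fderiv ℝ (gauge P) x y)) 0

variable {d : ℕ} {P : Set (E d)} {a : ℝ}

theorem nonneg (y x : E d) : 0 ≤ Ng P y x := le_max_right _ _

theorem le_g (hP : Bo P a) (y x : E d) : Ng P y x ≤ gauge P (-y) := by
  have hK0 : P ∈ 𝓝 0 := mem_interior_iff_mem_nhds.1 hP.int
  have hg := isG_gauge hP.conv hK0
  refine max_le ?_ (hg.nonneg _)
  have := fderiv_le_g hg x (-y)
  rwa [map_neg] at this

theorem meas (y : E d) : Measurable (Ng P y) :=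
  (measurable_fderiv_apply_const ℝ (gauge P) y).neg.max measurable_const

theorem homog (hP : Bo P a) (y : E d) (s : ℝ) (hs : 0 < s) (x : E d) : Ng P y (s • x) = Ng P y x := by
  have hK0 : P ∈ 𝓝 0 := mem_interior_iff_mem_nhds.1 hP.int
  have hg := isG_gauge hP.conv hK0
  unfold Ng
  rw [fd_smul hg hs]

theorem integ (hP : Bo P a) (y : E d) : IntegrableOn (Ng P y) P := by
  refine Measure.integrableOn_of_bounded (M := gauge P (-y)) hP.comp.measure_lt_top.ne
    (meas y).aestronglyMeasurable (Filter.Eventually.of_forall fun x => ?_)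
  rw [Real.norm_of_nonneg (nonneg y x)]
  exact le_g hP y x

/-- the gauge is differentiable almost everywhere -/
theorem diff_ae (hP : Bo P a) : ∀ᵐ x : E d, DifferentiableAt ℝ (gauge P) x := by
  have hK0 : P ∈ 𝓝 0 := mem_interior_iff_mem_nhds.1 hP.int
  obtain ⟨K, hK⟩ := hP.conv.lipschitz_gauge hK0
  exact hK.ae_differentiableAt

theorem mem_iff (hP : Bo P a) (x : E d) : x ∈ P ↔ gauge P x ≤ 1 := by
  have hK0 : P ∈ 𝓝 0 := mem_interior_iff_mem_nhds.1 hP.int
  have hb := ball_eq hP.conv hP.comp hK0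
  conv_lhs => rw [← hb]
  rfl

theorem pow_low (d : ℕ) (s : ℝ) (hs0 : 0 ≤ s) (hs1 : s ≤ 1) : (1 - s) ^ d ≤ 1 - d * s + (d * s) ^ 2 := by
  induction d with
  | zero => simp
  | succ d ih =>
    have hd0 : (0 : ℝ) ≤ d := Nat.cast_nonneg d
    rw [pow_succ]
    calc (1 - s) ^ d * (1 - s) ≤ (1 - d * s + (d * s) ^ 2) * (1 - s) :=
          mul_le_mul_of_nonneg_right ih (by linarith)
      _ ≤ _ := by
          push_cast
          nlinarith [mul_nonneg (mul_nonneg hd0 hd0) (mul_nonneg (mul_nonneg hs0 hs0) hs0),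
            mul_nonneg hd0 (mul_nonneg hs0 hs0), mul_nonneg hs0 hs0]

end LOW

open LOW in
theorem low (hC : V_CON) : V_LOW := by
  intro d P a hd hP y t ht hdt
  have hPm : MeasurableSet P := hP.comp.isClosed.measurableSet
  have hfin : volume P ≠ ⊤ := hP.comp.measure_lt_top.ne
  have : IsFiniteMeasure (volume.restrict P) := ⟨by rw [Measure.restrict_apply_univ]; exact hP.comp.measure_lt_top⟩
  have hd1 : (1 : ℝ) ≤ d := by exact_mod_cast hd
  obtain ⟨G, hG⟩ : ∃ G : ℝ, G = gauge P (-y) := ⟨_, rfl⟩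
  have hG0 : 0 ≤ G := by rw [hG]; exact gauge_nonneg _
  rw [← hG] at hdt ⊢
  have hNG : ∀ x, Ng P y x ≤ G := fun x => by rw [hG]; exact le_g hP y x
  have htG : t * G ≤ 1 := by nlinarith [mul_nonneg ht.le hG0]
  have htN : ∀ x, t * Ng P y x ≤ 1 := fun x => (mul_le_mul_of_nonneg_left (hNG x) ht.le).trans htG
  set ψ : E d → ℝ := fun x => 1 - t * Ng P y x with hψ
  have hψm : Measurable ψ := measurable_const.sub ((meas y).const_mul t)
  have hψ1 : ∀ x, ψ x ≤ 1 := fun x => by
    have := mul_nonneg ht.le (nonneg (P := P) y x)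
    simp only [hψ]; linarith
  have hψ0 : ∀ x, 0 ≤ ψ x := fun x => by have := htN x; simp only [hψ]; linarith
  have hcon := hC d P a hd hP ψ 1 hψm hψ0 hψ1 (fun s hs x => by simp only [hψ]; rw [homog hP y s hs])
  set A : Set (E d) := {x | gauge P x ≤ ψ x} with hA
  have hAm : MeasurableSet A := by
    have hK0 : P ∈ 𝓝 0 := mem_interior_iff_mem_nhds.1 hP.int
    exact measurableSet_le (isG_gauge hP.conv hK0).cont.measurable hψm
  have hAP : A ⊆ P := fun x hx => (mem_iff hP x).2 (le_trans hx (hψ1 x))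
  set D : Set (E d) := {x | x ∈ P ∧ x - t • y ∉ P} with hD
  have hDfin : volume D ≠ ⊤ := measure_ne_top_of_subset (fun x hx => hx.1) hfin
  have hle : volume (P \ A) ≤ volume D := by
    refine measure_mono_ae ?_
    filter_upwards [diff_ae hP] with x hx hxP
    obtain ⟨hx1, hx2⟩ : x ∈ P \ A := hxP
    refine ⟨hx1, fun hx3 => ?_⟩
    have h1 : ψ x < gauge P x := not_le.1 hx2
    have h2 : gauge P x ≤ 1 := (mem_iff hP x).1 hx1
    have h3 : gauge P (x - t • y) ≤ 1 := (mem_iff hP _).1 hx3
    have hK0 : P ∈ 𝓝 0 := mem_interior_iff_mem_nhds.1 hP.int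
    have h4 := fderiv_le (isG_gauge hP.conv hK0) x (-(t • y)) hx
    rw [map_neg, map_smul, smul_eq_mul, ← sub_eq_add_neg] at h4
    have h5 : 0 < t * Ng P y x := by
      simp only [hψ] at h1
      linarith
    have h6 : 0 < Ng P y x := by
      by_contra h
      have : Ng P y x = 0 := le_antisymm (not_lt.1 h) (nonneg y x)
      rw [this, mul_zero] at h5
      exact lt_irrefl _ h5
    have h7 : Ng P y x = -(fderiv ℝ (gauge P) x y) := by
      unfold Ng at h6 ⊢
      rcases le_total (-(fderiv ℝ (gauge P) x y)) 0 with h | h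
      · rw [max_eq_right h] at h6
        exact absurd h6 (lt_irrefl _)
      · exact max_eq_left h
    simp only [hψ] at h1
    rw [h7] at h1
    nlinarith
  have hdiff : (volume (P \ A)).toReal = (volume P).toReal - (volume A).toReal := by
    rw [measure_sdiff hAP hAm.nullMeasurableSet (measure_ne_top_of_subset hAP hfin),
      ENNReal.toReal_sub_of_le (measure_mono hAP) hfin]
  have hle' : (volume (P \ A)).toReal ≤ (volume D).toReal := ENNReal.toReal_mono hDfin hle
  refine le_trans ?_ hle'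
  rw [hdiff, hcon]
  have iN := integ hP y
  have iψ : IntegrableOn (fun x => ψ x ^ d) P := by
    refine Measure.integrableOn_of_bounded (M := 1) hfin (hψm.pow_const d).aestronglyMeasurable
      (Filter.Eventually.of_forall fun x => ?_)
    rw [Real.norm_of_nonneg (pow_nonneg (hψ0 x) d)]
    exact pow_le_one₀ (hψ0 x) (hψ1 x)
  have i1 : Integrable (fun _ : E d => (1 + (d * t * G) ^ 2 : ℝ)) (volume.restrict P) :=
    integrable_const _
  have key : ∫ x in P, ψ x ^ d ≤ ∫ x in P, ((1 + (d * t * G) ^ 2) - d * t * Ng P y x) := by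
    refine setIntegral_mono iψ (i1.sub (iN.const_mul _)) fun x => ?_
    have h1 := pow_low d (t * Ng P y x) (mul_nonneg ht.le (nonneg y x)) (htN x)
    have h2 : (d * (t * Ng P y x)) ^ 2 ≤ (d * t * G) ^ 2 := by
      refine pow_le_pow_left₀ (by have := nonneg (P := P) y x; positivity) ?_ 2
      rw [← mul_assoc]
      exact mul_le_mul_of_nonneg_left (hNG x) (by positivity)
    simp only [hψ]
    rw [mul_assoc (d : ℝ) t (Ng P y x)]
    linarith
  rw [integral_sub i1 (iN.const_mul _), integral_const_mul, setIntegral_const, smul_eq_mul] at key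
  have hN : ∫ x in P, max (-(fderiv ℝ (gauge P) x y)) 0 = ∫ x in P, Ng P y x := rfl
  rw [hN]
  have hr : volume.real P = (volume P).toReal := rfl
  rw [hr] at key
  linarith

end Pool.Agent.T2h52.SO
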