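import Pool.Agent.T2h52.SO.Stm
import Pool.Agent.N555.RZ.MainB

/-!
Task MAI: bodies with small covariance of the derivative, close to a symmetric body of finite
cotype, are covered.
-/

set_option autoImplicit false

namespace Pool.Agent.T2h52.SO

open MeasureTheory Set Filter Topology
open scoped ENNReal InnerProductSpace Pointwise
open Pool.Agent.T2h52.SP
open Pool.Agent.T2h52.SQ
open Pool.Agent.N555.RZ (mP log_ge_one)
open Pool.Agent.TH591.Ns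

theorem mai (hFCO : V_FCO) (hMNA : V_MNA) (hR : U_RAD) : V_MAI := by
  intro d P Q S' q B D b hd hP hb hI hQ hPQ hcovD hq hB hcot hD
  have hS' := hP.one
  have hS'0 : 0 < S' := by linarith
  obtain ⟨C, hCdef⟩ : ∃ C : ℝ, C = 2 * S' := ⟨_, rfl⟩
  rw [← hCdef] at hD
  have hC : 1 ≤ C := by linarith
  have hC0 : 0 < C := by linarith
  have hB0 : 0 < B := by linarith
  have hP0 : P ∈ nhds (0 : E d) := mem_interior_iff_mem_nhds.mp hP.int
  have hQ0 : Q ∈ nhds (0 : E d) := mem_interior_iff_mem_nhds.mp hQ.int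
  have hgP := isG_gauge hP.conv hP0
  have hgQ := isG_gauge hQ.conv hQ0
  have hℓ := log_ge_one d hd
  by_cases hflat : ∫ z, ∫ z', |fderiv ℝ (gauge P) z (z' - b)| ∂(mP P) ∂(mP P) ≤
      1 / (46080 * Real.log (d + 1))
  · exact hFCO d P S' b hd hP hb hflat
  rw [not_le] at hflat
  set ℓ := Real.log ((d : ℝ) + 1) with hℓ'
  have hq0 : 0 < q := by linarith
  have hℓ0 : 0 < ℓ := by linarith
  obtain ⟨Y, hY⟩ : ∃ Y, Y = 10 ^ 12 * B * C ^ 2 * ℓ ^ 3 := ⟨_, rfl⟩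
  rw [← hY] at hD
  have hC2 : 1 ≤ C ^ 2 := one_le_pow₀ hC
  have hℓ3 : 1 ≤ ℓ ^ 3 := one_le_pow₀ hℓ
  have hY1 : 1 ≤ Y := by
    rw [hY]
    have h1 : 1 ≤ B * C ^ 2 := one_le_mul_of_one_le_of_one_le hB hC2
    have h2 : 1 ≤ B * C ^ 2 * ℓ ^ 3 := one_le_mul_of_one_le_of_one_le h1 hℓ3
    nlinarith
  have hY0 : 0 < Y := by linarith
  obtain ⟨n, hn⟩ : ∃ n : ℕ, n = ⌈Y ^ q⌉₊ := ⟨_, rfl⟩
  have hYq : 1 ≤ Y ^ q := Real.one_le_rpow hY1 hq0.le
  have hnY : Y ^ q ≤ n := by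
    rw [hn]
    exact Nat.le_ceil _
  have hnY2 : (n : ℝ) ≤ 2 * Y ^ q := by
    have h1 : (n : ℝ) < Y ^ q + 1 := by
      rw [hn]
      exact Nat.ceil_lt_add_one (by positivity)
    linarith
  have hn1 : 1 ≤ n := by
    have h1 : (1 : ℝ) ≤ n := hYq.trans hnY
    exact_mod_cast h1
  have hDn : 10 ^ 64 * (n : ℝ) ^ 4 * C ^ 8 * ℓ ^ 10 ≤ D := by
    refine le_trans ?_ hD
    have h1 : (n : ℝ) ^ 4 ≤ 16 * Y ^ (4 * q) := by
      calc (n : ℝ) ^ 4 ≤ (2 * Y ^ q) ^ 4 := by gcongr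
        _ = 16 * (Y ^ q) ^ 4 := by ring
        _ = 16 * Y ^ (4 * q) := by
          rw [← Real.rpow_natCast (Y ^ q) 4, ← Real.rpow_mul hY0.le]
          congr 2
          push_cast
          ring
    have h2 : 10 ^ 66 * (C ^ 8 * ℓ ^ 10) ≤ Y ^ (7 * q) := by
      calc 10 ^ 66 * (C ^ 8 * ℓ ^ 10) ≤ 10 ^ 120 * (B ^ 10 * (C ^ 20 * ℓ ^ 30)) := by
            have h3 : 1 ≤ B ^ 10 := one_le_pow₀ hB
            have h4 : C ^ 8 ≤ C ^ 20 := pow_le_pow_right₀ hC (by norm_num)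
            have h5 : ℓ ^ 10 ≤ ℓ ^ 30 := pow_le_pow_right₀ hℓ (by norm_num)
            have h6 : C ^ 8 * ℓ ^ 10 ≤ C ^ 20 * ℓ ^ 30 := by gcongr
            have h7 : C ^ 20 * ℓ ^ 30 ≤ B ^ 10 * (C ^ 20 * ℓ ^ 30) :=
              le_mul_of_one_le_left (by positivity) h3
            have h8 : 0 ≤ B ^ 10 * (C ^ 20 * ℓ ^ 30) := by positivity
            calc (10 : ℝ) ^ 66 * (C ^ 8 * ℓ ^ 10) ≤ 10 ^ 66 * (B ^ 10 * (C ^ 20 * ℓ ^ 30)) :=
                  mul_le_mul_of_nonneg_left (h6.trans h7) (by norm_num)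
              _ ≤ _ := mul_le_mul_of_nonneg_right (by norm_num) h8
        _ = Y ^ 10 := by rw [hY]; ring
        _ = Y ^ (10 : ℝ) := by norm_cast
        _ ≤ Y ^ (7 * q) := Real.rpow_le_rpow_of_exponent_le hY1 (by linarith)
    calc 10 ^ 64 * (n : ℝ) ^ 4 * C ^ 8 * ℓ ^ 10 = (n : ℝ) ^ 4 * (10 ^ 64 * (C ^ 8 * ℓ ^ 10)) := by
          ring
      _ ≤ 16 * Y ^ (4 * q) * (10 ^ 64 * (C ^ 8 * ℓ ^ 10)) := by gcongr
      _ = Y ^ (4 * q) * (16 * 10 ^ 64 * (C ^ 8 * ℓ ^ 10)) := by ring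
      _ ≤ Y ^ (4 * q) * (10 ^ 66 * (C ^ 8 * ℓ ^ 10)) := by
          gcongr
          norm_num
      _ ≤ Y ^ (4 * q) * Y ^ (7 * q) := by gcongr
      _ = Y ^ (11 * q) := by
          rw [← Real.rpow_add hY0]
          congr 1
          ring
  obtain ⟨ρ, hρ⟩ : ∃ ρ : ℝ, ρ = 1 / (46080 * ℓ) := ⟨_, rfl⟩
  have hρ0 : 0 < ρ := by rw [hρ]; positivity
  have hD1 : 10 ^ 17 * (n : ℝ) ^ 4 * (2 * S') ^ 8 ≤ D * ρ ^ 10 := by
    have h1 : ρ ^ 10 = 1 / (46080 ^ 10 * ℓ ^ 10) := by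
      rw [hρ, div_pow, one_pow, mul_pow]
    rw [h1, mul_one_div, le_div_iff₀ (by positivity), ← hCdef]
    refine le_trans ?_ hDn
    have : 0 ≤ (n : ℝ) ^ 4 * (C ^ 8 * ℓ ^ 10) := by positivity
    nlinarith
  obtain ⟨φ, h1, h2⟩ := hMNA d n P S' D ρ b hn1 hP hb hI hcovD hρ0 (by rw [hρ]; exact hflat.le) hD1
  exfalso
  obtain ⟨c, hc⟩ : ∃ c : ℝ, c = 1 / (10 ^ 10 * C ^ 2 * ℓ ^ 2) := ⟨_, rfl⟩
  have hc0 : 0 < c := by rw [hc]; positivity
  have hcle : c ≤ S'⁻¹ * (ρ ^ 2 / (8 * S')) := by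
    have e1 : S'⁻¹ * (ρ ^ 2 / (8 * S')) = 1 / (46080 ^ 2 * 8 * S' ^ 2 * ℓ ^ 2) := by
      rw [hρ]
      field_simp
    rw [e1, hc, hCdef]
    apply one_div_le_one_div_of_le (by positivity)
    have : 0 ≤ S' ^ 2 * ℓ ^ 2 := by positivity
    nlinarith
  obtain ⟨x, hx1, hx2⟩ := hR d n Q c hd hn1 hQ hc0 (fun i => S'⁻¹ • φ i) (by
    intro i x hx
    have h3 : gauge Q x ≤ 1 := Pool.Agent.N555.RZ.gauge_le_one hQ.conv hQ.comp hQ0 hx
    have h4 : S'⁻¹ • x ∈ P := by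
      refine Pool.Agent.N555.RZ.mem_of_gauge hP.conv hP.comp hP0 ?_
      rw [hgP.smul _ (by positivity), inv_mul_le_iff₀ hS'0, mul_one]
      refine (hPQ x).2.trans ?_
      calc S' * gauge Q x ≤ S' * 1 := by gcongr
        _ = S' := mul_one _
    have h5 := h1 i _ h4
    rwa [map_smul] at h5) (by
    intro δ
    obtain ⟨z, hz, hz2⟩ := h2 δ
    obtain ⟨y, hy, hy2⟩ := h2 fun i => !(δ i)
    refine ⟨(1 / 2 : ℝ) • (z - y), ?_, fun i => ?_⟩
    · refine Pool.Agent.N555.RZ.mem_of_gauge hQ.conv hQ.comp hQ0 ?_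
      have g1 : gauge Q z ≤ 1 :=
        (hPQ z).1.trans (Pool.Agent.N555.RZ.gauge_le_one hP.conv hP.comp hP0 hz)
      have g2 : gauge Q y ≤ 1 :=
        (hPQ y).1.trans (Pool.Agent.N555.RZ.gauge_le_one hP.conv hP.comp hP0 hy)
      have g3 : gauge Q (-y) = gauge Q y := gauge_neg hQ.sym y
      have g4 := hgQ.add z (-y)
      rw [hgQ.smul _ (by norm_num), sub_eq_add_neg]
      rw [g3] at g4
      linarith
    · have h3 := hz2 i
      have h4 := hy2 i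
      have h5 : ρ ^ 2 / (8 * S') ≤ (if δ i then (1 : ℝ) else -1) *
          φ i ((1 / 2 : ℝ) • (z - y)) := by
        have e1 : (1 / 2 : ℝ) • (z - y) = (1 / 2 : ℝ) • ((z - b) - (y - b)) := by
          congr 1
          abel
        rw [e1, map_smul, map_sub, smul_eq_mul]
        cases hδ : δ i
        · rw [hδ] at h3 h4
          simp only [Bool.not_false, if_true, Bool.false_eq_true, if_false] at h3 h4 ⊢
          linarith
        · rw [hδ] at h3 h4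
          simp only [Bool.not_true, if_true, Bool.false_eq_true, if_false] at h3 h4 ⊢
          linarith
      have h6 : (if δ i then (1 : ℝ) else -1) * (S'⁻¹ • φ i) ((1 / 2 : ℝ) • (z - y)) =
          S'⁻¹ * ((if δ i then (1 : ℝ) else -1) * φ i ((1 / 2 : ℝ) • (z - y))) := by
        show (if δ i then (1 : ℝ) else -1) * (S'⁻¹ * φ i ((1 / 2 : ℝ) • (z - y))) = _
        ring
      rw [h6]
      refine hcle.trans ?_
      exact mul_le_mul_of_nonneg_left h5 (by positivity))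
  have h1 := hcot n x
  have h2 : Real.sqrt (sm (gauge Q) x) ≤ 13 * ℓ := by
    rw [Real.sqrt_le_iff]
    exact ⟨by positivity, hx2⟩
  have h3 : (n : ℝ) ^ (1 / q) * c ≤ (∑ i, gauge Q (x i) ^ q) ^ (1 / q) := by
    have h4 : (n : ℝ) * c ^ q ≤ ∑ i, gauge Q (x i) ^ q := by
      calc (n : ℝ) * c ^ q = ∑ _i : Fin n, c ^ q := by simp
        _ ≤ ∑ i, gauge Q (x i) ^ q := by
            refine Finset.sum_le_sum fun i _ => ?_
            exact Real.rpow_le_rpow hc0.le (hx1 i) hq0.le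
    calc (n : ℝ) ^ (1 / q) * c = ((n : ℝ) * c ^ q) ^ (1 / q) := by
          rw [Real.mul_rpow (Nat.cast_nonneg n) (by positivity), ← Real.rpow_mul hc0.le,
            mul_one_div_cancel hq0.ne', Real.rpow_one]
      _ ≤ _ := Real.rpow_le_rpow (by positivity) h4 (by positivity)
  have h5 : (n : ℝ) ^ (1 / q) * c ≤ B * (13 * ℓ) :=
    (h3.trans h1).trans (by gcongr)
  have h6 : Y ≤ (n : ℝ) ^ (1 / q) := by
    calc Y = (Y ^ q) ^ (1 / q) := by
          rw [← Real.rpow_mul hY0.le, mul_one_div_cancel hq0.ne', Real.rpow_one]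
      _ ≤ (n : ℝ) ^ (1 / q) := Real.rpow_le_rpow (by positivity) hnY (by positivity)
  have h7 : Y * c = 100 * (B * ℓ) := by
    rw [hY, hc]
    field_simp
    norm_num
  have h8 : Y * c ≤ (n : ℝ) ^ (1 / q) * c := by gcongr
  have h9 : 0 < B * ℓ := by positivity
  nlinarith

end Pool.Agent.T2h52.SO
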