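import Pool.Agent.T2h52.SO.Stm
import Pool.Agent.N555.RZ.Spread

/-!
Task MNA: sign patterns of affine functionals.
-/

set_option autoImplicit false
set_option maxHeartbeats 4000000

namespace Pool.Agent.T2h52.SO

open MeasureTheory Set Filter Topology
open scoped ENNReal InnerProductSpace Pointwise
open Pool.Agent.N555.RZ (mP)
open Pool.Agent.T2h52.SP

namespace MNAaux

open Pool.Agent.N555.RZ
open Pool.Agent.TH591.Ns

variable {d : ℕ}

theorem neg_sub_smul {P : Set (E d)} {a : ℝ} (hP : Bo P a) : -P ⊆ a • P := by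
  intro x hx
  have ha : 0 < a := lt_of_lt_of_le one_pos hP.one
  have h1 := hP.asym (-x) hx
  refine ⟨-(a⁻¹ • -x), h1, ?_⟩
  show a • -(a⁻¹ • -x) = x
  rw [← smul_neg, neg_neg, smul_smul, mul_inv_cancel₀ ha.ne', one_smul]

/-- the derivative of the gauge at differences of points of the body -/
theorem fd_bound {P : Set (E d)} {a : ℝ} (hP : Bo P a) {b z : E d} (hb : b ∈ P) (hz : z ∈ P)
    (y : E d) : |fderiv ℝ (gauge P) y (z - b)| ≤ 2 * a := by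
  have hP0 : P ∈ nhds (0 : E d) := mem_interior_iff_mem_nhds.mp hP.int
  have ha := hP.one
  have hg := isG_gauge hP.conv hP0
  have hn := gauge_neg_le hP.conv hP.comp hP0 a ha (neg_sub_smul hP)
  have hle : ∀ u v : E d, u ∈ P → v ∈ P → fderiv ℝ (gauge P) y (u - v) ≤ 2 * a := by
    intro u v hu hv
    have h1 := fderiv_le_g hg y (u - v)
    have h2 := hg.add u (-v)
    have h3 := hn v
    have h4 := gauge_le_one hP.conv hP.comp hP0 hu
    have h5 := gauge_le_one hP.conv hP.comp hP0 hv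
    rw [← sub_eq_add_neg] at h2
    nlinarith
  rw [abs_le]
  constructor
  · have h1 := hle b z hb hz
    have h2 : b - z = -(z - b) := by abel
    rw [h2, map_neg] at h1
    linarith
  · exact hle z b hz hb

theorem unit_norm {K : Set (E d)} (hKc : IsCompact K) (hK0 : K ∈ nhds (0 : E d))
    (hiso : ∀ w : E d, ∫ z, ⟪z, w⟫_ℝ ^ 2 ∂(mP K) = ‖w‖ ^ 2) (u : E d)
    (hu : ∀ z ∈ K, |⟪u, z⟫_ℝ| ≤ 1) : ‖u‖ ≤ 1 := by
  have h0 : volume K ≠ 0 := (Measure.measure_pos_of_mem_nhds volume hK0).ne'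
  have hfin : volume K ≠ ⊤ := hKc.measure_lt_top.ne
  have hPr := mP_prob h0 hfin
  have h1 : ‖u‖ ^ 2 ≤ 1 := by
    rw [← hiso u]
    have h2 : ∫ z, ⟪z, u⟫_ℝ ^ 2 ∂(mP K) ≤ ∫ _z, (1 : ℝ) ∂(mP K) := by
      refine integral_mono_ae (int_K hKc h0 (by fun_prop)) (integrable_const _) ?_
      filter_upwards [mP_ae hKc.isClosed.measurableSet] with z hz
      rw [real_inner_comm, ← sq_abs]
      exact pow_le_one₀ (abs_nonneg _) (hu z hz)
    simpa using h2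
  nlinarith [norm_nonneg u]

/-- Cauchy-Schwarz for a linear functional -/
theorem inner_mean {K : Set (E d)} (hKc : IsCompact K) (hK0 : K ∈ nhds (0 : E d))
    (hiso : ∀ w : E d, ∫ z, ⟪z, w⟫_ℝ ^ 2 ∂(mP K) = ‖w‖ ^ 2) (u : E d) :
    ∫ z, |⟪u, z⟫_ℝ| ∂(mP K) ≤ ‖u‖ := by
  have h0 : volume K ≠ 0 := (Measure.measure_pos_of_mem_nhds volume hK0).ne'
  have hfin : volume K ≠ ⊤ := hKc.measure_lt_top.ne
  have hPr := mP_prob h0 hfin
  have hc1 : Integrable (fun z' => |⟪u, z'⟫_ℝ|) (mP K) := int_K hKc h0 (by fun_prop)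
  have hc2 : Integrable (fun z' => ⟪u, z'⟫_ℝ ^ 2) (mP K) := int_K hKc h0 (by fun_prop)
  set I := ∫ z', |⟪u, z'⟫_ℝ| ∂(mP K) with hI
  have h1 : I ^ 2 ≤ ‖u‖ ^ 2 := by
    have h2 : 0 ≤ ∫ z', (|⟪u, z'⟫_ℝ| - I) ^ 2 ∂(mP K) := integral_nonneg fun _ => sq_nonneg _
    have e2 : ∀ z', (|⟪u, z'⟫_ℝ| - I) ^ 2 = ⟪u, z'⟫_ℝ ^ 2 - 2 * I * |⟪u, z'⟫_ℝ| + I ^ 2 := by
      intro z'
      rw [sub_sq, sq_abs]; ring
    have e3 : ∫ z', (|⟪u, z'⟫_ℝ| - I) ^ 2 ∂(mP K) = ‖u‖ ^ 2 - 2 * I * I + I ^ 2 := by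
      simp only [e2]
      have f1 := integral_add (hc2.sub (hc1.const_mul (2 * I))) (integrable_const (I ^ 2))
      have f2 := integral_sub hc2 (hc1.const_mul (2 * I))
      have f3 := integral_const_mul (μ := mP K) (2 * I) (fun z' => |⟪u, z'⟫_ℝ|)
      have f4 : ∫ _z' : E d, I ^ 2 ∂(mP K) = I ^ 2 := by simp
      have f5 : ∫ z', ⟪u, z'⟫_ℝ ^ 2 ∂(mP K) = ‖u‖ ^ 2 := by
        rw [← hiso u]
        simp only [real_inner_comm]
      rw [f4] at f1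
      rw [f3, ← hI, f5] at f2
      rw [← f2]
      exact f1
    rw [e3] at h2
    nlinarith
  exact le_of_sq_le_sq h1 (norm_nonneg _)

/-- the mean of the squared norm -/
theorem mean_sq {K : Set (E d)} (hKc : IsCompact K) (hK0 : K ∈ nhds (0 : E d))
    (hiso : ∀ w : E d, ∫ z, ⟪z, w⟫_ℝ ^ 2 ∂(mP K) = ‖w‖ ^ 2) (A' : E d → E d)
    (hAm : Measurable A') (hN : ∀ y, ‖A' y‖ ≤ 1) (c ρ : ℝ) (hc : 0 < c) (hρ : 0 < ρ)
    (hflat : ρ ≤ ∫ y, ∫ z, c * |⟪A' y, z⟫_ℝ| ∂(mP K) ∂(mP K)) :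
    (ρ / c) ^ 2 ≤ ∫ y, ‖A' y‖ ^ 2 ∂(mP K) := by
  have h0 : volume K ≠ 0 := (Measure.measure_pos_of_mem_nhds volume hK0).ne'
  have hfin : volume K ≠ ⊤ := hKc.measure_lt_top.ne
  have hPr := mP_prob h0 hfin
  have hNm : Measurable fun y => ‖A' y‖ := hAm.norm
  have hi1 : Integrable (fun y => ‖A' y‖) (mP K) :=
    Integrable.of_bound hNm.aestronglyMeasurable 1 (Filter.Eventually.of_forall fun y => by
      rw [norm_norm]; exact hN y)
  have hi2 : Integrable (fun y => ‖A' y‖ ^ 2) (mP K) :=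
    Integrable.of_bound (hNm.pow_const 2).aestronglyMeasurable 1
      (Filter.Eventually.of_forall fun y => by
        rw [norm_pow, norm_norm]; exact pow_le_one₀ (norm_nonneg _) (hN y))
  have hin : ∀ y, ∫ z, c * |⟪A' y, z⟫_ℝ| ∂(mP K) ≤ c * ‖A' y‖ := by
    intro y
    rw [integral_const_mul]
    exact mul_le_mul_of_nonneg_left (inner_mean hKc hK0 hiso (A' y)) hc.le
  have hmean : ρ ≤ c * ∫ y, ‖A' y‖ ∂(mP K) := by
    refine hflat.trans ?_
    rw [← integral_const_mul]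
    refine integral_mono_of_nonneg (Filter.Eventually.of_forall fun y =>
      integral_nonneg fun _ => mul_nonneg hc.le (abs_nonneg _)) (hi1.const_mul c)
        (Filter.Eventually.of_forall hin)
  set J := ∫ y, ‖A' y‖ ∂(mP K) with hJ
  have h3 : J ^ 2 ≤ ∫ y, ‖A' y‖ ^ 2 ∂(mP K) := by
    have h2 : 0 ≤ ∫ y, (‖A' y‖ - J) ^ 2 ∂(mP K) := integral_nonneg fun _ => sq_nonneg _
    have e2 : ∀ y, (‖A' y‖ - J) ^ 2 = ‖A' y‖ ^ 2 - 2 * J * ‖A' y‖ + J ^ 2 := by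
      intro y; ring
    have e3 : ∫ y, (‖A' y‖ - J) ^ 2 ∂(mP K)
        = ∫ y, ‖A' y‖ ^ 2 ∂(mP K) - 2 * J * J + J ^ 2 := by
      simp only [e2]
      have f1 := integral_add (hi2.sub (hi1.const_mul (2 * J))) (integrable_const (J ^ 2))
      have f2 := integral_sub hi2 (hi1.const_mul (2 * J))
      have f3 := integral_const_mul (μ := mP K) (2 * J) (fun y => ‖A' y‖)
      have f4 : ∫ _y : E d, J ^ 2 ∂(mP K) = J ^ 2 := by simp
      rw [f4] at f1
      rw [f3, ← hJ] at f2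
      rw [← f2]
      exact f1
    rw [e3] at h2
    nlinarith
  refine le_trans ?_ h3
  have h4 : ρ / c ≤ J := by
    rw [div_le_iff₀ hc]
    linarith
  have h5 : 0 ≤ ρ / c := by positivity
  gcongr

end MNAaux

theorem mna (hGEN : V_GEN) (hBAR : V_BAR) (hTRB : V_TRB) (hMTR : V_MTR) : V_MNA := by
  intro d n P a D ρ b hn hP hb hI hD hρ hflat hnum
  have ha := hP.one
  have ha0 : 0 < a := by linarith
  have h2a : 0 < 2 * a := by linarith
  have hbi := hBAR d P a b hP hb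
  have hbP : b ∈ P := interior_subset hbi
  have hP0 : P ∈ nhds (0 : E d) := mem_interior_iff_mem_nhds.mp hP.int
  obtain ⟨⟨a', hB'⟩, hIso⟩ := hTRB d P a b hP hb
  have hiso : ∀ w : E d, ∫ z, ⟪z, w⟫_ℝ ^ 2 ∂(mP (tr P b)) = ‖w‖ ^ 2 := hIso hI
  have hK0 : tr P b ∈ nhds (0 : E d) := mem_interior_iff_mem_nhds.mp hB'.int
  have hm : mP (tr P b) = (mP P).map fun x => x - b :=
    hMTR d P b hP.comp.isClosed.measurableSet
  set A' : E d → E d := fun y => Pool.Agent.N555.RZ.ga P (2 * a) (y + b) with hA'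
  have hAm : Measurable A' :=
    (Pool.Agent.N555.RZ.ga_meas P (2 * a)).comp (measurable_id.add_const b)
  have hin : ∀ y z : E d, ⟪A' y, z⟫_ℝ = (2 * a)⁻¹ * fderiv ℝ (gauge P) (y + b) z := fun y z =>
    Pool.Agent.N555.RZ.ga_inner P (2 * a) (y + b) z
  have hle : ∀ y, ∀ z ∈ tr P b, |⟪A' y, z⟫_ℝ| ≤ 1 := by
    rintro y _ ⟨z, hz, rfl⟩
    rw [hin, abs_mul, abs_inv, abs_of_pos h2a, inv_mul_le_iff₀ h2a, mul_one]
    exact MNAaux.fd_bound hP hbP hz _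
  have hN : ∀ y, ‖A' y‖ ≤ 1 := fun y =>
    MNAaux.unit_norm hB'.comp hK0 hiso (A' y) (hle y)
  have hmsub : Measurable fun x : E d => x - b := measurable_id.sub_const b
  have hemb : MeasurableEmbedding fun x : E d => x - b :=
    (Homeomorph.subRight b).measurableEmbedding
  have hmap : ∀ f : E d → ℝ, ∫ y, f y ∂(mP (tr P b)) = ∫ x, f (x - b) ∂(mP P) := by
    intro f
    rw [hm, hemb.integral_map]
  have hcov : ∀ x : E d, ((2 * a) ^ 2 * D) * ∫ y, ⟪A' y, x⟫_ℝ ^ 2 ∂(mP (tr P b)) ≤ ‖x‖ ^ 2 := by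
    intro x
    refine le_trans (le_of_eq ?_) (hD x)
    rw [hmap]
    simp only [hin, sub_add_cancel, mul_pow]
    rw [integral_const_mul]
    field_simp
  have hmean : (ρ / (2 * a)) ^ 2 ≤ ∫ y, ‖A' y‖ ^ 2 ∂(mP (tr P b)) := by
    refine MNAaux.mean_sq hB'.comp hK0 hiso A' hAm hN (2 * a) ρ h2a hρ ?_
    refine hflat.trans (le_of_eq ?_)
    rw [hmap]
    congr 1
    ext x
    rw [hmap]
    congr 1
    ext z
    rw [hin, sub_add_cancel, abs_mul, abs_inv, abs_of_pos h2a, ← mul_assoc,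
      mul_inv_cancel₀ h2a.ne', one_mul]
  set a0 : ℝ := (ρ / (2 * a)) ^ 2 / 2 with ha0'
  have ha0pos : 0 < a0 := by positivity
  have hDa : 3 * 10 ^ 15 * (n : ℝ) ^ 4 ≤ ((2 * a) ^ 2 * D) * a0 ^ 5 := by
    have h1 : ((2 * a) ^ 2 * D) * a0 ^ 5 = D * ρ ^ 10 / (32 * (2 * a) ^ 8) := by
      have e1 : a0 ^ 5 = ρ ^ 10 / (32 * (2 * a) ^ 10) := by
        rw [ha0', div_pow, div_pow, div_pow, ← pow_mul, ← pow_mul]
        norm_num
        rw [div_div, mul_comm]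
      rw [e1]
      field_simp
    rw [h1, le_div_iff₀ (by positivity)]
    refine le_trans ?_ hnum
    have : 0 ≤ (n : ℝ) ^ 4 * (2 * a) ^ 8 := by positivity
    nlinarith
  obtain ⟨ζ, hζ⟩ := hGEN d n (tr P b) A' a0 ((2 * a) ^ 2 * D) hn hB'.conv hB'.comp hK0 (hIso hI)
    hAm hN hle hcov ha0pos (by rw [ha0']; linarith) hDa
  refine ⟨fun i => fderiv ℝ (gauge P) (ζ i + b), fun i x hx => ?_, fun δ => ?_⟩
  · exact (Pool.Agent.TH591.Ns.fderiv_le_g (Pool.Agent.TH591.Ns.isG_gauge hP.conv hP0) _ _).trans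
      (Pool.Agent.N555.RZ.gauge_le_one hP.conv hP.comp hP0 hx)
  · obtain ⟨_, ⟨z, hz, rfl⟩, h⟩ := hζ δ
    refine ⟨z, hz, fun i => ?_⟩
    have h1 := h i
    rw [hin] at h1
    have h3 : ρ ^ 2 / (8 * a) = 2 * a * (a0 / 2) := by
      rw [ha0']
      field_simp
      ring
    rw [h3]
    calc 2 * a * (a0 / 2)
        ≤ 2 * a * ((if δ i then (1 : ℝ) else -1) *
            ((2 * a)⁻¹ * fderiv ℝ (gauge P) (ζ i + b) (z - b))) :=
          mul_le_mul_of_nonneg_left h1 h2a.le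
      _ = _ := by field_simp

end Pool.Agent.T2h52.SO
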