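import Pool.Agent.T2h52.SO.Stm

/-!
# MTR: the uniform measure of a translate
-/

set_option autoImplicit false

namespace Pool.Agent.T2h52.SO

open MeasureTheory Set Filter Topology
open scoped ENNReal InnerProductSpace Pointwise
open Pool.Agent.N555.RZ (mP)
open Pool.Agent.T2h52.SP

namespace MTR

theorem pre {d : ℕ} (A : Set (E d)) (b : E d) : (fun x : E d => x - b) ⁻¹' (tr A b) = A := by
  ext x
  simp only [tr, mem_preimage, mem_image]
  constructor
  · rintro ⟨y, hy, h⟩
    have : y = x := sub_left_inj.mp h
    exact this ▸ hy
  · exact fun hx => ⟨x, hx, rfl⟩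

theorem trpre {d : ℕ} (A : Set (E d)) (b : E d) : tr A b = (fun x : E d => x + b) ⁻¹' A := by
  ext x
  simp only [tr, mem_preimage, mem_image]
  constructor
  · rintro ⟨y, hy, rfl⟩
    simpa using hy
  · exact fun hx => ⟨x + b, hx, by simp⟩

theorem vol {d : ℕ} (A : Set (E d)) (b : E d) : volume (tr A b) = volume A := by
  rw [trpre]
  exact measure_preimage_add_right volume b A

end MTR

theorem mtr : V_MTR := by
  intro d A b hA
  have hpres : MeasurePreserving (fun x : E d => x - b) volume volume :=
    measurePreserving_sub_right volume b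
  have hm : MeasurableSet (tr A b) := by
    rw [MTR.trpre]
    exact (measurable_id.add_const b) hA
  rw [mP, mP, MTR.vol, Measure.map_smul]
  congr 1
  have h := (hpres.restrict_preimage hm).map_eq
  rw [MTR.pre] at h
  exact h.symm

end Pool.Agent.T2h52.SO
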