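import Pool.Agent.T2h52.SO.Stm

/-! NUM, project SO (helper33). -/

set_option autoImplicit false

namespace Pool.Agent.T2h52.SO

open Pool.Agent.T2h52.SP
open Pool.Agent.T2h52.SQ

theorem num (h : U_NUM) : V_NUM := by
  intro d q M C hd hq hM hC hX
  have e1 : 10 ^ 13 * M * (2 * C) ^ 2 * Real.log (d + 1) ^ 3 =
      4 * 10 ^ 13 * M * C ^ 2 * Real.log (d + 1) ^ 3 := by ring
  have h1 := h d q M (2 * C) hd hq hM (by linarith) (by rw [e1]; exact hX)
  have e2 : 2 * C * (2 * 10 ^ 5 * q * M) = C * (4 * 10 ^ 5 * q * M) := by ring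
  rw [e2] at h1
  refine ⟨h1.1, le_trans ?_ h1.2⟩
  have hL : 0 ≤ Real.log ((d : ℝ) + 1) := Real.log_nonneg (by
    have : (0 : ℝ) ≤ d := Nat.cast_nonneg d
    linarith)
  have hA : 0 ≤ (10 ^ 12 * (2 * M) * (2 * C) ^ 2 * Real.log (d + 1) ^ 3) ^ (11 * q) :=
    Real.rpow_nonneg (by positivity) _
  have hB : 0 ≤ (C * (4 * 10 ^ 5 * q * M)) ^ ((1 : ℝ) / 2) :=
    Real.rpow_nonneg (by positivity) _
  refine mul_le_mul_of_nonneg_left ?_ hA
  refine mul_le_mul_of_nonneg_right ?_ hB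
  linarith

end Pool.Agent.T2h52.SO
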