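import Pool.Agent.T2h52.SO.Stm

/-!
# Task REV: the opposite direction
-/

set_option autoImplicit false

namespace Pool.Agent.T2h52.SO

open MeasureTheory Set Filter Topology
open scoped ENNReal InnerProductSpace Pointwise
open Pool.Agent.N555.RZ (mP Spr)
open Pool.Agent.T2h52.SP Pool.Agent.T2h52.SQ

theorem rev : V_REV := by
  intro d P a hP γ r ε' hr hε h
  have hnh : P ∈ 𝓝 (0 : E d) := mem_interior_iff_mem_nhds.1 hP.int
  have hmem : ∀ x : E d, gauge P x ≤ 1 ↔ x ∈ P := fun x => by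
    rw [gauge_le_one_iff_mem_closure hP.conv hnh, hP.comp.isClosed.closure_eq]
  have h1 : 0 < 1 + ε' := by linarith
  have hinv : (1 + ε')⁻¹ ≤ 1 := inv_le_one_of_one_le₀ (by linarith)
  have hinv0 : 0 ≤ (1 + ε')⁻¹ := by positivity
  have hsub : (1 + ε')⁻¹ • ((fun x => γ + x) ⁻¹' {x | x ∈ P ∧ gauge P (x - γ) ≤ 1 + ε'}) ⊆
      {x | x ∈ P ∧ gauge P (x - (-((1 + ε')⁻¹ • γ))) ≤ 1 + 0} := by
    rintro _ ⟨z, ⟨hz1, hz2⟩, rfl⟩
    simp only [add_sub_cancel_left] at hz2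
    refine ⟨?_, ?_⟩
    · rw [← hmem]
      simp only
      rw [gauge_smul_of_nonneg hinv0, smul_eq_mul]
      calc (1 + ε')⁻¹ * gauge P z ≤ (1 + ε')⁻¹ * (1 + ε') := mul_le_mul_of_nonneg_left hz2 hinv0
        _ = 1 := inv_mul_cancel₀ h1.ne'
    · simp only
      rw [sub_neg_eq_add, ← smul_add, gauge_smul_of_nonneg hinv0, smul_eq_mul, add_zero,
        add_comm z γ]
      have h3 : gauge P (γ + z) ≤ 1 := (hmem _).2 hz1
      calc (1 + ε')⁻¹ * gauge P (γ + z) ≤ 1 * 1 := mul_le_mul hinv h3 (gauge_nonneg _) zero_le_one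
        _ = 1 := one_mul 1
  have hvol : volume ((1 + ε')⁻¹ • ((fun x => γ + x) ⁻¹' {x | x ∈ P ∧ gauge P (x - γ) ≤ 1 + ε'})) =
      ENNReal.ofReal (((1 + ε')⁻¹) ^ d) * volume {x | x ∈ P ∧ gauge P (x - γ) ≤ 1 + ε'} := by
    rw [Measure.addHaar_smul, finrank_euclideanSpace_fin, abs_of_nonneg (by positivity),
      measure_preimage_add]
  have hexp : Real.exp (-(ε' * d)) ≤ ((1 + ε')⁻¹) ^ d := by
    rw [inv_pow, Real.exp_neg]
    refine inv_anti₀ (by positivity) ?_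
    rw [mul_comm, Real.exp_nat_mul]
    refine pow_le_pow_left₀ h1.le ?_ d
    rw [add_comm]
    exact Real.add_one_le_exp ε'
  refine le_trans ?_ (measure_mono hsub)
  rw [hvol]
  calc ENNReal.ofReal (Real.exp (-(r + ε' * d))) * volume P =
      ENNReal.ofReal (Real.exp (-(ε' * d))) * (ENNReal.ofReal (Real.exp (-r)) * volume P) := by
        rw [← mul_assoc, ← ENNReal.ofReal_mul (Real.exp_pos _).le, ← Real.exp_add]
        congr 3
        ring
    _ ≤ ENNReal.ofReal (((1 + ε')⁻¹) ^ d) *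
        volume {x | x ∈ P ∧ gauge P (x - γ) ≤ 1 + ε'} :=
        mul_le_mul' (ENNReal.ofReal_le_ofReal hexp) h

end Pool.Agent.T2h52.SO
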