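import Pool.Agent.T2h52.SO.Stm
import Pool.Agent.TH591.Ns.Cover
import Pool.Agent.TH591.Ns.Flat

/-!
# Task SM: second moment, bodies which need not be symmetric
-/

set_option autoImplicit false

namespace Pool.Agent.T2h52.SO

open MeasureTheory Set Filter Topology
open scoped ENNReal
open Pool.Agent.N555.RZ (mP Spr)
open Pool.Agent.T2h52.SP Pool.Agent.T2h52.SQ

/-- the second moment of a bounded function with a weak type estimate -/
theorem sm_layer {Ω : Type*} [MeasurableSpace Ω] (μ : Measure Ω) [IsProbabilityMeasure μ]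
    (F : Ω → ℝ) (a c : ℝ) (hFm : Measurable F) (ha : 0 ≤ a) (hc0 : 0 ≤ c) (hF0 : ∀ x, 0 ≤ F x)
    (hF2 : ∀ x, F x ≤ 2 * a)
    (hwt : ∀ t : ℝ, 0 < t → μ {x | t ≤ F x} ≤ ENNReal.ofReal (c / t)) :
    Integrable (fun x => F x ^ 2) μ ∧ ∫ x, F x ^ 2 ∂μ ≤ 4 * a * c := by
  have hwt2 : ∀ t : ℝ, 2 * a < t → μ {x | t ≤ F x} = 0 := by
    intro t ht
    have : {x | t ≤ F x} = ∅ := by
      ext x
      simp only [Set.mem_ofPred_eq, Set.mem_empty_iff_false, iff_false, not_le]
      exact (hF2 x).trans_lt ht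
    rw [this, measure_empty]
  have hlc : ∫⁻ x, ENNReal.ofReal (F x ^ (2 : ℝ)) ∂μ ≤ ENNReal.ofReal (4 * a * c) := by
    rw [lintegral_rpow_eq_lintegral_meas_le_mul μ (Filter.Eventually.of_forall hF0)
      hFm.aemeasurable (by norm_num : (0 : ℝ) < 2)]
    have hb : ∫⁻ t in Ioi (0 : ℝ), μ {x | t ≤ F x} * ENNReal.ofReal (t ^ ((2 : ℝ) - 1)) ≤
        ∫⁻ t in Ioi (0 : ℝ), (Ioc (0 : ℝ) (2 * a)).indicator (fun _ => ENNReal.ofReal c) t := by
      refine setLIntegral_mono' measurableSet_Ioi ?_
      intro t ht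
      have ht0 : (0 : ℝ) < t := ht
      by_cases h2 : t ≤ 2 * a
      · rw [Set.indicator_of_mem (show t ∈ Ioc (0 : ℝ) (2 * a) from ⟨ht0, h2⟩)]
        calc μ {x | t ≤ F x} * ENNReal.ofReal (t ^ ((2 : ℝ) - 1))
            ≤ ENNReal.ofReal (c / t) * ENNReal.ofReal (t ^ ((2 : ℝ) - 1)) := by
              gcongr
              exact hwt t ht0
          _ = ENNReal.ofReal c := by
              rw [← ENNReal.ofReal_mul (by positivity)]
              congr 1
              have : t ^ ((2 : ℝ) - 1) = t := by norm_num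
              rw [this]
              field_simp
      · rw [hwt2 t (not_le.1 h2), zero_mul]
        exact bot_le
    calc ENNReal.ofReal 2 * ∫⁻ t in Ioi (0 : ℝ), μ {x | t ≤ F x} *
          ENNReal.ofReal (t ^ ((2 : ℝ) - 1))
        ≤ ENNReal.ofReal 2 * ∫⁻ t in Ioi (0 : ℝ),
            (Ioc (0 : ℝ) (2 * a)).indicator (fun _ => ENNReal.ofReal c) t := by gcongr
      _ ≤ ENNReal.ofReal 2 *
          ∫⁻ t, (Ioc (0 : ℝ) (2 * a)).indicator (fun _ => ENNReal.ofReal c) t := by
          gcongr
          exact Measure.restrict_le_self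
      _ = ENNReal.ofReal (4 * a * c) := by
          rw [lintegral_indicator measurableSet_Ioc, setLIntegral_const, Real.volume_Ioc,
            ← ENNReal.ofReal_mul (by positivity), ← ENNReal.ofReal_mul (by norm_num)]
          congr 1
          ring
  have hFi : Integrable (fun x => F x ^ 2) μ := by
    refine Integrable.of_bound (hFm.pow_const 2).aestronglyMeasurable ((2 * a) ^ 2)
      (Filter.Eventually.of_forall fun x => ?_)
    rw [Real.norm_of_nonneg (by positivity)]
    exact pow_le_pow_left₀ (hF0 x) (hF2 x) 2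
  refine ⟨hFi, ?_⟩
  rw [integral_eq_lintegral_of_nonneg_ae (Filter.Eventually.of_forall fun x => by positivity)
    (hFm.pow_const 2).aestronglyMeasurable]
  refine ENNReal.toReal_le_of_le_ofReal (by positivity) ?_
  refine le_trans (le_of_eq ?_) hlc
  refine lintegral_congr fun x => ?_
  congr 1
  exact (Real.rpow_two _).symm

theorem sm_ : V_SM := by
  intro d P a hd hP γ r ε' hr hε' hε1 hγ hγ' h1 h2
  have hP0 : P ∈ 𝓝 (0 : E d) := mem_interior_iff_mem_nhds.1 hP.int
  have hg := Pool.Agent.TH591.Ns.isG_gauge hP.conv hP0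
  have hvol0 : volume P ≠ 0 := by
    have : 0 < volume (interior P) := isOpen_interior.measure_pos _ ⟨0, hP.int⟩
    exact (this.trans_le (measure_mono interior_subset)).ne'
  have hvolt : volume P ≠ ⊤ := hP.comp.measure_lt_top.ne
  have := Pool.Agent.N555.RZ.mP_prob hvol0 hvolt
  have ha : 1 ≤ a := hP.one
  have ha0 : 0 ≤ a := by linarith
  set g : E d → ℝ := gauge P with hgd
  set ψ : E d → ℝ := fun z => fderiv ℝ g z γ with hψ
  have hmeas : Measurable ψ := measurable_fderiv_apply_const ℝ g γ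
  have hψle : ∀ x, ψ x ≤ 2 * a := fun x => (Pool.Agent.TH591.Ns.fderiv_le_g hg x γ).trans hγ
  have hψge : ∀ x, -ψ x ≤ 2 * a := by
    intro x
    have h3 := (Pool.Agent.TH591.Ns.fderiv_le_g hg x (-γ)).trans hγ'
    rw [map_neg] at h3
    exact h3
  have hd0 : (0 : ℝ) < d := by exact_mod_cast hd
  -- from volumes to the uniform measure
  have hmP : ∀ (S : Set (E d)) (b : ℝ), MeasurableSet S →
      volume {x | x ∈ P ∧ x ∈ S} ≤ ENNReal.ofReal b * volume P → (mP P) S ≤ ENNReal.ofReal b := by
    intro S b hS hb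
    have e : S ∩ P = {x | x ∈ P ∧ x ∈ S} := by
      ext x
      exact and_comm
    rw [mP, Measure.smul_apply, Measure.restrict_apply hS, smul_eq_mul, e]
    calc (volume P)⁻¹ * volume {x | x ∈ P ∧ x ∈ S}
        ≤ (volume P)⁻¹ * (ENNReal.ofReal b * volume P) := by gcongr
      _ = ENNReal.ofReal b * (volume P * (volume P)⁻¹) := by ring
      _ = _ := by rw [ENNReal.mul_inv_cancel hvol0 hvolt, mul_one]
  -- the negative part
  set c₁ : ℝ := 8 / 5 * (r + 1) / d with hc₁
  have hc₁0 : 0 ≤ c₁ := by positivity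
  obtain ⟨i1, j1⟩ := sm_layer (mP P) (fun x => max (-ψ x - ε') 0) a c₁
    ((hmeas.neg.sub_const ε').max measurable_const) ha0 hc₁0 (fun x => le_max_right _ _)
    (fun x => max_le (by have := hψge x; linarith) (by linarith)) (by
      intro t ht
      refine hmP _ _ (measurableSet_le measurable_const
        ((hmeas.neg.sub_const ε').max measurable_const)) ?_
      have e : 8 / 5 * (r + 1) / (d * t) = c₁ / t := by
        rw [hc₁]
        field_simp
      rw [← e]
      refine (measure_mono ?_).trans (h1 t ht)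
      rintro x ⟨hxP, hx⟩
      refine ⟨hxP, ?_⟩
      rcases le_max_iff.1 (show t ≤ max (-ψ x - ε') 0 from hx) with h | h
      · show ε' + t ≤ -ψ x
        linarith
      · linarith)
  -- the positive part
  set c₂ : ℝ := 16 / 5 * ((r + 1) / d + ε') with hc₂
  have hc₂0 : 0 ≤ c₂ := by positivity
  obtain ⟨i2, j2⟩ := sm_layer (mP P) (fun x => max (ψ x) 0) a c₂
    (hmeas.max measurable_const) ha0 hc₂0 (fun x => le_max_right _ _)
    (fun x => max_le (hψle x) (by linarith)) (by
      intro t ht
      refine hmP _ _ (measurableSet_le measurable_const (hmeas.max measurable_const)) ?_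
      have hs : 0 < (1 + ε')⁻¹ * t := by positivity
      have hle : 8 / 5 * (r + ε' * d + 1) / (d * ((1 + ε')⁻¹ * t)) ≤ c₂ / t := by
        have e : 8 / 5 * (r + ε' * d + 1) / (d * ((1 + ε')⁻¹ * t)) =
            8 / 5 * ((r + 1) / d + ε') * (1 + ε') / t := by
          field_simp
          ring
        rw [e]
        refine div_le_div_of_nonneg_right ?_ ht.le
        have h3 : 0 ≤ 8 / 5 * ((r + 1) / d + ε') := by positivity
        rw [hc₂]
        nlinarith
      refine (measure_mono ?_).trans ((h2 ((1 + ε')⁻¹ * t) hs).trans ?_)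
      · rintro x ⟨hxP, hx⟩
        refine ⟨hxP, ?_⟩
        have h4 : t ≤ ψ x := by
          rcases le_max_iff.1 (show t ≤ max (ψ x) 0 from hx) with h | h
          · exact h
          · linarith
        rw [map_neg, map_smul, neg_neg, smul_eq_mul, zero_add]
        exact mul_le_mul_of_nonneg_left h4 (by positivity)
      · gcongr)
  have hψi : Integrable (fun x => ψ x ^ 2) (mP P) := by
    refine Integrable.of_bound (hmeas.pow_const 2).aestronglyMeasurable ((2 * a) ^ 2)
      (Filter.Eventually.of_forall fun x => ?_)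
    rw [Real.norm_of_nonneg (by positivity), ← sq_abs]
    refine pow_le_pow_left₀ (abs_nonneg _) ?_ 2
    rw [abs_le]
    have h5 := hψle x
    have h6 := hψge x
    exact ⟨by linarith, h5⟩
  have i3 : Integrable (fun z => 2 * ε' ^ 2 + 2 * (max (-ψ z - ε') 0) ^ 2) (mP P) :=
    (integrable_const _).add (i1.const_mul 2)
  calc ∫ z, ψ z ^ 2 ∂(mP P)
      ≤ ∫ z, ((2 * ε' ^ 2 + 2 * (max (-ψ z - ε') 0) ^ 2) + (max (ψ z) 0) ^ 2) ∂(mP P) := by
        refine integral_mono hψi (i3.add i2) ?_
        intro x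
        show ψ x ^ 2 ≤ (2 * ε' ^ 2 + 2 * (max (-ψ x - ε') 0) ^ 2) + (max (ψ x) 0) ^ 2
        rcases le_total 0 (ψ x) with h | h
        · rw [max_eq_left h]
          have h5 : 0 ≤ 2 * ε' ^ 2 + 2 * (max (-ψ x - ε') 0) ^ 2 := by positivity
          linarith
        · rw [max_eq_right h]
          have h5 := le_max_left (-ψ x - ε') 0
          have h6 := le_max_right (-ψ x - ε') 0
          set F := max (-ψ x - ε') 0
          have h7 : ψ x ^ 2 ≤ (ε' + F) ^ 2 := by
            apply sq_le_sq'
            · linarith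
            · linarith
          nlinarith [sq_nonneg (ε' - F)]
    _ = (2 * ε' ^ 2 + 2 * ∫ z, (max (-ψ z - ε') 0) ^ 2 ∂(mP P)) + ∫ z, (max (ψ z) 0) ^ 2 ∂(mP P) := by
        rw [integral_add i3 i2,
          integral_add (integrable_const _) (i1.const_mul 2), integral_const, integral_const_mul]
        simp
    _ ≤ (2 * ε' ^ 2 + 2 * (4 * a * c₁)) + 4 * a * c₂ := by
        gcongr
    _ ≤ 2 * ε' ^ 2 + 128 / 5 * a * ((r + 1) / d + ε') := by
        have e : 2 * (4 * a * c₁) = 64 / 5 * a * ((r + 1) / d) := by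
          rw [hc₁]
          ring
        have e2 : 4 * a * c₂ = 64 / 5 * a * ((r + 1) / d + ε') := by
          rw [hc₂]
          ring
        rw [e, e2]
        have h8 : 0 ≤ a * ε' := by positivity
        nlinarith

end Pool.Agent.T2h52.SO
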