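import Pool.Agent.T2h52.SO.Stm

/-! TGM, project SO (helper33). -/

set_option autoImplicit false

namespace Pool.Agent.T2h52.SO

open MeasureTheory
open scoped ENNReal InnerProductSpace Pointwise
open Pool.Agent.T2h52.SP
open Pool.Agent.T2h52.SQ

lemma half_sum' {m : ℕ} (y : Fin m → ℝ) (hy : ∀ i, 0 ≤ y i) {q : ℝ} (hq : 0 < q) :
    (∑ i, (y i / 2) ^ q) ^ (1 / q) = (∑ i, y i ^ q) ^ (1 / q) / 2 := by
  have h1 : ∑ i, (y i / 2) ^ q = (1 / 2 : ℝ) ^ q * ∑ i, y i ^ q := by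
    rw [Finset.mul_sum]
    refine Finset.sum_congr rfl fun i _ => ?_
    rw [← Real.mul_rpow (by norm_num) (hy i)]
    congr 1
    ring
  rw [h1, Real.mul_rpow (Real.rpow_nonneg (by norm_num) _)
    (Finset.sum_nonneg fun i _ => Real.rpow_nonneg (hy i) _), ← Real.rpow_mul (by norm_num),
    mul_one_div_cancel hq.ne', Real.rpow_one]
  ring

theorem tgm (h1 : V_TRB) (h2 : V_TWO) (h3 : U_TGM) : V_TGM := by
  intro d P Q a p T b hd hP hb hI hQ hle hp hp2 hT hZ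
  obtain ⟨⟨a', hB⟩, hIso⟩ := h1 d P a b hP hb
  obtain ⟨hQ2, hle2, hsc, hgm⟩ := h2 d P Q a b hP hb hQ hle
  have hZ2 : TY p T (gauge ((2 : ℝ) • Q)) := by
    intro m x
    have h4 := hZ m x
    simp only [hsc]
    rw [half_sum' (fun i => gauge Q (x i)) (fun i => gauge_nonneg _) (by linarith),
      ← Finset.sum_div, div_right_comm]
    linarith
  have h4 := h3 d (tr P b) ((2 : ℝ) • Q) a' p T hd hB (hIso hI) hQ2 hle2 hp hp2 hT hZ2
  rw [hgm] at h4
  linarith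

end Pool.Agent.T2h52.SO
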