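import Pool.Agent.T2h52.SO.Stm

/-! TNU, project SO (helper33). -/

set_option autoImplicit false

namespace Pool.Agent.T2h52.SO

open Pool.Agent.T2h52.SP
open Pool.Agent.T2h52.SQ

theorem tnu (h : U_TNU) : V_TNU := by
  intro d p q T B C hd hp hp2 hq hT hB hC hX
  have e1 : 10 ^ 13 * T * B * (2 * C) ^ 2 * Real.log (d + 1) ^ 3 =
      4 * 10 ^ 13 * T * B * C ^ 2 * Real.log (d + 1) ^ 3 := by ring
  obtain ⟨h1, h2, h3⟩ := h d p q T B (2 * C) hd hp hp2 hq hT hB (by linarith)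
    (by rw [e1]; exact hX)
  set Y := (d * Real.log (d + 1)) ^ (1 / p - 1 / 2) with hY
  have hL : 0 ≤ Real.log ((d : ℝ) + 1) := Real.log_nonneg (by
    have : (0 : ℝ) ≤ d := Nat.cast_nonneg d
    linarith)
  have hY0 : 0 ≤ Y := Real.rpow_nonneg (by positivity) _
  have e2 : 2 * C * (3 * 10 ^ 8 * T * Y) = C * (6 * 10 ^ 8 * T * Y) := by ring
  rw [e2] at h2 h3
  refine ⟨?_, h2, le_trans ?_ h3⟩
  · have e3 : 6 * 10 ^ 8 * T * Y = 2 * (3 * 10 ^ 8 * T * Y) := by ring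
    rw [e3]; linarith
  · have hA : 0 ≤ (10 ^ 12 * B * (2 * C) ^ 2 * Real.log (d + 1) ^ 3) ^ (11 * q) :=
      Real.rpow_nonneg (by positivity) _
    have hB' : 0 ≤ (C * (6 * 10 ^ 8 * T * Y)) ^ ((1 : ℝ) / 2) :=
      Real.rpow_nonneg (by positivity) _
    refine mul_le_mul_of_nonneg_left ?_ hA
    refine mul_le_mul_of_nonneg_right ?_ hB'
    linarith

end Pool.Agent.T2h52.SO
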