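import Pool.Agent.T2h52.SO.BAR
import Pool.Agent.T2h52.SO.MTR

/-!
# TRB: the translate of a body to its barycentre
-/

set_option autoImplicit false

namespace Pool.Agent.T2h52.SO

open MeasureTheory Set Filter Topology
open scoped ENNReal InnerProductSpace Pointwise
open Pool.Agent.N555.RZ (mP)
open Pool.Agent.T2h52.SP
open Pool.Agent.T2h52.SQ

theorem trb (hB : V_BAR) (hM : V_MTR) : V_TRB := by
  intro d P a b h hb
  have hprob := BAR.prob h
  have hms : MeasurableSet P := h.comp.isClosed.measurableSet
  have hcont : Continuous fun x : E d => x - b := continuous_id.sub continuous_const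
  have hbi : b ∈ interior P := hB d P a b h hb
  have hi : interior (tr P b) = tr (interior P) b := by
    have h := (Homeomorph.subRight b).image_interior P
    simpa [tr] using h.symm
  have h0 : (0 : E d) ∈ interior (tr P b) := by
    rw [hi]
    exact ⟨b, hbi, sub_self b⟩
  have hconv : Convex ℝ (tr P b) := by
    have e : tr P b = (fun x => b + x) ⁻¹' P := by
      rw [MTR.trpre]
      ext x
      simp [add_comm]
    rw [e]
    exact h.conv.translate_preimage_right b
  have hcomp : IsCompact (tr P b) := h.comp.image hcont
  refine ⟨?_, fun hI w => ?_⟩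
  · obtain ⟨r, hr, hball⟩ := Metric.mem_nhds_iff.mp (mem_interior_iff_mem_nhds.mp h0)
    obtain ⟨R, hR⟩ := hcomp.isBounded.subset_closedBall (0 : E d)
    have hR0 : 0 ≤ R := by
      have := hR (interior_subset h0)
      simpa using this
    refine ⟨max 1 ((R + 1) / r), ⟨hconv, hcomp, h0, le_max_left _ _, fun x hx => ?_,
      fun w => ?_⟩⟩
    · apply hball
      have hx' : ‖x‖ ≤ R := by simpa using hR hx
      have hm : 0 < max 1 ((R + 1) / r) := lt_of_lt_of_le one_pos (le_max_left _ _)
      rw [mem_ball_zero_iff, norm_neg, norm_smul, Real.norm_eq_abs, abs_of_pos (inv_pos.mpr hm),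
        inv_mul_lt_iff₀ hm]
      have h2 : (R + 1) / r ≤ max 1 ((R + 1) / r) := le_max_right _ _
      have h3 : (R + 1) / r * r ≤ max 1 ((R + 1) / r) * r := mul_le_mul_of_nonneg_right h2 hr.le
      rw [div_mul_cancel₀ _ hr.ne'] at h3
      linarith
    · rw [hM d P b hms, integral_map hcont.measurable.aemeasurable
        (continuous_id.inner continuous_const).aestronglyMeasurable]
      have e : ∀ z : E d, ⟪z - b, w⟫_ℝ = ⟪z, w⟫_ℝ - ⟪b, w⟫_ℝ := fun z => inner_sub_left _ _ _
      simp_rw [e]
      have hint : Integrable (fun z : E d => ⟪z, w⟫_ℝ) (mP P) := by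
        have := (innerSL ℝ w).integrable_comp (BAR.int_id h)
        refine this.congr (Eventually.of_forall fun z => ?_)
        simp only [innerSL_apply_apply]
        exact real_inner_comm _ _
      rw [integral_sub hint (integrable_const _), hb w]
      simp
  · rw [hM d P b hms, integral_map hcont.measurable.aemeasurable
      ((continuous_id.inner continuous_const).pow 2).aestronglyMeasurable]
    exact hI w

end Pool.Agent.T2h52.SO
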