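import Pool.Agent.T2h52.SO.LOW

/-!
Task UPP: upper bound for the volume of `P \ (P + ty)`.
-/

set_option autoImplicit false

namespace Pool.Agent.T2h52.SO

open MeasureTheory Set Filter Topology
open scoped ENNReal InnerProductSpace Pointwise
open Pool.Agent.T2h52.SP
open Pool.Agent.TH591.Ns (isG_gauge ball_eq vol_ball fderiv_le fderiv_le_g IsG)
open LOW

namespace UPP

theorem pow_up (d : ℕ) (s : ℝ) (hs0 : 0 ≤ s) (hs1 : d * s ≤ 1) : (1 + s) ^ d ≤ 1 + d * s + (d * s) ^ 2 := by
  have hd0 : (0 : ℝ) ≤ d := Nat.cast_nonneg d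
  have h1 : 1 + s ≤ Real.exp s := by linarith [Real.add_one_le_exp s]
  have h2 : 0 ≤ d * s := mul_nonneg hd0 hs0
  have h3 := Real.abs_exp_sub_one_sub_id_le (x := d * s) (by rw [abs_of_nonneg h2]; exact hs1)
  have h4 := (abs_le.1 h3).2
  calc (1 + s) ^ d ≤ Real.exp s ^ d := pow_le_pow_left₀ (by linarith) h1 d
    _ = Real.exp (d * s) := (Real.exp_nat_mul _ _).symm
    _ ≤ _ := by linarith

end UPP

theorem upp (hC : V_CON) : V_UPP := by
  intro d P a hd hP y t ht hdt
  have hPm : MeasurableSet P := hP.comp.isClosed.measurableSet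
  have hfin : volume P ≠ ⊤ := hP.comp.measure_lt_top.ne
  have : IsFiniteMeasure (volume.restrict P) := ⟨by rw [Measure.restrict_apply_univ]; exact hP.comp.measure_lt_top⟩
  have hd1 : (1 : ℝ) ≤ d := by exact_mod_cast hd
  obtain ⟨G, hG⟩ : ∃ G : ℝ, G = gauge P (-y) := ⟨_, rfl⟩
  have hG0 : 0 ≤ G := by rw [hG]; exact gauge_nonneg _
  rw [← hG] at hdt ⊢
  have hNG : ∀ x, Ng P y x ≤ G := fun x => by rw [hG]; exact le_g hP y x
  have hdN : ∀ x, d * (t * Ng P y x) ≤ 1 := fun x => by
    rw [← mul_assoc]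
    exact (mul_le_mul_of_nonneg_left (hNG x) (by positivity)).trans hdt
  have htN : ∀ x, t * Ng P y x ≤ 1 := fun x => by
    have h1 := mul_nonneg ht.le (nonneg (P := P) y x)
    nlinarith [hdN x]
  set ψ : E d → ℝ := fun x => 1 + t * Ng P y x with hψ
  have hψm : Measurable ψ := measurable_const.add ((meas y).const_mul t)
  have hψ2 : ∀ x, ψ x ≤ 2 := fun x => by have := htN x; simp only [hψ]; linarith
  have hψ1 : ∀ x, 1 ≤ ψ x := fun x => by
    have := mul_nonneg ht.le (nonneg (P := P) y x)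
    simp only [hψ]; linarith
  have hψ0 : ∀ x, 0 ≤ ψ x := fun x => zero_le_one.trans (hψ1 x)
  have hcon := hC d P a hd hP ψ 2 hψm hψ0 hψ2 (fun s hs x => by simp only [hψ]; rw [homog hP y s hs])
  set A : Set (E d) := {x | gauge P x ≤ ψ x} with hA
  have hK0 : P ∈ 𝓝 0 := mem_interior_iff_mem_nhds.1 hP.int
  have hg := isG_gauge hP.conv hK0
  have hPA : P ⊆ A := fun x hx => le_trans ((mem_iff hP x).1 hx) (hψ1 x)
  have hAfin : volume A ≠ ⊤ := by
    have h2 : A ⊆ {x | gauge P x ≤ 2} := fun x hx => le_trans hx (hψ2 x)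
    refine measure_ne_top_of_subset h2 ?_
    rw [vol_ball hg 2 two_pos, ball_eq hP.conv hP.comp hK0]
    exact ENNReal.mul_ne_top ENNReal.ofReal_ne_top hfin
  have htrans : volume {x | x ∈ P ∧ x - t • y ∉ P} = volume {z | z ∉ P ∧ z + t • y ∈ P} := by
    rw [← measure_preimage_add_right volume (t • y) {x | x ∈ P ∧ x - t • y ∉ P}]
    congr 1
    ext z
    simp only [mem_preimage, mem_ofPred_eq, add_sub_cancel_right]
    exact and_comm
  rw [htrans]
  have hle : volume {z | z ∉ P ∧ z + t • y ∈ P} ≤ volume (A \ P) := by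
    refine measure_mono_ae ?_
    filter_upwards [diff_ae hP] with x hx hxP
    obtain ⟨hx1, hx2⟩ : x ∉ P ∧ x + t • y ∈ P := hxP
    refine ⟨?_, hx1⟩
    have h3 : gauge P (x + t • y) ≤ 1 := (mem_iff hP _).1 hx2
    have h4 := fderiv_le hg x (t • y) hx
    rw [map_smul, smul_eq_mul] at h4
    have h5 : -(fderiv ℝ (gauge P) x y) ≤ Ng P y x := le_max_left _ _
    show gauge P x ≤ 1 + t * Ng P y x
    nlinarith [mul_le_mul_of_nonneg_left h5 ht.le]
  have hdiff : (volume (A \ P)).toReal = (volume A).toReal - (volume P).toReal := by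
    rw [measure_sdiff hPA hPm.nullMeasurableSet hfin, ENNReal.toReal_sub_of_le (measure_mono hPA) hAfin]
  have hle' : (volume {z | z ∉ P ∧ z + t • y ∈ P}).toReal ≤ (volume (A \ P)).toReal :=
    ENNReal.toReal_mono (measure_ne_top_of_subset sdiff_subset hAfin) hle
  refine hle'.trans ?_
  rw [hdiff, hcon]
  have iN := integ hP y
  have iψ : IntegrableOn (fun x => ψ x ^ d) P := by
    refine Measure.integrableOn_of_bounded (M := 2 ^ d) hfin (hψm.pow_const d).aestronglyMeasurable
      (Filter.Eventually.of_forall fun x => ?_)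
    rw [Real.norm_of_nonneg (pow_nonneg (hψ0 x) d)]
    exact pow_le_pow_left₀ (hψ0 x) (hψ2 x) d
  have i1 : Integrable (fun _ : E d => (1 + (d * t * G) ^ 2 : ℝ)) (volume.restrict P) :=
    integrable_const _
  have key : ∫ x in P, ψ x ^ d ≤ ∫ x in P, ((1 + (d * t * G) ^ 2) + d * t * Ng P y x) := by
    refine setIntegral_mono iψ (i1.add (iN.const_mul _)) fun x => ?_
    have h1 := UPP.pow_up d (t * Ng P y x) (mul_nonneg ht.le (nonneg y x)) (hdN x)
    have h2 : (d * (t * Ng P y x)) ^ 2 ≤ (d * t * G) ^ 2 := by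
      refine pow_le_pow_left₀ (by have := nonneg (P := P) y x; positivity) ?_ 2
      rw [← mul_assoc]
      exact mul_le_mul_of_nonneg_left (hNG x) (by positivity)
    simp only [hψ]
    rw [mul_assoc (d : ℝ) t (Ng P y x)]
    linarith
  rw [integral_add i1 (iN.const_mul _), integral_const_mul, setIntegral_const, smul_eq_mul] at key
  have hN : ∫ x in P, max (-(fderiv ℝ (gauge P) x y)) 0 = ∫ x in P, Ng P y x := rfl
  rw [hN]
  have hr : volume.real P = (volume P).toReal := rfl
  rw [hr] at key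
  linarith

end Pool.Agent.T2h52.SO
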