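import Pool.Agent.T2h52.SO.Stm

/-! ZGM, project SO (helper33). -/

set_option autoImplicit false

namespace Pool.Agent.T2h52.SO

open MeasureTheory
open scoped ENNReal InnerProductSpace Pointwise
open Pool.Agent.T2h52.SP
open Pool.Agent.T2h52.SQ

theorem zgm (h1 : V_TRB) (h2 : V_TWO) (h3 : U_ZGM) : V_ZGM := by
  intro d P Q a b hP hb hI hQ hle hZ
  obtain ⟨⟨a', hB⟩, hIso⟩ := h1 d P a b hP hb
  obtain ⟨hQ2, hle2, hsc, hgm⟩ := h2 d P Q a b hP hb hQ hle
  have hZ2 : ZC 1 (gauge ((2 : ℝ) • Q)) := by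
    obtain ⟨n, ⟨μ, hμ, hint, hn⟩, hng⟩ := hZ
    refine ⟨fun u => n u / 2, ⟨(ENNReal.ofReal (1 / 2)) • μ, ?_, ?_, ?_⟩, ?_⟩
    · exact Measure.smul_finite μ ENNReal.ofReal_ne_top
    · exact hint.smul_measure ENNReal.ofReal_ne_top
    · intro u
      show n u / 2 = _
      rw [integral_smul_measure, ENNReal.toReal_ofReal (by norm_num), hn u, smul_eq_mul]
      ring
    · intro u
      rw [hsc]
      show n u / 2 ≤ gauge Q u / 2 ∧ gauge Q u / 2 ≤ 1 * (n u / 2)
      have := hng u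
      constructor
      · linarith [this.1]
      · linarith [this.2]
  have h4 := h3 d (tr P b) ((2 : ℝ) • Q) a' hB (hIso hI) hQ2 hle2 hZ2
  rw [hgm] at h4
  linarith

end Pool.Agent.T2h52.SO
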