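import Pool.Agent.T2h52.SQ.All
import Pool.Agent.T2h52.SO.BAR
import Pool.Agent.T2h52.SO.BM
import Pool.Agent.T2h52.SO.CONE
import Pool.Agent.T2h52.SO.CRT
import Pool.Agent.T2h52.SO.CTR
import Pool.Agent.T2h52.SO.EIG
import Pool.Agent.T2h52.SO.EXM
import Pool.Agent.T2h52.SO.FCO
import Pool.Agent.T2h52.SO.FLA
import Pool.Agent.T2h52.SO.FLT
import Pool.Agent.T2h52.SO.Fin
import Pool.Agent.T2h52.SO.GEN
import Pool.Agent.T2h52.SO.GSY
import Pool.Agent.T2h52.SO.HAF
import Pool.Agent.T2h52.SO.IMG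
import Pool.Agent.T2h52.SO.ISO
import Pool.Agent.T2h52.SO.LAM
import Pool.Agent.T2h52.SO.LGM
import Pool.Agent.T2h52.SO.LOW
import Pool.Agent.T2h52.SO.MAI
import Pool.Agent.T2h52.SO.MNA
import Pool.Agent.T2h52.SO.MTR
import Pool.Agent.T2h52.SO.NUM
import Pool.Agent.T2h52.SO.POL
import Pool.Agent.T2h52.SO.REV
import Pool.Agent.T2h52.SO.SM
import Pool.Agent.T2h52.SO.SPR
import Pool.Agent.T2h52.SO.TGM
import Pool.Agent.T2h52.SO.TNU
import Pool.Agent.T2h52.SO.TRB
import Pool.Agent.T2h52.SO.TWO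
import Pool.Agent.T2h52.SO.UPP
import Pool.Agent.T2h52.SO.WEA
import Pool.Agent.T2h52.SO.ZGM

/-!
# The spread inequality about an arbitrary interior point: the theorems without hypotheses
-/

set_option autoImplicit false

namespace Pool.Agent.T2h52.SO

open Pool.Agent.T2h52.SP

theorem z_trb : V_TRB := trb bar mtr

theorem z_fla : V_FLA := fla (flt (low con) (upp con))

theorem z_fco : V_FCO := fco z_fla bar ctr

theorem z_mna : V_MNA := mna gen bar z_trb mtr

theorem z_mai : V_MAI := mai z_fco z_mna SQ.rad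

theorem z_haf : V_HAF := haf SQ.z_haf z_trb

theorem z_exm : V_EXM := exm SQ.exm z_trb mtr

theorem z_lam : V_LAM := lam z_haf SQ.law z_exm SQ.z_plb z_mon SQ.z_big SQ.z_ovl SP.sud bm wea sm_
  eig (SP.ent z_zn) gsy rev

theorem z_spr : V_SPR := spr z_lam

theorem z_iso : V_ISO := iso z_trb mtr

theorem z_crt : V_CRT := crt img z_spr z_mai

theorem z_zgm : V_ZGM := zgm z_trb two SQ.z_zgm

theorem z_lgm : V_LGM := lgm z_trb two SQ.z_lgm

theorem z_tgm : V_TGM := tgm z_trb two SQ.z_tgm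

theorem z_num : V_NUM := num SQ.num

theorem z_tnu : V_TNU := tnu SQ.tnu

end Pool.Agent.T2h52.SO
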