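import Pool.Agent.T2h52.SO.Stm

/-!
# Translates: elementary facts (helper2)
-/

set_option autoImplicit false

namespace Pool.Agent.T2h52.SO

open MeasureTheory Set Filter Topology
open scoped ENNReal InnerProductSpace Pointwise
open Pool.Agent.N555.RZ (mP Spr)
open Pool.Agent.T2h52.SP
open Pool.Agent.T2h52.SQ

theorem tr_eq {d : ℕ} (P : Set (E d)) (b : E d) : tr P b = (fun x => x + b) ⁻¹' P := by
  ext x
  constructor
  · rintro ⟨y, hy, rfl⟩
    show y - b + b ∈ P
    rwa [sub_add_cancel]
  · intro hx
    exact ⟨x + b, hx, by simp⟩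

theorem mem_tr {d : ℕ} {P : Set (E d)} {b x : E d} : x ∈ tr P b ↔ x + b ∈ P := by
  rw [tr_eq]
  rfl

theorem tr_measurable {d : ℕ} {P : Set (E d)} (hP : MeasurableSet P) (b : E d) :
    MeasurableSet (tr P b) := by
  rw [tr_eq]
  exact (measurable_id.add_const b) hP

theorem vol_tr {d : ℕ} (P : Set (E d)) (b : E d) : volume (tr P b) = volume P := by
  rw [tr_eq]
  exact measure_preimage_add_right volume b P

/-- integrals over translates -/
theorem int_tr {d : ℕ} {P : Set (E d)} (b : E d) (f : E d → ℝ) :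
    ∫ x in tr P b, f x = ∫ x in P, f (x - b) := by
  have h := (measurePreserving_sub_right (volume : Measure (E d)) b)
  have he : MeasurableEmbedding fun x : E d => x - b :=
    (MeasurableEquiv.subRight b).measurableEmbedding
  have h1 := h.setIntegral_preimage_emb he f (tr P b)
  rw [← h1]
  have e : (fun x : E d => x - b) ⁻¹' tr P b = P := by
    ext x
    show x - b ∈ tr P b ↔ x ∈ P
    rw [mem_tr, sub_add_cancel]
  rw [e]

theorem tr_interior {d : ℕ} {P : Set (E d)} {b x : E d} (h : x + b ∈ interior P) :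
    x ∈ interior (tr P b) := by
  rw [tr_eq]
  exact preimage_interior_subset_interior_preimage (continuous_id.add continuous_const) h

/-- the translate is a body -/
theorem tr_bo {d : ℕ} {P : Set (E d)} {a : ℝ} (hP : Bo P a) {b : E d} (hb : b ∈ interior P) :
    ∃ a' : ℝ, Bo (tr P b) a' := by
  have hcomp : IsCompact (tr P b) := hP.comp.image (continuous_id.sub continuous_const)
  have hint : (0 : E d) ∈ interior (tr P b) := tr_interior (by rwa [zero_add])
  have hconv : Convex ℝ (tr P b) := by
    rw [tr_eq]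
    exact hP.conv.translate_preimage_left b
  obtain ⟨r, hr, hball⟩ := Metric.mem_nhds_iff.1 (mem_interior_iff_mem_nhds.1 hint)
  obtain ⟨R, hR⟩ := hcomp.isBounded.exists_norm_le
  refine ⟨max 1 (2 * R / r), hconv, hcomp, hint, le_max_left _ _, fun x hx => hball ?_⟩
  have ha : 0 < max 1 (2 * R / r) := lt_of_lt_of_le one_pos (le_max_left _ _)
  rw [mem_ball_zero_iff, norm_neg, norm_smul, norm_inv, Real.norm_eq_abs, abs_of_pos ha]
  have h1 := hR x hx
  rcases le_or_gt R 0 with h0 | h0
  · have : ‖x‖ = 0 := le_antisymm (h1.trans h0) (norm_nonneg _)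
    rw [this, mul_zero]
    exact hr
  · rw [inv_mul_lt_iff₀ ha]
    have h2 : 2 * R / r ≤ max 1 (2 * R / r) := le_max_right _ _
    rw [div_le_iff₀ hr] at h2
    nlinarith

end Pool.Agent.T2h52.SO
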