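import Pool.Agent.T2h52.SQ.Stm
import Pool.Agent.Results.MP_eba1ef_gt.AsymmetricThinSlabs

/-!
# The spread inequality with respect to an arbitrary interior point: statements

Each `V_XXX : Prop` is proved in a file `Pool/Agent/T2h52/SO/XXX.lean` as
`theorem xxx (hypotheses, other V_'s, U_'s, T_'s or library theorems) : V_XXX`.

`P` is a convex body with `0` in the interior and `-P ⊆ a P`; the gauge is about the point `0`. The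
barycentre `b` of `P` need not be `0`. The case `b = 0` is in the folder `SQ` (structure `Bn`).
-/

set_option autoImplicit false

namespace Pool.Agent.T2h52.SO

open MeasureTheory Set Filter Topology
open scoped ENNReal InnerProductSpace Pointwise
open Pool.Agent.H888R2.KT (gs gc)
open Pool.Agent.R755.KF (zn aff sd PB PL3 PLH)
open Pool.Agent.N555.RZ (mP Spr)
open Pool.Agent.T2h52.SP
open Pool.Agent.T2h52.SQ

/-- convex bodies with `0` in the interior and `-P ⊆ a P` -/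
structure Bo {d : ℕ} (P : Set (E d)) (a : ℝ) : Prop where
  conv : Convex ℝ P
  comp : IsCompact P
  int : 0 ∈ interior P
  one : 1 ≤ a
  asym : ∀ x ∈ P, -(a⁻¹ • x) ∈ P

/-- the barycentre of `P` is `b` -/
def Bc {d : ℕ} (P : Set (E d)) (b : E d) : Prop :=
  ∀ w : E d, ∫ z, ⟪z, w⟫_ℝ ∂(mP P) = ⟪b, w⟫_ℝ

/-- the covariance is the identity -/
def Ic {d : ℕ} (P : Set (E d)) (b : E d) : Prop :=
  ∀ w : E d, ∫ z, ⟪z - b, w⟫_ℝ ^ 2 ∂(mP P) = ‖w‖ ^ 2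

/-- the translate `P - b` -/
def tr {d : ℕ} (P : Set (E d)) (b : E d) : Set (E d) := (fun x => x - b) '' P

/-- the part `{x ∈ P | c ≤ ⟪x - b, e⟫}` -/
def hs {d : ℕ} (P : Set (E d)) (b : E d) (c : ℝ) (e : E d) : Set (E d) :=
  {x | x ∈ P ∧ c ≤ ⟪x - b, e⟫_ℝ}

/-- fewer than `2^d` translates of the interior cover -/
def Cv {d : ℕ} (P : Set (E d)) : Prop :=
  ∃ T : Finset (E d), P ⊆ ⋃ t ∈ T, (fun x => t + x) '' interior P ∧ T.card < 2 ^ d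

/-! ### Translations -/

/-- BAR. The barycentre is an interior point.
Proof. `b ∈ P` as in `N555.RZ.bary` (or `Convex.integral_mem`). If `b` is not interior there is a
functional `f ≠ 0` with `f x ≤ f b` on `P` (`geometric_hahn_banach_open_point` for `interior P`);
`∫ (f b - f x) dmP = 0`, so `f x = f b` for almost all `x ∈ P`, but the open set
`{x ∈ interior P | f x < f b}` is not empty (`x = s b`, or move from an interior point). -/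
def V_BAR : Prop := ∀ (d : ℕ) (P : Set (E d)) (a : ℝ) (b : E d), Bo P a → Bc P b → b ∈ interior P

/-- MTR. Proof. `mP A = (volume A)⁻¹ • volume.restrict A`, and `x ↦ x - b` preserves `volume`. -/
def V_MTR : Prop := ∀ (d : ℕ) (A : Set (E d)) (b : E d), MeasurableSet A →
  mP (tr A b) = (mP A).map fun x => x - b

/-- TRB. The translate is a body with barycentre `0` (and some constant of asymmetry `a'`).
Proof. `V_BAR`, `V_MTR`; if the ball of radius `r` is in `tr P b` and `tr P b` in that of radius `R`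
then `a' = max 1 (R/r)`. -/
def V_TRB : Prop := ∀ (d : ℕ) (P : Set (E d)) (a : ℝ) (b : E d), Bo P a → Bc P b →
  (∃ a' : ℝ, Bn (tr P b) a') ∧ (Ic P b → Iso (tr P b))

/-- CTR. Proof. Elementary; `interior (tr P b) = tr (interior P) b`. -/
def V_CTR : Prop := ∀ (d : ℕ) (P : Set (E d)) (b : E d), Cv (tr P b) → Cv P

/-! ### The flatness about the barycentre and the gauge about `0` -/

/-- CON. The volume of a star-shaped set.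
Proof. For a measurable set `C` with `s C = C` (`s > 0`) one has `|C ∩ {gauge P ≤ s}| = s^d |C ∩ P|`. Let
`C_j = {x | j/k ≤ ψ x < (j+1)/k}`, `j ≤ k M`: `{gauge P ≤ ψ} ⊆ ⋃_j C_j ∩ {gauge P ≤ (j+1)/k}`, so the left
side is at most `∫_P (ψ + 1/k)^d`, similarly it is at least `∫_P (max (ψ - 1/k) 0)^d`; `k → ∞`. (Or polar
coordinates: `MeasureTheory.Measure.measurePreserving_homeomorphUnitSphereProd`.) -/
def V_CON : Prop := ∀ (d : ℕ) (P : Set (E d)) (a : ℝ), 1 ≤ d → Bo P a → ∀ (ψ : E d → ℝ) (M : ℝ),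
  Measurable ψ → (∀ x, 0 ≤ ψ x) → (∀ x, ψ x ≤ M) → (∀ s : ℝ, 0 < s → ∀ x, ψ (s • x) = ψ x) →
  (volume {x : E d | gauge P x ≤ ψ x}).toReal = ∫ x in P, ψ x ^ d

/-- LOW. Lower bound for `|P \ (P + ty)|`. Let `N x = max (-(g'(x) y)) 0 ≤ gauge P (-y)`.
Proof. `g (x - t y) ≥ g x - t g'(x) y` (`TH591.Ns.fderiv_le`) where `g` is differentiable, so up to a null
set `P \ {g ≤ 1 - t N} ⊆ {x ∈ P | x - t y ∉ P}`. By `V_CON` (`ψ = 1 - t N ≥ 0`; `g'(s x) = g'(x)`, `s > 0`)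
`|P| - |{g ≤ 1 - t N}| = ∫_P (1 - (1 - t N)^d)` and `1 - (1 - s)^d ≥ d s - (d s)²` for `0 ≤ s ≤ 1`. -/
def V_LOW : Prop := ∀ (d : ℕ) (P : Set (E d)) (a : ℝ), 1 ≤ d → Bo P a → ∀ (y : E d) (t : ℝ), 0 < t →
  d * t * gauge P (-y) ≤ 1 →
  d * t * (∫ x in P, max (-(fderiv ℝ (gauge P) x y)) 0) -
    (d * t * gauge P (-y)) ^ 2 * (volume P).toReal ≤
    (volume {x | x ∈ P ∧ x - t • y ∉ P}).toReal

/-- UPP. Upper bound.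
Proof. Translate by `-t y`: the set becomes `{x | x ∉ P ∧ x + t y ∈ P}`; there
`1 ≥ g (x + t y) ≥ g x + t g'(x) y` (where `g` is differentiable), so it is up to a null set a subset
of `{g ≤ 1 + t N} \ P`, of volume `∫_P ((1 + t N)^d - 1)` (`V_CON`), and `(1 + s)^d - 1 ≤ d s + (d s)²`
for `0 ≤ d s ≤ 1`. -/
def V_UPP : Prop := ∀ (d : ℕ) (P : Set (E d)) (a : ℝ), 1 ≤ d → Bo P a → ∀ (y : E d) (t : ℝ), 0 < t →
  d * t * gauge P (-y) ≤ 1 →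
  (volume {x | x ∈ P ∧ x - t • y ∉ P}).toReal ≤
    d * t * (∫ x in P, max (-(fderiv ℝ (gauge P) x y)) 0) +
      (d * t * gauge P (-y)) ^ 2 * (volume P).toReal

/-- FLT. The integral does not depend on the base point.
Proof. `{x ∈ tr P b | x - t y ∉ tr P b}` is a translate of `{x ∈ P | x - t y ∉ P}`. By `V_LOW` for one
body and `V_UPP` for the other (in both directions), `d t |I - I'| ≤ c t²` for all small `t > 0`.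
(`tr P b` satisfies `Bo` for some constant as `b ∈ interior P`.) -/
def V_FLT : Prop := ∀ (d : ℕ) (P : Set (E d)) (a : ℝ), 1 ≤ d → Bo P a → ∀ b y : E d,
  b ∈ interior P →
  (∫ x in tr P b, max (-(fderiv ℝ (gauge (tr P b)) x y)) 0) =
    ∫ x in P, max (-(fderiv ℝ (gauge P) x y)) 0

/-- FLA. The flatness of `P - b` in terms of the gauge about `0`.
Proof. `V_FLT` for `y` and `-y` gives `∫_{tr P b} |D gauge (tr P b)(x) y| dx = ∫_P |D (gauge P)(x) y| dx`;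
integrate over `y ∈ tr P b` (Fubini; all functions are bounded and measurable) and use `V_MTR`. -/
def V_FLA : Prop := ∀ (d : ℕ) (P : Set (E d)) (a : ℝ), 1 ≤ d → Bo P a → ∀ b : E d,
  b ∈ interior P →
  Pool.Agent.Results.MP_eba1ef_gt.AsymmetricThinSlabs.flatness (tr P b) =
    ∫ z, ∫ z', |fderiv ℝ (gauge P) z (z' - b)| ∂(mP P) ∂(mP P)

/-- FCO. Flat bodies are covered.
Proof. `AsymmetricThinSlabs.result` (second part) for `tr P b` as in the proof of `N555.RZ.mainA`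
(`N555.RZ.log_num`), `V_FLA`, `V_BAR`, `V_CTR`. -/
def V_FCO : Prop := ∀ (d : ℕ) (P : Set (E d)) (a : ℝ) (b : E d), 2 ≤ d → Bo P a → Bc P b →
  ∫ z, ∫ z', |fderiv ℝ (gauge P) z (z' - b)| ∂(mP P) ∂(mP P) ≤
    1 / (46080 * Real.log (d + 1)) → Cv P

/-! ### The dichotomy -/

/-- GEN. Sign patterns for a family of functionals.
Proof. This is the proof of `N555.RZ.mainA_iso` (`Pool/Agent/N555/RZ/MainA.lean`) with a general `A'`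
instead of `ga K a` (and `a0` instead of `(ρ/a)²/2`). -/
def V_GEN : Prop := ∀ (d n : ℕ) (K : Set (E d)) (A' : E d → E d) (a0 D : ℝ), 1 ≤ n → Convex ℝ K →
  IsCompact K → K ∈ 𝓝 (0 : E d) → Iso K → Measurable A' → (∀ y, ‖A' y‖ ≤ 1) →
  (∀ y, ∀ z ∈ K, |⟪A' y, z⟫_ℝ| ≤ 1) →
  (∀ x : E d, D * ∫ y, ⟪A' y, x⟫_ℝ ^ 2 ∂(mP K) ≤ ‖x‖ ^ 2) → 0 < a0 →
  2 * a0 ≤ ∫ y, ‖A' y‖ ^ 2 ∂(mP K) → 3 * 10 ^ 15 * (n : ℝ) ^ 4 ≤ D * a0 ^ 5 →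
  ∃ ζ : Fin n → E d, ∀ δ : Fin n → Bool, ∃ z ∈ K, ∀ i,
    a0 / 2 ≤ (if δ i then (1 : ℝ) else -1) * ⟪A' (ζ i), z⟫_ℝ

/-- MNA. Sign patterns of affine functionals.
Proof. `V_GEN` with `K = tr P b`, `A' y = (2a)⁻¹ ∇(gauge P)(y + b)`, `a0 = (ρ/(2a))²/2` and `(2a)² D`. For
`z', b ∈ P`: `|g'(y)(z' - b)| ≤ 1 + a ≤ 2a`; `‖A' y‖² = ∫ ⟪z, A' y⟫² dmP K ≤ 1` (`V_TRB`); the mean of
`‖A' y‖²`: as in `N555.RZ.norm_mean`. `V_MTR`. `φ i = g'(ζ i + b)`, `φ i ≤ 1` on `P`. -/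
def V_MNA : Prop := ∀ (d n : ℕ) (P : Set (E d)) (a D ρ : ℝ) (b : E d), 1 ≤ n → Bo P a → Bc P b →
  Ic P b → (∀ w : E d, D * ∫ z, (fderiv ℝ (gauge P) z w) ^ 2 ∂(mP P) ≤ ‖w‖ ^ 2) → 0 < ρ →
  ρ ≤ ∫ z, ∫ z', |fderiv ℝ (gauge P) z (z' - b)| ∂(mP P) ∂(mP P) →
  10 ^ 17 * (n : ℝ) ^ 4 * (2 * a) ^ 8 ≤ D * ρ ^ 10 →
  ∃ φ : Fin n → E d →L[ℝ] ℝ, (∀ i, ∀ x ∈ P, φ i x ≤ 1) ∧
    ∀ δ : Fin n → Bool, ∃ z ∈ P, ∀ i,
      ρ ^ 2 / (8 * a) ≤ (if δ i then (1 : ℝ) else -1) * φ i (z - b)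

/-- MAI. Bodies with small covariance of the derivative, close to a symmetric body of finite cotype.
Proof. As `SQ/MAI.lean` with `2C` instead of `C`. Let `L = log (d+1)`, `ρ = 1/(46080 L)`. If the integral
of `V_FCO` is at most `ρ`: `V_FCO`. Else `V_MNA` with `n = ⌈Y^q⌉`, `Y = 10^12 B (2C)² L³`
(`46080^10 ≤ 10^47`, `10^64 n⁴ (2C)^8 L^10 ≤ D`). The points `(z_δ - z_{-δ})/2` are in `Q` and satisfy
`δ_i φ_i ≥ ρ²/(8C) ≥ 1/(2 * 10^10 C L²)`. The functionals `φ_i/C` are at most `1` on `Q ⊆ C P`. `U_RAD` with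
`c = 1/(10^10 (2C)² L²)`; the end is the same as in `SQ/MAI.lean`. -/
def V_MAI : Prop := ∀ (d : ℕ) (P Q : Set (E d)) (C q B D : ℝ) (b : E d), 2 ≤ d → Bo P C →
  Bc P b → Ic P b → Bd Q → (∀ u, gauge Q u ≤ gauge P u ∧ gauge P u ≤ C * gauge Q u) →
  (∀ w : E d, D * ∫ z, (fderiv ℝ (gauge P) z w) ^ 2 ∂(mP P) ≤ ‖w‖ ^ 2) → 2 ≤ q → 1 ≤ B →
  (∀ (m : ℕ) (x : Fin m → E d), (∑ i, gauge Q (x i) ^ q) ^ (1 / q) ≤
    B * Real.sqrt (sm (gauge Q) x)) →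
  (10 ^ 12 * B * (2 * C) ^ 2 * Real.log (d + 1) ^ 3) ^ (11 * q) ≤ D → Cv P

/-! ### The spread inequality -/

/-- HAF. Proof. `U_HAF` for `tr P b` (`V_TRB`), invariance of the volume. -/
def V_HAF : Prop := ∀ (d : ℕ) (P : Set (E d)) (a : ℝ) (b : E d), Bo P a → Bc P b → Ic P b →
  ∀ e : E d, ‖e‖ = 1 → ENNReal.ofReal (1 / 10 ^ 12) * volume P ≤ volume (hs P b (2 / 10 ^ 6) e)

/-- EXM. Exponential moments.
Proof. `U_EXM` for `tr P b`, `tr A b`, `β - b` (`V_TRB`); `la (tr A b) (β - b) = la A β` by `V_MTR`. -/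
def V_EXM : Prop := ∀ (d : ℕ) (P A : Set (E d)) (a : ℝ) (b : E d), Bo P a → Bc P b → Ic P b →
  A ⊆ P → MeasurableSet A → ENNReal.ofReal (1 / 10 ^ 12) * volume P ≤ volume A → ∀ β : E d,
  (∀ w : E d, ⟪β, w⟫_ℝ = ∫ x, ⟪x, w⟫_ℝ ∂(mP A)) → ∀ w : E d, ‖w‖ ≤ 1 →
  ∫ x, Real.exp (|⟪x, w⟫_ℝ| / 20) ∂(la A β) ≤ 10 ^ 26

/-- GSY. The symmetric core. Proof. As `SQ/GSY.lean`. -/
def V_GSY : Prop := ∀ (d : ℕ) (P : Set (E d)) (a : ℝ), Bo P a → Bd (sc P) ∧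
  gm (gauge (sc P)) ≤ 2 * gm (gauge P) ∧ (∀ x, gauge P x ≤ gauge (sc P) x) ∧
  (∀ x, gauge P (-x) ≤ gauge (sc P) x) ∧ ∀ x, gauge P (-x) ≤ a * gauge P x

/-- BM. Small translations. Proof. As `SQ/BM.lean`. -/
def V_BM : Prop := ∀ (d : ℕ) (P : Set (E d)) (a : ℝ), Bo P a → ∀ (γ : E d) (r ε' : ℝ), 0 ≤ r →
  0 ≤ ε' →
  ENNReal.ofReal (Real.exp (-r)) * volume P ≤ volume {x | x ∈ P ∧ gauge P (x - γ) ≤ 1 + ε'} →
  ∀ k : ℕ, volume {x | x ∈ P ∧ 1 + ε' * (1 / 2) ^ k < gauge P (x - (1 / 2 : ℝ) ^ k • γ)} ≤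
    ENNReal.ofReal (r * (1 / 2) ^ k) * volume P

/-- WEA. Weak type estimate. Proof. As `SQ/WEA.lean`. -/
def V_WEA : Prop := ∀ (d : ℕ) (P : Set (E d)) (a : ℝ), 1 ≤ d → Bo P a →
  ∀ (γ : E d) (r ε' : ℝ), 0 ≤ r → 0 ≤ ε' → (∀ k : ℕ, volume {x | x ∈ P ∧ 1 + ε' * (1 / 2) ^ k <
    gauge P (x - (1 / 2 : ℝ) ^ k • γ)} ≤ ENNReal.ofReal (r * (1 / 2) ^ k) * volume P) →
  ∀ t : ℝ, 0 < t → volume {x | x ∈ P ∧ ε' + t ≤ -(fderiv ℝ (gauge P) x γ)} ≤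
    ENNReal.ofReal (8 / 5 * (r + 1) / (d * t)) * volume P

/-- REV. The opposite direction. Proof. As `SQ/REV.lean`. -/
def V_REV : Prop := ∀ (d : ℕ) (P : Set (E d)) (a : ℝ), Bo P a → ∀ (γ : E d) (r ε' : ℝ), 0 ≤ r →
  0 ≤ ε' →
  ENNReal.ofReal (Real.exp (-r)) * volume P ≤ volume {x | x ∈ P ∧ gauge P (x - γ) ≤ 1 + ε'} →
  ENNReal.ofReal (Real.exp (-(r + ε' * d))) * volume P ≤
    volume {x | x ∈ P ∧ gauge P (x - (-((1 + ε')⁻¹ • γ))) ≤ 1 + 0}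

/-- SM. Second moment. Proof. As `SQ/SM.lean`. -/
def V_SM : Prop := ∀ (d : ℕ) (P : Set (E d)) (a : ℝ), 1 ≤ d → Bo P a →
  ∀ (γ : E d) (r ε' : ℝ), 0 ≤ r → 0 ≤ ε' → ε' ≤ 1 → gauge P γ ≤ 2 * a → gauge P (-γ) ≤ 2 * a →
  (∀ t : ℝ, 0 < t → volume {x | x ∈ P ∧ ε' + t ≤ -(fderiv ℝ (gauge P) x γ)} ≤
    ENNReal.ofReal (8 / 5 * (r + 1) / (d * t)) * volume P) →
  (∀ t : ℝ, 0 < t → volume {x | x ∈ P ∧ 0 + t ≤
      -(fderiv ℝ (gauge P) x (-((1 + ε')⁻¹ • γ)))} ≤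
    ENNReal.ofReal (8 / 5 * (r + ε' * d + 1) / (d * t)) * volume P) →
  ∫ z, (fderiv ℝ (gauge P) z γ) ^ 2 ∂(mP P) ≤
    2 * ε' ^ 2 + 128 / 5 * a * ((r + 1) / d + ε')

/-- EIG. The top eigenvector. Proof. As `SQ/EIG.lean`. -/
def V_EIG : Prop := ∀ (d : ℕ) (P : Set (E d)) (a : ℝ), 1 ≤ d → Bo P a → ∃ (e : E d) (lam : ℝ),
  ‖e‖ = 1 ∧ 0 ≤ lam ∧
  (∀ w : E d, ∫ z, (fderiv ℝ (gauge P) z w) ^ 2 ∂(mP P) ≤ lam * ‖w‖ ^ 2) ∧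
  ∀ w : E d, lam * ⟪w, e⟫_ℝ ^ 2 ≤ ∫ z, (fderiv ℝ (gauge P) z w) ^ 2 ∂(mP P)

/-- LAM. The bound for the top eigenvalue with free parameters.
Proof. As `SQ/LAM.lean`, with `A = hs P b c e`, `A' = hs P b c (-e)`. -/
def V_LAM : Prop := ∀ (d : ℕ) (P : Set (E d)) (a l h ε : ℝ) (b : E d), 7 ≤ d → Bo P a → Bc P b →
  Ic P b → 0 < l →
  gm (gauge P) ≤ l → 0 < h → h ≤ 10 ^ 31 * Real.sqrt d → 0 < ε → 4 * ε ≤ 1 →
  8 * (30 * 10 ^ 31 * Real.sqrt d / h) ≤ d →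
  ∀ w : E d, ∫ z, (fderiv ℝ (gauge P) z w) ^ 2 ∂(mP P) ≤
    10 ^ 14 * a * (ε + (1 + 30 * 10 ^ 31 * Real.sqrt d / h +
      128 * l ^ 2 * h * d / ε ^ 2) / d) * ‖w‖ ^ 2

/-- SPR. **The spread inequality.** Proof. As the proof of `U_SPR` (see its docstring). -/
def V_SPR : Prop := ∀ (d : ℕ) (P : Set (E d)) (a l : ℝ) (b : E d), Bo P a → Bc P b → Ic P b →
  1 ≤ l → gm (gauge P) ≤ l → 10 ^ 280 * l ^ 4 ≤ (d : ℝ) →
  ∀ w : E d, (d : ℝ) ^ ((1 : ℝ) / 8) / (10 ^ 47 * a * l ^ ((1 : ℝ) / 2)) *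
    ∫ z, (fderiv ℝ (gauge P) z w) ^ 2 ∂(mP P) ≤ ‖w‖ ^ 2

/-! ### The criterion -/

/-- IMG. Linear images. Proof. As `SQ/IMG.lean`. -/
def V_IMG : Prop := ∀ (d : ℕ) (P Q : Set (E d)) (A : E d ≃ₗ[ℝ] E d) (C : ℝ) (b : E d), Bo P C →
  Bc P b → Bd Q → (∀ u, gauge Q u ≤ gauge P u ∧ gauge P u ≤ C * gauge Q u) →
  Bo (A '' P) C ∧ Bc (A '' P) (A b) ∧ Bd (A '' Q) ∧
    ∀ u, gauge (A '' Q) u ≤ gauge (A '' P) u ∧ gauge (A '' P) u ≤ C * gauge (A '' Q) u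

/-- ISO. The isotropic position.
Proof. `N555.RZ.exists_iso` for `tr P b` (`V_TRB`); `A '' (tr P b) = tr (A '' P) (A b)`, `V_MTR`. -/
def V_ISO : Prop := ∀ (d : ℕ) (P : Set (E d)) (a : ℝ) (b : E d), Bo P a → Bc P b →
  ∃ A : E d ≃ₗ[ℝ] E d, Ic (A '' P) (A b)

/-- CRT. The criterion.
Proof. `V_IMG`, `gm (gauge (A '' P)) ≤ C gm (gauge (A '' Q)) ≤ C l`, `V_SPR` for `A '' P` with `C l`,
`V_MAI` for `A '' P` (the cotype inequality for `gauge (A '' Q)` follows by `gauge_img`),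
`N555.RZ.cover_trans`. -/
def V_CRT : Prop := ∀ (d : ℕ) (P Q : Set (E d)) (A : E d ≃ₗ[ℝ] E d) (C l q B : ℝ) (b : E d), 2 ≤ d →
  Bo P C → Bc P b → Bd Q → (∀ u, gauge Q u ≤ gauge P u ∧ gauge P u ≤ C * gauge Q u) →
  Ic (A '' P) (A b) →
  gm (gauge (A '' Q)) ≤ l → 1 ≤ l → 10 ^ 280 * (C * l) ^ 4 ≤ (d : ℝ) → 2 ≤ q → 1 ≤ B →
  (∀ (m : ℕ) (x : Fin m → E d), (∑ i, gauge Q (x i) ^ q) ^ (1 / q) ≤
    B * Real.sqrt (sm (gauge Q) x)) →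
  (10 ^ 12 * B * (2 * C) ^ 2 * Real.log (d + 1) ^ 3) ^ (11 * q) *
    (10 ^ 47 * C * (C * l) ^ ((1 : ℝ) / 2)) ≤ (d : ℝ) ^ ((1 : ℝ) / 8) → Cv P

/-- TWO. `P - b ⊆ 2 Q`.
Proof. `P ⊆ Q`, `b ∈ P`, `-b ∈ Q`, so `tr P b ⊆ 2 Q`; `gauge (2 • Q) u = gauge Q u / 2`
(`gauge_smul_left_of_nonneg` or a direct computation), `gm` is linear. -/
def V_TWO : Prop := ∀ (d : ℕ) (P Q : Set (E d)) (a : ℝ) (b : E d), Bo P a → Bc P b → Bd Q →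
  (∀ u, gauge Q u ≤ gauge P u) → Bd ((2 : ℝ) • Q) ∧
    (∀ u, gauge ((2 : ℝ) • Q) u ≤ gauge (tr P b) u) ∧
    (∀ u, gauge ((2 : ℝ) • Q) u = gauge Q u / 2) ∧ gm (gauge ((2 : ℝ) • Q)) = gm (gauge Q) / 2

/-- ZGM. Gaussian mean, zonoids.
Proof. `V_TRB`, `V_TWO`, `U_ZGM` for `tr P b` and `2 • Q` (`ZC 1 (gauge (2 • Q))`: the measure `μ/2`). -/
def V_ZGM : Prop := ∀ (d : ℕ) (P Q : Set (E d)) (a : ℝ) (b : E d), Bo P a → Bc P b → Ic P b →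
  Bd Q → (∀ u, gauge Q u ≤ gauge P u) → ZC 1 (gauge Q) → gm (gauge Q) ≤ 2 * 10 ^ 5

/-- LGM. Gaussian mean, lattices.
Proof. `V_TRB`, `V_TWO`, `U_LGM` for `tr P b` and `2 • Q` (`LC q M 1 (gauge (2 • Q))`: `G/2`, see
`SP/Stm2.lean` or `SP/Stm3.lean` for `LC`, `LN`). -/
def V_LGM : Prop := ∀ (d : ℕ) (P Q : Set (E d)) (a q M : ℝ) (b : E d), 2 ≤ q → 1 ≤ M → Bo P a →
  Bc P b → Ic P b → Bd Q → (∀ u, gauge Q u ≤ gauge P u) → LC q M 1 (gauge Q) →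
  gm (gauge Q) ≤ 4 * 10 ^ 5 * q * M

/-- TGM. Gaussian mean, type `p`.
Proof. `V_TRB`, `V_TWO`, `U_TGM` for `tr P b` and `2 • Q` (`TY p T` is homogeneous). -/
def V_TGM : Prop := ∀ (d : ℕ) (P Q : Set (E d)) (a p T : ℝ) (b : E d), 2 ≤ d → Bo P a → Bc P b →
  Ic P b → Bd Q → (∀ u, gauge Q u ≤ gauge P u) → 4 / 3 ≤ p → p ≤ 2 → 1 ≤ T → TY p T (gauge Q) →
  gm (gauge Q) ≤ 6 * 10 ^ 8 * T * (d * Real.log (d + 1)) ^ (1 / p - 1 / 2)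

/-- NUM. Numbers. Proof. `U_NUM` with `2C`. -/
def V_NUM : Prop := ∀ (d : ℕ) (q M C : ℝ), 2 ≤ d → 2 ≤ q → 1 ≤ M → 1 ≤ C →
  (4 * 10 ^ 13 * M * C ^ 2 * Real.log (d + 1) ^ 3) ^ (120 * q) ≤ d →
  10 ^ 280 * (C * (4 * 10 ^ 5 * q * M)) ^ 4 ≤ d ∧
  (10 ^ 12 * (2 * M) * (2 * C) ^ 2 * Real.log (d + 1) ^ 3) ^ (11 * q) *
    (10 ^ 47 * C * (C * (4 * 10 ^ 5 * q * M)) ^ ((1 : ℝ) / 2)) ≤ (d : ℝ) ^ ((1 : ℝ) / 8)

/-- TNU. Numbers for type `p`. Proof. `U_TNU` with `2C`. -/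
def V_TNU : Prop := ∀ (d : ℕ) (p q T B C : ℝ), 2 ≤ d → 4 / 3 < p → p ≤ 2 → 2 ≤ q → 1 ≤ T →
  1 ≤ B → 1 ≤ C →
  (4 * 10 ^ 13 * T * B * C ^ 2 * Real.log (d + 1) ^ 3) ^ (120 * q) ≤ (d : ℝ) ^ (3 - 4 / p) →
  1 ≤ 6 * 10 ^ 8 * T * (d * Real.log (d + 1)) ^ (1 / p - 1 / 2) ∧
  10 ^ 280 * (C * (6 * 10 ^ 8 * T * (d * Real.log (d + 1)) ^ (1 / p - 1 / 2))) ^ 4 ≤ d ∧
  (10 ^ 12 * B * (2 * C) ^ 2 * Real.log (d + 1) ^ 3) ^ (11 * q) *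
    (10 ^ 47 * C * (C * (6 * 10 ^ 8 * T * (d * Real.log (d + 1)) ^ (1 / p - 1 / 2))) ^
      ((1 : ℝ) / 2)) ≤ (d : ℝ) ^ ((1 : ℝ) / 8)

/-- POL. The polar body and the unit ball of `n`. Proof. As `SQ/POL.lean`. -/
def V_POL : Prop := ∀ (d : ℕ) (C : ℝ) (K : Set (E d)) (o : E d) (n : E d → ℝ), IsCompact K →
  Convex ℝ K → o ∈ interior K → 1 ≤ C → (∀ u v, n (u + v) ≤ n u + n v) →
  (∀ (c : ℝ) u, n (c • u) = |c| * n u) →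
  (∀ u : E d, ∃ y ∈ K, n u ≤ ⟪u, y - o⟫_ℝ) → (∀ u : E d, ∀ y ∈ K, ⟪u, y - o⟫_ℝ ≤ C * n u) →
  Bo (Pool.Agent.TH591.Lie.polarAt K o) C ∧ Bd {u : E d | n u ≤ 1} ∧
    (∀ u, gauge {u : E d | n u ≤ 1} u = n u) ∧
    ∀ u, n u ≤ gauge (Pool.Agent.TH591.Lie.polarAt K o) u ∧
      gauge (Pool.Agent.TH591.Lie.polarAt K o) u ≤ C * n u

end Pool.Agent.T2h52.SO
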