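import Pool.Agent.T2h52.SO.BAR

/-!
# TWO: `P - b ⊆ 2 Q`
-/

set_option autoImplicit false

namespace Pool.Agent.T2h52.SO

open MeasureTheory Set Filter Topology
open scoped ENNReal InnerProductSpace Pointwise
open Pool.Agent.N555.RZ (mP)
open Pool.Agent.T2h52.SP

theorem two : V_TWO := by
  intro d P Q a b h hb hQ hle
  have hbi : b ∈ interior P := bar d P a b h hb
  have hQn : Q ∈ 𝓝 (0 : E d) := mem_interior_iff_mem_nhds.mp hQ.int
  have hPQ : P ⊆ Q := by
    intro x hx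
    have h1 : gauge Q x ≤ 1 := (hle x).trans (gauge_le_one_of_mem hx)
    have h2 := (gauge_le_one_iff_mem_closure hQ.conv hQn).mp h1
    rwa [hQ.comp.isClosed.closure_eq] at h2
  have hsub : tr P b ⊆ (2 : ℝ) • Q := by
    rintro _ ⟨x, hx, rfl⟩
    have h1 : x ∈ Q := hPQ hx
    have h2 : -b ∈ Q := hQ.sym _ (hPQ (interior_subset hbi))
    have h3 : (1 / 2 : ℝ) • x + (1 / 2 : ℝ) • (-b) ∈ Q :=
      hQ.conv h1 h2 (by norm_num) (by norm_num) (by norm_num)
    refine ⟨_, h3, ?_⟩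
    simp only [smul_add, smul_smul, smul_neg]
    norm_num
    abel
  have hg : ∀ u, gauge ((2 : ℝ) • Q) u = gauge Q u / 2 := by
    intro u
    rw [gauge_smul_left_of_nonneg (by norm_num : (0 : ℝ) ≤ 2)]
    simp only [Pi.smul_apply, smul_eq_mul]
    ring
  have hi : interior (tr P b) = tr (interior P) b := by
    have h := (Homeomorph.subRight b).image_interior P
    simpa [tr] using h.symm
  have h0 : (0 : E d) ∈ interior (tr P b) := by
    rw [hi]
    exact ⟨b, hbi, sub_self b⟩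
  refine ⟨⟨hQ.conv.smul 2, hQ.comp.smul 2, ?_, ?_⟩, ?_, hg, ?_⟩
  · rw [interior_smul₀ (by norm_num : (2 : ℝ) ≠ 0)]
    exact ⟨0, hQ.int, by simp⟩
  · rintro _ ⟨y, hy, rfl⟩
    exact ⟨-y, hQ.sym y hy, by simp⟩
  · intro u
    exact gauge_mono (absorbent_nhds_zero (mem_interior_iff_mem_nhds.mp h0)) hsub u
  · unfold gm
    have e : (fun y : E d => gauge ((2 : ℝ) • Q) y * Real.exp (-(‖y‖ ^ 2 / 2))) =
        fun y => (1 / 2 : ℝ) * (gauge Q y * Real.exp (-(‖y‖ ^ 2 / 2))) := by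
      ext y
      rw [hg y]
      ring
    rw [e, integral_const_mul]
    ring

end Pool.Agent.T2h52.SO
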